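import Mathlib

/-!
Skew products of permutations with a cocycle, and the flip.
-/

namespace Pool.Agent.H.MP_9a81ba_al.P

variable {P W : Type*} [Group W]

/-- the skew product of a permutation `f` with the cocycle `k` -/
def skew (f : Equiv.Perm P) (k : P → W) : Equiv.Perm (P × Bool × W) where
  toFun s := (f s.1, s.2.1, k s.1 * s.2.2)
  invFun s := (f.symm s.1, s.2.1, (k (f.symm s.1))⁻¹ * s.2.2)
  left_inv s := by simp
  right_inv s := by simp

theorem skew_apply (f : Equiv.Perm P) (k : P → W) (p : P) (t : Bool) (u : W) :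
    skew f k (p, t, u) = (f p, t, k p * u) := rfl

theorem skew_symm_apply (f : Equiv.Perm P) (k : P → W) (p : P) (t : Bool) (u : W) :
    (skew f k)⁻¹ (p, t, u) = (f.symm p, t, (k (f.symm p))⁻¹ * u) := rfl

theorem skew_comm (f f' : Equiv.Perm P) (k k' : P → W) (h : ∀ p, f (f' p) = f' (f p))
    (hk : ∀ p, k (f' p) * k' p = k' (f p) * k p) : Commute (skew f k) (skew f' k') := by
  refine Equiv.ext fun s => ?_
  obtain ⟨p, t, u⟩ := s
  rw [Equiv.Perm.mul_apply, Equiv.Perm.mul_apply, skew_apply, skew_apply, skew_apply, skew_apply,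
    h, ← mul_assoc, ← mul_assoc, hk]

open Classical in
/-- the permutation `x`: on the set `C` it multiplies with `(m p)⁻¹ y (m p)`, outside it flips the
Boolean -/
noncomputable def flipx (C : P → Prop) (m : P → W) (y : W) : Equiv.Perm (P × Bool × W) where
  toFun s := if C s.1 then (s.1, s.2.1, (m s.1)⁻¹ * y * m s.1 * s.2.2) else (s.1, !s.2.1, s.2.2)
  invFun s := if C s.1 then (s.1, s.2.1, (m s.1)⁻¹ * y⁻¹ * m s.1 * s.2.2) else
    (s.1, !s.2.1, s.2.2)
  left_inv s := by
    obtain ⟨p, t, u⟩ := s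
    by_cases h : C p
    · simp [h, mul_assoc]
    · simp [h]
  right_inv s := by
    obtain ⟨p, t, u⟩ := s
    by_cases h : C p
    · simp [h, mul_assoc]
    · simp [h]

theorem flipx_pos (C : P → Prop) (m : P → W) (y : W) (p : P) (t : Bool) (u : W) (h : C p) :
    flipx C m y (p, t, u) = (p, t, (m p)⁻¹ * y * m p * u) := by
  simp [flipx, h]

theorem flipx_neg (C : P → Prop) (m : P → W) (y : W) (p : P) (t : Bool) (u : W) (h : ¬ C p) :
    flipx C m y (p, t, u) = (p, !t, u) := by
  simp [flipx, h]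

theorem flipx_comm (C : P → Prop) (m : P → W) (y : W) (f : Equiv.Perm P) (k : P → W)
    (h : ∀ p, C (f p) ↔ C p) (hm : ∀ p, C p → m p = m (f p) * k p) :
    Commute (skew f k) (flipx C m y) := by
  refine Equiv.ext fun s => ?_
  obtain ⟨p, t, u⟩ := s
  by_cases hp : C p
  · rw [Equiv.Perm.mul_apply, Equiv.Perm.mul_apply, flipx_pos _ _ _ _ _ _ hp, skew_apply,
      skew_apply, flipx_pos _ _ _ _ _ _ ((h p).2 hp), hm p hp]
    simp [mul_assoc]
  · rw [Equiv.Perm.mul_apply, Equiv.Perm.mul_apply, flipx_neg _ _ _ _ _ _ hp, skew_apply,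
      skew_apply, flipx_neg _ _ _ _ _ _ (fun h' => hp ((h p).1 h'))]

end Pool.Agent.H.MP_9a81ba_al.P
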