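import Pool.Agent.H.MP_9a81ba_al.P.AutoPerm
import Pool.Agent.H.MP_9a81ba_al.P.Skew

/-!
The cocycles, the invariant set and the function `m`.
-/

namespace Pool.Agent.H.MP_9a81ba_al.P.PM

variable (M : PM)

/-- the cocycle of `T` -/
def kt (s : M.V × ℤ) : M.W := (M.lam s.1)⁻¹

/-- the cocycle of `b` -/
def kb : M.V × ℤ → M.W
  | (Sum.inl (q, i), _) =>
      Fin.cases (motive := fun _ => M.W) 1
        (fun i' => if (M.idx.symm i').1 ≠ M.qh ∧ M.tg (M.idx.symm i') = q then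
          (M.bet (M.idx.symm i'))⁻¹ else 1) i
  | (Sum.inr (Sum.inl _), _) => 1
  | (Sum.inr (Sum.inr p), _) => if p.1 = M.qh then 1 else M.bet p

/-- the cocycle of `c` -/
def kc : M.V × ℤ → M.W
  | (Sum.inl (q, i), z) => M.lam (M.Ch q (i - 1)) ^ (-z) * M.lam (M.Ch q i) ^ z
  | (Sum.inr (Sum.inl q), z) => if q = M.qh then 1 else
      M.lam (M.E (q, M.res z)) ^ (-(z / (M.A : ℤ))) * M.lam (M.D q) ^ (z / (M.A : ℤ))
  | (Sum.inr (Sum.inr p), z) => if p.1 = M.qh ∨ z % M.bb p ≠ 0 then 1 else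
      M.lam (M.D p.1) ^ (-(z / M.bb p)) * M.lam (M.E p) ^ (z / M.bb p)

/-- the invariant set -/
def CC : M.V × ℤ → Prop
  | (Sum.inl (q, _), z) => M.HZ q z
  | (Sum.inr (Sum.inl q), z) => q ≠ M.qh ∧ M.HZ q z
  | (Sum.inr (Sum.inr p), z) => p.1 ≠ M.qh ∧ M.HZ (M.tg p) (z + M.cc p)

theorem kb_ch0 (q : Fin M.nQ) (z : ℤ) : M.kb (M.Ch q 0, z) = 1 := rfl

theorem kb_chs (p : M.Pi) (z : ℤ) (hq : p.1 ≠ M.qh) :
    M.kb (M.Ch (M.tg p) (M.idx p).succ, z) = (M.bet p)⁻¹ := by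
  simp [kb, hq]

theorem kb_chs' (p : M.Pi) (q : Fin M.nQ) (z : ℤ) (hq : ¬ (p.1 ≠ M.qh ∧ M.tg p = q)) :
    M.kb (M.Ch q (M.idx p).succ, z) = 1 := by
  simp only [kb, Fin.cases_succ, Equiv.symm_apply_apply]
  rw [if_neg hq]

theorem kb_D (q : Fin M.nQ) (z : ℤ) : M.kb (M.D q, z) = 1 := rfl

theorem kb_E (p : M.Pi) (z : ℤ) (hq : p.1 ≠ M.qh) : M.kb (M.E p, z) = M.bet p := by
  simp [kb, hq]

theorem kb_Eh (p : M.Pi) (z : ℤ) (hq : p.1 = M.qh) : M.kb (M.E p, z) = 1 := by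
  simp [kb, hq]

theorem kc_ch (q : Fin M.nQ) (i : Fin (M.K + 1)) (z : ℤ) :
    M.kc (M.Ch q i, z) = M.lam (M.Ch q (i - 1)) ^ (-z) * M.lam (M.Ch q i) ^ z := rfl

theorem kc_D (q : Fin M.nQ) (j : Fin M.A) (m : ℤ) (hq : q ≠ M.qh) :
    M.kc (M.D q, M.A * m + ((j : ℕ) : ℤ)) =
      M.lam (M.E (q, j)) ^ (-m) * M.lam (M.D q) ^ m := by
  simp only [kc]
  rw [if_neg hq, M.res_eq, M.div_eq]

theorem kc_Dh (z : ℤ) : M.kc (M.D M.qh, z) = 1 := by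
  simp [kc]

theorem kc_E (p : M.Pi) (m : ℤ) (hq : p.1 ≠ M.qh) :
    M.kc (M.E p, M.bb p * m) = M.lam (M.D p.1) ^ (-m) * M.lam (M.E p) ^ m := by
  have h := M.bb_pos p
  simp only [kc]
  rw [if_neg (by
    intro h1
    rcases h1 with h1 | h1
    · exact hq h1
    · exact h1 (Int.mul_emod_right _ _)), Int.mul_ediv_cancel_left _ h.ne']

theorem kc_E' (p : M.Pi) (z : ℤ) (hq : p.1 = M.qh ∨ ¬ M.bb p ∣ z) :
    M.kc (M.E p, z) = 1 := by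
  simp only [kc]
  rw [if_pos]
  rcases hq with h | h
  · exact Or.inl h
  · exact Or.inr fun h1 => h (Int.dvd_of_emod_eq_zero h1)

end Pool.Agent.H.MP_9a81ba_al.P.PM
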