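import Pool.Agent.H.MP_9a81ba_al.P.AutoCoc

/-!
Commutation of the skew permutations.
-/

namespace Pool.Agent.H.MP_9a81ba_al.P.PM

variable (M : PM)

/-- the permutation `S` on points -/
def qS : Equiv.Perm ((M.V × ℤ) × Bool × M.W) := skew M.pS (fun _ => 1)

/-- the permutation `T` on points -/
def qT : Equiv.Perm ((M.V × ℤ) × Bool × M.W) := skew M.pT M.kt

/-- the permutation `b` on points -/
def qb : Equiv.Perm ((M.V × ℤ) × Bool × M.W) := skew M.pb M.kb

/-- the permutation `c` on points -/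
def qc : Equiv.Perm ((M.V × ℤ) × Bool × M.W) := skew M.pc M.kc

theorem autoCom_zp {G : Type*} [Group G] (a b : G) (m : ℤ) :
    a⁻¹ * (a ^ (-m) * b ^ m) = a ^ (-(m + 1)) * b ^ (m + 1) * b⁻¹ := by
  rw [zpow_add_one b m, mul_assoc (a ^ (-(m + 1))), mul_assoc (b ^ m), mul_inv_cancel, mul_one,
    ← mul_assoc]
  congr 1
  rw [neg_add, add_comm, zpow_add, zpow_neg_one]

theorem autoCom_kb (v : M.V) (z z' : ℤ) : M.kb (v, z) = M.kb (v, z') := by
  rcases v with ⟨q, i⟩ | q | p <;> rfl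

/-- the cocycle condition for `T` and `c` -/
theorem autoCom_Tc (v : M.V) (z : ℤ) :
    (M.lam (M.fc (v, z)).1)⁻¹ * M.kc (v, z) = M.kc (v, z + M.sl v) * (M.lam v)⁻¹ := by
  rcases v with ⟨q, i⟩ | q | p
  · exact autoCom_zp _ _ z
  · show (M.lam (M.fc (M.D q, z)).1)⁻¹ * M.kc (M.D q, z) =
      M.kc (M.D q, z + (M.A : ℤ)) * (M.lam (M.D q))⁻¹
    by_cases hq : q = M.qh
    · subst hq
      rw [fc_Dh, kc_Dh, kc_Dh, mul_one, one_mul]
    · have hz := M.eq_res z
      have e1 : z + (M.A : ℤ) = M.A * (z / (M.A : ℤ) + 1) + ((M.res z : ℕ) : ℤ) := by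
        conv_lhs => rw [hz]
        ring
      have e2 : M.fc (M.D q, z) = (M.E (q, M.res z), M.bb (q, M.res z) * (z / (M.A : ℤ))) := by
        conv_lhs => rw [hz]
        exact fc_D M q _ _ hq
      have e3 : M.kc (M.D q, z) =
          M.lam (M.E (q, M.res z)) ^ (-(z / (M.A : ℤ))) * M.lam (M.D q) ^ (z / (M.A : ℤ)) := by
        conv_lhs => rw [hz]
        exact kc_D M q _ _ hq
      rw [e1, kc_D M q _ _ hq, e2, e3]
      exact autoCom_zp _ _ _
  · show (M.lam (M.fc (M.E p, z)).1)⁻¹ * M.kc (M.E p, z) =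
      M.kc (M.E p, z + M.bb p) * (M.lam (M.E p))⁻¹
    by_cases h : p.1 = M.qh ∨ ¬ M.bb p ∣ z
    · have h' : p.1 = M.qh ∨ ¬ M.bb p ∣ z + M.bb p := by
        rcases h with h | h
        · exact Or.inl h
        · refine Or.inr fun h1 => h ?_
          have := dvd_sub h1 (dvd_refl (M.bb p))
          rwa [add_sub_cancel_right] at this
      rw [fc_E' M p z h, kc_E' M p z h, kc_E' M p _ h', mul_one, one_mul]
    · push Not at h
      obtain ⟨h1, m, rfl⟩ := h
      have e1 : M.bb p * m + M.bb p = M.bb p * (m + 1) := by ring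
      rw [e1, fc_E M p m h1, kc_E M p m h1, kc_E M p (m + 1) h1]
      exact autoCom_zp _ _ _

/-- Proof: `skew_comm` with `fb_shift`; the cocycle `kb` does not depend on the integer
(`V_cases` and the lemmas `kb_..`). -/
theorem comm_bS : Commute M.qb M.qS := by
  refine skew_comm M.pb M.pS M.kb (fun _ => 1) (fun s => M.fb_shift s.1 s.2) fun s => ?_
  rw [mul_one, one_mul]
  exact M.autoCom_kb s.1 _ _

/-- Proof: `skew_comm`; `kt` does not depend on the integer. -/
theorem comm_ST : Commute M.qS M.qT := by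
  refine skew_comm M.pS M.pT (fun _ => 1) M.kt (fun s => ?_) fun s => ?_
  · exact Prod.ext rfl (add_right_comm _ _ _)
  · rw [mul_one, one_mul]
    rfl

/-- Proof: `skew_comm` with `fc_shift`; the cocycle condition
`kt (fc p) * kc p = kc (pT p) * kt p`: at `(Ch q i, z)` both sides are
`lam (Ch q (i-1)) ^ (-z-1) * lam (Ch q i) ^ z`; at `(D q, A m + j)` (`q ≠ qh`, `eq_res`) both sides
are `lam (E (q,j)) ^ (-m-1) * lam (D q) ^ m`; at `(E p, b m)` both sides are
`lam (D p.1) ^ (-m-1) * lam (E p) ^ m`; at the fixed points both sides are `(lam v)⁻¹`. -/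
theorem comm_Tc : Commute M.qT M.qc := by
  exact skew_comm M.pT M.pc M.kt M.kc (fun s => (M.fc_shift s.1 s.2).symm)
    fun s => M.autoCom_Tc s.1 s.2

end Pool.Agent.H.MP_9a81ba_al.P.PM
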