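import Pool.Agent.H.MP_9a81ba_al.P.MachZ

/-!
The points and the underlying permutations of the action of the pentagon group.
-/

namespace Pool.Agent.H.MP_9a81ba_al.P

open Pool.Agent.H.MP_7596fa_lc

namespace PM

variable (M : PM)

/-- pairs (state, residue) -/
abbrev Pi : Type := Fin M.nQ × Fin M.A

/-- the number of pairs -/
abbrev K : ℕ := M.nQ * M.A

/-- the numbering of the pairs -/
def idx : M.Pi ≃ Fin M.K := finProdFinEquiv

/-- the vertices: `Ch q i`, `D q`, `E π` -/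
abbrev V : Type := (Fin M.nQ × Fin (M.K + 1)) ⊕ Fin M.nQ ⊕ M.Pi

/-- the chain vertex -/
abbrev Ch (q : Fin M.nQ) (i : Fin (M.K + 1)) : M.V := Sum.inl (q, i)

/-- the vertex `D q` -/
abbrev D (q : Fin M.nQ) : M.V := Sum.inr (Sum.inl q)

/-- the vertex `E π` -/
abbrev E (p : M.Pi) : M.V := Sum.inr (Sum.inr p)

/-- the slope of a vertex -/
def sl : M.V → ℤ
  | Sum.inl _ => 1
  | Sum.inr (Sum.inl _) => (M.A : ℤ)
  | Sum.inr (Sum.inr p) => (M.b p.1 p.2 : ℤ)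

/-- the target of a pair -/
abbrev tg (p : M.Pi) : Fin M.nQ := M.tgt p.1 p.2

/-- the constant of a pair -/
abbrev cc (p : M.Pi) : ℤ := (M.c p.1 p.2 : ℤ)

/-- the slope of a pair -/
abbrev bb (p : M.Pi) : ℤ := (M.b p.1 p.2 : ℤ)

/-- the letters: `lam v` (`v` a vertex), `bet π` (`π` a pair), `yy` -/
abbrev Lt : Type := M.V ⊕ M.Pi ⊕ Unit

/-- the free group on the letters -/
abbrev W : Type := FreeGroup M.Lt

/-- the letter of a vertex -/
def lam (v : M.V) : M.W := FreeGroup.of (Sum.inl v)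

/-- the letter of a pair -/
def bet (p : M.Pi) : M.W := FreeGroup.of (Sum.inr (Sum.inl p))

/-- the last letter -/
def yl : M.W := FreeGroup.of (Sum.inr (Sum.inr ()))

/-- the underlying map of `b`:
`(Ch q 0, z) ↔ (D q, z)` for `q ≠ qh`,
`(E π, z) ↔ (Ch (tg π) (idx π + 1), z + cc π)` for `π.1 ≠ qh`; all other points are fixed. -/
def fb : M.V × ℤ → M.V × ℤ
  | (Sum.inl (q, i), z) =>
      Fin.cases (motive := fun _ => M.V × ℤ)
        (if q = M.qh then (M.Ch q 0, z) else (M.D q, z))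
        (fun i' => if (M.idx.symm i').1 ≠ M.qh ∧ M.tg (M.idx.symm i') = q then
            (M.E (M.idx.symm i'), z - M.cc (M.idx.symm i')) else (M.Ch q i'.succ, z)) i
  | (Sum.inr (Sum.inl q), z) => if q = M.qh then (M.D q, z) else (M.Ch q 0, z)
  | (Sum.inr (Sum.inr p), z) =>
      if p.1 = M.qh then (M.E p, z) else (M.Ch (M.tg p) (M.idx p).succ, z + M.cc p)

/-- the underlying map of `c`:
`(Ch q i, z) ↦ (Ch q (i - 1), z)` (cyclically),
`(D q, A m + j) ↔ (E (q, j), b m)` for `q ≠ qh`; all other points are fixed. -/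
def fc : M.V × ℤ → M.V × ℤ
  | (Sum.inl (q, i), z) => (M.Ch q (i - 1), z)
  | (Sum.inr (Sum.inl q), z) =>
      if q = M.qh then (M.D q, z) else
        (M.E (q, M.res z), M.bb (q, M.res z) * (z / (M.A : ℤ)))
  | (Sum.inr (Sum.inr p), z) =>
      if p.1 = M.qh ∨ z % M.bb p ≠ 0 then (M.E p, z) else
        (M.D p.1, M.A * (z / M.bb p) + ((p.2 : ℕ) : ℤ))

/-- the inverse of `fc` -/
def gc : M.V × ℤ → M.V × ℤ
  | (Sum.inl (q, i), z) => (M.Ch q (i + 1), z)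
  | (Sum.inr v, z) => M.fc (Sum.inr v, z)

theorem fb_ch0 (q : Fin M.nQ) (z : ℤ) (hq : q ≠ M.qh) : M.fb (M.Ch q 0, z) = (M.D q, z) := by
  simp [fb, hq]

theorem fb_ch0h (z : ℤ) : M.fb (M.Ch M.qh 0, z) = (M.Ch M.qh 0, z) := by
  simp [fb]

theorem fb_chs (p : M.Pi) (z : ℤ) (hq : p.1 ≠ M.qh) :
    M.fb (M.Ch (M.tg p) (M.idx p).succ, z) = (M.E p, z - M.cc p) := by
  simp [fb, hq]

theorem fb_chs' (p : M.Pi) (q : Fin M.nQ) (z : ℤ) (hq : ¬ (p.1 ≠ M.qh ∧ M.tg p = q)) :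
    M.fb (M.Ch q (M.idx p).succ, z) = (M.Ch q (M.idx p).succ, z) := by
  simp only [fb, Fin.cases_succ, Equiv.symm_apply_apply]
  rw [if_neg hq]

theorem fb_D (q : Fin M.nQ) (z : ℤ) (hq : q ≠ M.qh) : M.fb (M.D q, z) = (M.Ch q 0, z) := by
  simp [fb, hq]

theorem fb_Dh (z : ℤ) : M.fb (M.D M.qh, z) = (M.D M.qh, z) := by
  simp [fb]

theorem fb_E (p : M.Pi) (z : ℤ) (hq : p.1 ≠ M.qh) :
    M.fb (M.E p, z) = (M.Ch (M.tg p) (M.idx p).succ, z + M.cc p) := by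
  simp [fb, hq]

theorem fb_Eh (p : M.Pi) (z : ℤ) (hq : p.1 = M.qh) : M.fb (M.E p, z) = (M.E p, z) := by
  simp [fb, hq]

theorem fc_ch (q : Fin M.nQ) (i : Fin (M.K + 1)) (z : ℤ) :
    M.fc (M.Ch q i, z) = (M.Ch q (i - 1), z) := rfl

theorem fc_D (q : Fin M.nQ) (j : Fin M.A) (m : ℤ) (hq : q ≠ M.qh) :
    M.fc (M.D q, M.A * m + ((j : ℕ) : ℤ)) = (M.E (q, j), M.bb (q, j) * m) := by
  simp only [fc]
  rw [if_neg hq, M.res_eq, M.div_eq]

theorem fc_Dh (z : ℤ) : M.fc (M.D M.qh, z) = (M.D M.qh, z) := by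
  simp [fc]

theorem bb_pos (p : M.Pi) : 0 < M.bb p := by
  have := M.hb p.1 p.2
  simp only [bb]
  exact_mod_cast this

theorem fc_E (p : M.Pi) (m : ℤ) (hq : p.1 ≠ M.qh) :
    M.fc (M.E p, M.bb p * m) = (M.D p.1, M.A * m + ((p.2 : ℕ) : ℤ)) := by
  have h := M.bb_pos p
  simp only [fc]
  rw [if_neg (by
    intro h1
    rcases h1 with h1 | h1
    · exact hq h1
    · exact h1 (Int.mul_emod_right _ _)), Int.mul_ediv_cancel_left _ h.ne']

theorem fc_E' (p : M.Pi) (z : ℤ) (hq : p.1 = M.qh ∨ ¬ M.bb p ∣ z) :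
    M.fc (M.E p, z) = (M.E p, z) := by
  simp only [fc]
  rw [if_pos]
  rcases hq with h | h
  · exact Or.inl h
  · exact Or.inr fun h1 => h (Int.dvd_of_emod_eq_zero h1)

/-- every vertex is of one of the three forms; the chain vertices are `Ch q 0` and
`Ch q (idx p).succ` -/
theorem V_cases (v : M.V) : (∃ q, v = M.Ch q 0) ∨ (∃ q p, v = M.Ch q (M.idx p).succ) ∨
    (∃ q, v = M.D q) ∨ ∃ p, v = M.E p := by
  rcases v with ⟨q, i⟩ | q | p
  · refine Fin.cases ?_ (fun i' => ?_) i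
    · exact Or.inl ⟨q, rfl⟩
    · exact Or.inr (Or.inl ⟨q, M.idx.symm i', by rw [Equiv.apply_symm_apply]⟩)
  · exact Or.inr (Or.inr (Or.inl ⟨q, rfl⟩))
  · exact Or.inr (Or.inr (Or.inr ⟨p, rfl⟩))

end PM

end Pool.Agent.H.MP_9a81ba_al.P
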