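import Pool.Agent.H.MP_9a81ba_al.P.AutoMu

/-!
The permutations `b` and `c` commute with `x`.
-/

namespace Pool.Agent.H.MP_9a81ba_al.P.PM

variable (M : PM)

/-- Proof: `V_cases` and the lemmas `fb_..`; unfold `CC`. -/
theorem CC_fb (s : M.V × ℤ) : M.CC (M.fb s) ↔ M.CC s := by
  obtain ⟨v, z⟩ := s
  rcases M.V_cases v with ⟨q, rfl⟩ | ⟨q, p, rfl⟩ | ⟨q, rfl⟩ | ⟨p, rfl⟩
  · by_cases hq : q = M.qh
    · subst hq
      rw [fb_ch0h]
    · rw [fb_ch0 M q z hq]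
      exact and_iff_right hq
  · by_cases h : p.1 ≠ M.qh ∧ M.tg p = q
    · obtain ⟨h1, rfl⟩ := h
      rw [fb_chs M p z h1]
      show (p.1 ≠ M.qh ∧ M.HZ (M.tg p) (z - M.cc p + M.cc p)) ↔ M.HZ (M.tg p) z
      rw [sub_add_cancel]
      exact and_iff_right h1
    · rw [fb_chs' M p q z h]
  · by_cases hq : q = M.qh
    · subst hq
      rw [fb_Dh]
    · rw [fb_D M q z hq]
      exact (and_iff_right hq).symm
  · by_cases hq : p.1 = M.qh
    · rw [fb_Eh M p z hq]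
    · rw [fb_E M p z hq]
      exact (and_iff_right hq).symm

/-- Proof: chain vertices: clear. `(D q, z)`, `q ≠ qh`, `z = A m + j` (`eq_res`): `fc_D` and
`HZ_step`. `(E p, b m)`, `p.1 ≠ qh`: `fc_E` and `HZ_step`. The other points are fixed. -/
theorem CC_fc (s : M.V × ℤ) : M.CC (M.fc s) ↔ M.CC s := by
  obtain ⟨v, z⟩ := s
  rcases v with ⟨q, i⟩ | q | p
  · exact Iff.rfl
  · by_cases hq : q = M.qh
    · subst hq
      exact iff_of_eq (congrArg M.CC (M.fc_Dh z))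
    · rw [M.eq_res z]
      have h := M.fc_D q (M.res z) (z / (M.A : ℤ)) hq
      rw [show M.fc (Sum.inr (Sum.inl q), M.A * (z / (M.A : ℤ)) + ((M.res z : ℕ) : ℤ)) = _ from h]
      exact and_congr_right fun _ => M.HZ_step q (M.res z) (z / (M.A : ℤ))
  · by_cases hp : p.1 = M.qh ∨ ¬ M.bb p ∣ z
    · exact iff_of_eq (congrArg M.CC (M.fc_E' p z hp))
    · obtain ⟨h1, h2⟩ := not_or.1 hp
      obtain ⟨m, rfl⟩ := not_not.1 h2
      rw [show M.fc (Sum.inr (Sum.inr p), M.bb p * m) = _ from M.fc_E p m h1]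
      exact and_congr_right fun _ => (M.HZ_step p.1 p.2 m).symm

/-- Proof: by cases (`V_cases`): `(Ch q 0, z)`, `q ≠ qh`: both sides are
`mu q z * lam (Ch q 0) ^ z`; `(D q, z)` the same; `(E p, z)`, `p.1 ≠ qh`: definition;
`(Ch (tg p) (idx p).succ, z)`, `p.1 ≠ qh`: `fb` maps it to `(E p, z - cc p)` and
`mf (E p, z - cc p) = mu (tg p) z * lam (Ch (tg p) (idx p).succ) ^ z * bet p`. Fixed points: the
cocycle is `1`. -/
theorem mf_fb (mu : Fin M.nQ → ℤ → M.W) (s : M.V × ℤ) (hs : M.CC s) :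
    M.mf mu s = M.mf mu (M.fb s) * M.kb s := by
  obtain ⟨v, z⟩ := s
  rcases M.V_cases v with ⟨q, rfl⟩ | ⟨q, p, rfl⟩ | ⟨q, rfl⟩ | ⟨p, rfl⟩
  · rw [kb_ch0, mul_one]
    by_cases hq : q = M.qh
    · subst hq
      rw [fb_ch0h]
    · rw [fb_ch0 M q z hq]
      rfl
  · by_cases h : p.1 ≠ M.qh ∧ M.tg p = q
    · obtain ⟨h1, rfl⟩ := h
      rw [fb_chs M p z h1, kb_chs M p z h1]
      show mu (M.tg p) z * M.lam (M.Ch (M.tg p) (M.idx p).succ) ^ z =
        mu (M.tg p) (z - M.cc p + M.cc p) *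
          M.lam (M.Ch (M.tg p) (M.idx p).succ) ^ (z - M.cc p + M.cc p) * M.bet p * (M.bet p)⁻¹
      rw [sub_add_cancel, mul_inv_cancel_right]
    · rw [fb_chs' M p q z h, kb_chs' M p q z h, mul_one]
  · rw [kb_D, mul_one]
    by_cases hq : q = M.qh
    · subst hq
      rw [fb_Dh]
    · rw [fb_D M q z hq]
      rfl
  · by_cases hq : p.1 = M.qh
    · rw [fb_Eh M p z hq, kb_Eh M p z hq, mul_one]
    · rw [fb_E M p z hq, kb_E M p z hq]
      rfl

/-- Proof: by cases. `(Ch q i, z)`: `mu q z * lam (Ch q (i-1)) ^ z * (lam (Ch q (i-1)) ^ (-z) *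
lam (Ch q i) ^ z)`. `(D q, A m + j)`, `q ≠ qh`: this is the recursion `MuSpec` (here `CC s`
gives `HZ q (A m + j)`), with `fc_D`, `kc_D`. `(E p, b m)`, `p.1 ≠ qh`: `fc_E`, `kc_E`, and the
recursion for `q = p.1`, `j = p.2`, `m` (`CC s` gives `HZ (tg p) (b m + c)`, hence
`HZ q (A m + j)` by `HZ_step`). Fixed points: the cocycle is `1`. -/
theorem mf_fc (mu : Fin M.nQ → ℤ → M.W) (hmu : M.MuSpec mu) (s : M.V × ℤ) (hs : M.CC s) :
    M.mf mu s = M.mf mu (M.fc s) * M.kc s := by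
  obtain ⟨v, z⟩ := s
  rcases v with ⟨q, i⟩ | q | p
  · show mu q z * M.lam (M.Ch q i) ^ z = mu q z * M.lam (M.Ch q (i - 1)) ^ z *
      (M.lam (M.Ch q (i - 1)) ^ (-z) * M.lam (M.Ch q i) ^ z)
    rw [zpow_neg, mul_assoc, mul_inv_cancel_left]
  · obtain ⟨hq, hz⟩ : q ≠ M.qh ∧ M.HZ q z := hs
    rw [M.eq_res z] at hz ⊢
    set m := z / (M.A : ℤ) with hm
    set j := M.res z with hj
    rw [show M.fc (Sum.inr (Sum.inl q), M.A * m + ((j : ℕ) : ℤ)) = _ from M.fc_D q j m hq,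
      show M.kc (Sum.inr (Sum.inl q), M.A * m + ((j : ℕ) : ℤ)) = _ from M.kc_D q j m hq]
    have h := hmu.2 q j m hq hz
    show mu q (M.A * m + ((j : ℕ) : ℤ)) * M.lam (M.Ch q 0) ^ (M.A * m + ((j : ℕ) : ℤ)) = _
    rw [h]
    show _ = mu (M.tg (q, j)) (M.bb (q, j) * m + M.cc (q, j)) *
      M.lam (M.Ch (M.tg (q, j)) (M.idx (q, j)).succ) ^ (M.bb (q, j) * m + M.cc (q, j)) *
        M.bet (q, j) * (M.lam (M.E (q, j)) ^ (-m) * M.lam (M.D q) ^ m)
    rw [← mul_assoc]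
  · by_cases hp : p.1 = M.qh ∨ ¬ M.bb p ∣ z
    · rw [show M.fc (Sum.inr (Sum.inr p), z) = _ from M.fc_E' p z hp,
        show M.kc (Sum.inr (Sum.inr p), z) = _ from M.kc_E' p z hp, mul_one]
    · obtain ⟨h1, h2⟩ := not_or.1 hp
      obtain ⟨m, rfl⟩ := not_not.1 h2
      have hz : M.HZ (M.tg p) (M.bb p * m + M.cc p) := hs.2
      have hz2 := (M.HZ_step p.1 p.2 m).1 hz
      have h := hmu.2 p.1 p.2 m h1 hz2
      rw [show M.fc (Sum.inr (Sum.inr p), M.bb p * m) = _ from M.fc_E p m h1,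
        show M.kc (Sum.inr (Sum.inr p), M.bb p * m) = _ from M.kc_E p m h1]
      show _ = mu p.1 (M.A * m + ((p.2 : ℕ) : ℤ)) *
        M.lam (M.Ch p.1 0) ^ (M.A * m + ((p.2 : ℕ) : ℤ)) *
          (M.lam (M.D p.1) ^ (-m) * M.lam (M.E p) ^ m)
      rw [h]
      show mu (M.tg p) (M.bb p * m + M.cc p) *
        M.lam (M.Ch (M.tg p) (M.idx p).succ) ^ (M.bb p * m + M.cc p) * M.bet p =
        mu (M.tg p) (M.bb p * m + M.cc p) *
        M.lam (M.Ch (M.tg p) (M.idx p).succ) ^ (M.bb p * m + M.cc p) * M.bet p *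
          M.lam (M.E p) ^ (-m) * M.lam (M.D p.1) ^ m *
          (M.lam (M.D p.1) ^ (-m) * M.lam (M.E p) ^ m)
      generalize mu (M.tg p) (M.bb p * m + M.cc p) *
        M.lam (M.Ch (M.tg p) (M.idx p).succ) ^ (M.bb p * m + M.cc p) * M.bet p = X
      rw [zpow_neg, zpow_neg]
      group

end Pool.Agent.H.MP_9a81ba_al.P.PM
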