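import Pool.Agent.H.MP_9a81ba_al.Defs

/-!
The right-angled Artin group of the pentagon.
-/

namespace Pool.Agent.H.MP_9a81ba_al.P

/-- the commutator relators: the generator `i` commutes with the generator `i + 1` -/
def c5rel (i : Fin 5) : FreeGroup (Fin 5) := cm (FreeGroup.of i) (FreeGroup.of (i + 1))

/-- the right-angled Artin group of the pentagon; the generators are
`0 = b, 1 = S, 2 = T, 3 = c, 4 = x` -/
abbrev C5 : Type := PresentedGroup (Set.range c5rel)

/-- the generators -/
def gn (i : Fin 5) : C5 := PresentedGroup.of i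

theorem gn_comm (i : Fin 5) : Commute (gn i) (gn (i + 1)) := by
  have h : PresentedGroup.mk (Set.range c5rel) (c5rel i) = 1 :=
    PresentedGroup.one_of_mem ⟨i, rfl⟩
  rw [c5rel, map_cm] at h
  have h2 : cm (gn i) (gn (i + 1)) = 1 := h
  unfold cm at h2
  rw [mul_inv_eq_one, mul_inv_eq_iff_eq_mul] at h2
  exact h2

/-- the universal property -/
def c5lift {G : Type*} [Group G] (f : Fin 5 → G) (h : ∀ i, Commute (f i) (f (i + 1))) : C5 →* G :=
  PresentedGroup.toGroup (f := f) (by
    rintro _ ⟨i, rfl⟩
    have := h i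
    simp only [c5rel, cm, map_mul, map_inv, FreeGroup.lift_apply_of]
    rw [mul_inv_eq_one, mul_inv_eq_iff_eq_mul]
    exact this)

@[simp]
theorem c5lift_gn {G : Type*} [Group G] (f : Fin 5 → G) (h : ∀ i, Commute (f i) (f (i + 1)))
    (i : Fin 5) : c5lift f h (gn i) = f i := by
  unfold c5lift gn
  exact PresentedGroup.toGroup.of _

theorem closure_gn : Subgroup.closure (Set.range gn) = ⊤ :=
  PresentedGroup.closure_range_of _

/-- induction for elements of `C5` -/
theorem c5_induction {p : C5 → Prop} (h1 : p 1) (hg : ∀ i, p (gn i))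
    (hm : ∀ a b, p a → p b → p (a * b)) (hi : ∀ a, p a → p a⁻¹) (a : C5) : p a := by
  have ha : a ∈ Subgroup.closure (Set.range gn) := by rw [closure_gn]; trivial
  induction ha using Subgroup.closure_induction with
  | mem x hx => obtain ⟨i, rfl⟩ := hx; exact hg i
  | one => exact h1
  | mul x y _ _ hx hy => exact hm x y hx hy
  | inv x _ hx => exact hi x hx

end Pool.Agent.H.MP_9a81ba_al.P
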