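import Pool.Agent.H.MP_9a81ba_al.P.AutoCom
import Pool.Agent.H.MP_9a81ba_al.P.AutoX
import Pool.Agent.H.MP_9a81ba_al.P.Pent

/-!
The action of the pentagon group on the points.
-/

namespace Pool.Agent.H.MP_9a81ba_al.P.PM

variable (M : PM)

/-- the function `mu` -/
noncomputable def mu : Fin M.nQ → ℤ → M.W := M.exists_mu.choose

theorem mu_spec : M.MuSpec M.mu := M.exists_mu.choose_spec

/-- the permutation `x` on points -/
noncomputable def qx : Equiv.Perm ((M.V × ℤ) × Bool × M.W) := flipx M.CC (M.mf M.mu) M.yl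

theorem comm_bx : Commute M.qb M.qx :=
  flipx_comm M.CC (M.mf M.mu) M.yl M.pb M.kb M.CC_fb (M.mf_fb M.mu)

theorem comm_cx : Commute M.qc M.qx :=
  flipx_comm M.CC (M.mf M.mu) M.yl M.pc M.kc M.CC_fc (M.mf_fc M.mu M.mu_spec)

/-- the five permutations -/
noncomputable def qq : Fin 5 → Equiv.Perm ((M.V × ℤ) × Bool × M.W) :=
  ![M.qb, M.qS, M.qT, M.qc, M.qx]

theorem qq_comm (i : Fin 5) : Commute (M.qq i) (M.qq (i + 1)) := by
  fin_cases i
  · exact M.comm_bS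
  · exact M.comm_ST
  · exact M.comm_Tc
  · exact M.comm_cx
  · exact M.comm_bx.symm

/-- the action -/
noncomputable def Th : C5 →* Equiv.Perm ((M.V × ℤ) × Bool × M.W) := c5lift M.qq M.qq_comm

theorem Th_b : M.Th (gn 0) = M.qb := c5lift_gn _ _ 0
theorem Th_S : M.Th (gn 1) = M.qS := c5lift_gn _ _ 1
theorem Th_T : M.Th (gn 2) = M.qT := c5lift_gn _ _ 2
theorem Th_c : M.Th (gn 3) = M.qc := c5lift_gn _ _ 3
theorem Th_x : M.Th (gn 4) = M.qx := c5lift_gn _ _ 4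

/-- the element `g` moves the point `s` to `s'` with cocycle `k`, without a flip -/
def Rt (g : C5) (s s' : M.V × ℤ) (k : M.W) : Prop :=
  ∀ (t : Bool) (u : M.W), M.Th g (s, t, u) = (s', t, k * u)

variable {M}

theorem Rt.one (s : M.V × ℤ) : M.Rt 1 s s 1 := by
  intro t u; simp

theorem Rt.mul {g h : C5} {s s' s'' : M.V × ℤ} {k l : M.W} (hg : M.Rt g s' s'' k)
    (hh : M.Rt h s s' l) : M.Rt (g * h) s s'' (k * l) := by
  intro t u
  rw [map_mul, Equiv.Perm.mul_apply, hh, hg, mul_assoc]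

theorem Rt.inv {g : C5} {s s' : M.V × ℤ} {k : M.W} (hg : M.Rt g s s' k) :
    M.Rt g⁻¹ s' s k⁻¹ := by
  intro t u
  rw [map_inv, Equiv.Perm.inv_eq_iff_eq, hg, mul_inv_cancel_left]

variable (M)

theorem Rt_S (v : M.V) (z : ℤ) : M.Rt (gn 1) (v, z) (v, z + 1) 1 := by
  intro t u
  rw [Th_S]; rfl

theorem Rt_T (v : M.V) (z : ℤ) : M.Rt (gn 2) (v, z) (v, z + M.sl v) (M.lam v)⁻¹ := by
  intro t u
  rw [Th_T]; rfl

theorem Rt_b (s : M.V × ℤ) : M.Rt (gn 0) s (M.fb s) (M.kb s) := by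
  intro t u
  rw [Th_b]; rfl

theorem Rt_c (s : M.V × ℤ) : M.Rt (gn 3) s (M.fc s) (M.kc s) := by
  intro t u
  rw [Th_c]; rfl

theorem Rt_x (s : M.V × ℤ) (hs : M.CC s) :
    M.Rt (gn 4) s s ((M.mf M.mu s)⁻¹ * M.yl * M.mf M.mu s) := by
  intro t u
  rw [Th_x]
  exact flipx_pos _ _ _ _ _ _ hs

theorem x_flip (s : M.V × ℤ) (hs : ¬ M.CC s) (t : Bool) (u : M.W) :
    M.Th (gn 4) (s, t, u) = (s, !t, u) := by
  rw [Th_x]
  exact flipx_neg _ _ _ _ _ _ hs

theorem Rt_S_pow (v : M.V) (n : ℕ) (z : ℤ) : M.Rt (gn 1 ^ n) (v, z) (v, z + n) 1 := by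
  induction n with
  | zero => simpa using Rt.one (M := M) (v, z)
  | succ n ih =>
    have h := (M.Rt_S v (z + n)).mul ih
    rw [pow_succ']
    have e : z + ((n + 1 : ℕ) : ℤ) = z + n + 1 := by push_cast; ring
    rw [e]
    simpa using h

theorem Rt_S_zpow (v : M.V) (z n : ℤ) : M.Rt (gn 1 ^ n) (v, z) (v, z + n) 1 := by
  obtain ⟨k, rfl | rfl⟩ := n.eq_nat_or_neg
  · rw [zpow_natCast]
    exact M.Rt_S_pow v k z
  · rw [zpow_neg, zpow_natCast]
    have h := (M.Rt_S_pow v k (z + -(k : ℤ))).inv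
    simpa using h

end Pool.Agent.H.MP_9a81ba_al.P.PM
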