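import Pool.Agent.H.MP_9a81ba_al.P.AutoCoc

/-!
The function `m` on the invariant set.
-/

namespace Pool.Agent.H.MP_9a81ba_al.P.PM

variable (M : PM)

/-- the recursion for `mu` -/
def MuSpec (mu : Fin M.nQ → ℤ → M.W) : Prop :=
  mu M.qh 1 = (M.lam (M.Ch M.qh 0))⁻¹ ∧
    ∀ (q : Fin M.nQ) (j : Fin M.A) (m : ℤ), q ≠ M.qh → M.HZ q (M.A * m + ((j : ℕ) : ℤ)) →
      mu q (M.A * m + ((j : ℕ) : ℤ)) * M.lam (M.Ch q 0) ^ (M.A * m + ((j : ℕ) : ℤ)) =
        mu (M.tgt q j) (M.b q j * m + M.c q j) *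
          M.lam (M.Ch (M.tgt q j) (M.idx (q, j)).succ) ^ ((M.b q j : ℤ) * m + M.c q j) *
          M.bet (q, j) * M.lam (M.E (q, j)) ^ (-m) * M.lam (M.D q) ^ m

/-- one step of the recursion -/
def autoMu_F (s : Fin M.nQ × ℤ) (w : M.W) : M.W :=
  w * M.lam (M.Ch (M.tgt s.1 (M.res s.2)) (M.idx (s.1, M.res s.2)).succ) ^
      ((M.b s.1 (M.res s.2) : ℤ) * (s.2 / (M.A : ℤ)) + M.c s.1 (M.res s.2)) *
    M.bet (s.1, M.res s.2) * M.lam (M.E (s.1, M.res s.2)) ^ (-(s.2 / (M.A : ℤ))) *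
    M.lam (M.D s.1) ^ (s.2 / (M.A : ℤ)) * M.lam (M.Ch s.1 0) ^ (-s.2)

/-- the values computed from the first steps of the run -/
def autoMu_nu : ℕ → Fin M.nQ × ℤ → M.W
  | 0, _ => (M.lam (M.Ch M.qh 0))⁻¹
  | (t + 1), s => if s.1 = M.qh then (M.lam (M.Ch M.qh 0))⁻¹
      else M.autoMu_F s (autoMu_nu t (M.stepZ s))

theorem autoMu_nu_succ (t : ℕ) : ∀ s, M.stepZ^[t] s = (M.qh, 1) →
    M.autoMu_nu (t + 1) s = M.autoMu_nu t s := by
  induction t with
  | zero =>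
    intro s hs
    have h : s.1 = M.qh := by
      rw [Function.iterate_zero, id_eq] at hs
      rw [hs]
    simp only [autoMu_nu]
    rw [if_pos h]
  | succ t ih =>
    intro s hs
    rw [Function.iterate_succ_apply] at hs
    have h := ih (M.stepZ s) hs
    show (if s.1 = M.qh then (M.lam (M.Ch M.qh 0))⁻¹
      else M.autoMu_F s (M.autoMu_nu (t + 1) (M.stepZ s))) =
      (if s.1 = M.qh then (M.lam (M.Ch M.qh 0))⁻¹
      else M.autoMu_F s (M.autoMu_nu t (M.stepZ s)))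
    rw [h]

theorem autoMu_iter (t k : ℕ) (s : Fin M.nQ × ℤ) (hs : M.stepZ^[t] s = (M.qh, 1)) :
    M.stepZ^[t + k] s = (M.qh, 1) := by
  induction k with
  | zero => exact hs
  | succ k ih =>
    rw [← add_assoc, Function.iterate_succ_apply', ih]
    exact M.stepZ_qh 1

theorem autoMu_nu_add (t k : ℕ) (s : Fin M.nQ × ℤ) (hs : M.stepZ^[t] s = (M.qh, 1)) :
    M.autoMu_nu (t + k) s = M.autoMu_nu t s := by
  induction k with
  | zero => rfl
  | succ k ih =>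
    rw [← add_assoc, M.autoMu_nu_succ (t + k) s (M.autoMu_iter t k s hs), ih]

theorem autoMu_nu_eq (t t' : ℕ) (s : Fin M.nQ × ℤ) (hs : M.stepZ^[t] s = (M.qh, 1))
    (hs' : M.stepZ^[t'] s = (M.qh, 1)) : M.autoMu_nu t s = M.autoMu_nu t' s := by
  rw [← M.autoMu_nu_add t t' s hs, ← M.autoMu_nu_add t' t s hs', add_comm]

/-- The function `mu` exists (recursion along the run).

Proof: define `F : Fin nQ × ℤ → W → W`,
`F (q, z) w = w * lam (Ch q' (idx (q, j)).succ) ^ z' * bet (q, j) * lam (E (q, j)) ^ (-m) *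
lam (D q) ^ m * lam (Ch q 0) ^ (-z)` where `j = res z`, `m = z / A`, `q' = tgt q j`,
`z' = b q j * m + c q j`, so that `(q', z') = stepZ (q, z)`; and
`nu : ℕ → Fin nQ × ℤ → W` by `nu 0 s = (lam (Ch qh 0))⁻¹`,
`nu (t + 1) s = if s.1 = qh then (lam (Ch qh 0))⁻¹ else F s (nu t (stepZ s))`.
Claim: if `stepZ^[t] s = (qh, 1)` then `nu (t + 1) s = nu t s` (induction on `t`, all `s`; if
`s.1 = qh` both sides are `(lam (Ch qh 0))⁻¹`), hence (again by the claim for larger times, since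
`stepZ^[t'] s = (qh, 1)` for all `t' ≥ t` by `stepZ_qh`) `nu t' s = nu t s` for `t' ≥ t`.
Let `mu q z = nu t (q, z)` where `t` is a number with `stepZ^[t] (q, z) = (qh, 1)` if there
is one (otherwise `1`); the value does not depend on the choice of `t`. For `q ≠ qh` the
number `t` is positive, and `t - 1` is admissible for `stepZ (q, z)`. -/
theorem exists_mu : ∃ mu : Fin M.nQ → ℤ → M.W, M.MuSpec mu := by
  classical
  let mu : Fin M.nQ → ℤ → M.W := fun q z =>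
    if h : M.HZ q z then M.autoMu_nu h.choose (q, z) else 1
  have hmu : ∀ (q : Fin M.nQ) (z : ℤ) (t : ℕ), M.stepZ^[t] (q, z) = (M.qh, 1) →
      mu q z = M.autoMu_nu t (q, z) := by
    intro q z t ht
    have h : M.HZ q z := ⟨t, ht⟩
    show (if h : M.HZ q z then M.autoMu_nu h.choose (q, z) else 1) = M.autoMu_nu t (q, z)
    rw [dif_pos h]
    exact M.autoMu_nu_eq _ _ _ h.choose_spec ht
  refine ⟨mu, hmu M.qh 1 0 rfl, ?_⟩
  intro q j m hq hz
  obtain ⟨t, ht⟩ := hz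
  cases t with
  | zero =>
    rw [Function.iterate_zero, id_eq] at ht
    exact absurd (congrArg Prod.fst ht) hq
  | succ t =>
    have h1 := hmu q _ (t + 1) ht
    rw [Function.iterate_succ_apply, M.stepZ_eq] at ht
    have h2 := hmu (M.tgt q j) _ t ht
    have h3 : M.autoMu_nu (t + 1) (q, (M.A : ℤ) * m + ((j : ℕ) : ℤ)) =
        M.autoMu_F (q, (M.A : ℤ) * m + ((j : ℕ) : ℤ))
          (M.autoMu_nu t (M.stepZ (q, (M.A : ℤ) * m + ((j : ℕ) : ℤ)))) := by
      show (if q = M.qh then (M.lam (M.Ch M.qh 0))⁻¹ else _) = _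
      rw [if_neg hq]
    rw [h1, h3, M.stepZ_eq, ← h2]
    simp only [autoMu_F, M.res_eq, M.div_eq]
    rw [mul_assoc _ (M.lam (M.Ch q 0) ^ (-(_ : ℤ))), ← zpow_add, neg_add_cancel, zpow_zero, mul_one]

/-- the function `m` -/
def mf (mu : Fin M.nQ → ℤ → M.W) : M.V × ℤ → M.W
  | (Sum.inl (q, i), z) => mu q z * M.lam (M.Ch q i) ^ z
  | (Sum.inr (Sum.inl q), z) => mu q z * M.lam (M.Ch q 0) ^ z
  | (Sum.inr (Sum.inr p), z) =>
      mu (M.tg p) (z + M.cc p) * M.lam (M.Ch (M.tg p) (M.idx p).succ) ^ (z + M.cc p) * M.bet p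

end Pool.Agent.H.MP_9a81ba_al.P.PM
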