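import Pool.Agent.H.MP_9a81ba_al.P.AutoDef

/-!
The underlying permutations: involution, inverse, shifts.
-/

namespace Pool.Agent.H.MP_9a81ba_al.P.PM

variable (M : PM)

theorem autoPerm_fcfc (v : Fin M.nQ ⊕ M.Pi) (z : ℤ) :
    M.fc (M.fc (Sum.inr v, z)) = (Sum.inr v, z) := by
  rcases v with q | p
  · show M.fc (M.fc (M.D q, z)) = (M.D q, z)
    by_cases hq : q = M.qh
    · subst hq
      rw [fc_Dh, fc_Dh]
    · rw [M.eq_res z, fc_D M q _ _ hq, fc_E M (q, M.res z) _ hq]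
  · show M.fc (M.fc (M.E p, z)) = (M.E p, z)
    by_cases h : p.1 = M.qh ∨ ¬ M.bb p ∣ z
    · rw [fc_E' M p z h, fc_E' M p z h]
    · push Not at h
      obtain ⟨h1, m, rfl⟩ := h
      rw [fc_E M p m h1, fc_D M p.1 p.2 m h1]

theorem autoPerm_inr (v : Fin M.nQ ⊕ M.Pi) (z : ℤ) :
    ∃ v' z', M.fc (Sum.inr v, z) = (Sum.inr v', z') := by
  rcases v with q | p
  · show ∃ v' z', M.fc (M.D q, z) = (Sum.inr v', z')
    by_cases hq : q = M.qh
    · subst hq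
      exact ⟨_, _, fc_Dh M z⟩
    · rw [M.eq_res z]
      exact ⟨_, _, fc_D M q _ _ hq⟩
  · show ∃ v' z', M.fc (M.E p, z) = (Sum.inr v', z')
    by_cases h : p.1 = M.qh ∨ ¬ M.bb p ∣ z
    · exact ⟨_, _, fc_E' M p z h⟩
    · push Not at h
      obtain ⟨h1, m, rfl⟩ := h
      exact ⟨_, _, fc_E M p m h1⟩

/-- Proof: by `V_cases`, with the lemmas `fb_ch0`, `fb_ch0h`, `fb_chs`, `fb_chs'`, `fb_D`, `fb_Dh`,
`fb_E`, `fb_Eh` (in the case `Ch q (idx p).succ` distinguish whether `p.1 ≠ qh ∧ tg p = q`). -/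
theorem fb_fb (s : M.V × ℤ) : M.fb (M.fb s) = s := by
  obtain ⟨v, z⟩ := s
  rcases M.V_cases v with ⟨q, rfl⟩ | ⟨q, p, rfl⟩ | ⟨q, rfl⟩ | ⟨p, rfl⟩
  · by_cases hq : q = M.qh
    · subst hq
      rw [fb_ch0h, fb_ch0h]
    · rw [fb_ch0 M q z hq, fb_D M q z hq]
  · by_cases h : p.1 ≠ M.qh ∧ M.tg p = q
    · obtain ⟨h1, rfl⟩ := h
      rw [fb_chs M p z h1, fb_E M p _ h1, sub_add_cancel]
    · rw [fb_chs' M p q z h, fb_chs' M p q z h]
  · by_cases hq : q = M.qh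
    · subst hq
      rw [fb_Dh, fb_Dh]
    · rw [fb_D M q z hq, fb_ch0 M q z hq]
  · by_cases hq : p.1 = M.qh
    · rw [fb_Eh M p z hq, fb_Eh M p z hq]
    · rw [fb_E M p z hq, fb_chs M p _ hq, add_sub_cancel_right]

/-- Proof: by cases on the vertex. Chain: `i - 1 + 1 = i`. `D q`, `q ≠ qh`: write
`z = A m + j` (`eq_res`), use `fc_D` and `fc_E`. `E p`: if `z = bb p * m`, use `fc_E` and
`fc_D`; otherwise `fc_E'`. -/
theorem gc_fc (s : M.V × ℤ) : M.gc (M.fc s) = s := by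
  obtain ⟨⟨q, i⟩ | v, z⟩ := s
  · show ((M.Ch q (i - 1 + 1), z) : M.V × ℤ) = (M.Ch q i, z)
    rw [sub_add_cancel]
  · obtain ⟨v', z', h⟩ := M.autoPerm_inr v z
    have h1 := M.autoPerm_fcfc v z
    rw [h] at h1 ⊢
    exact h1

/-- Proof: as `gc_fc`. -/
theorem fc_gc (s : M.V × ℤ) : M.fc (M.gc s) = s := by
  obtain ⟨⟨q, i⟩ | v, z⟩ := s
  · show ((M.Ch q (i + 1 - 1), z) : M.V × ℤ) = (M.Ch q i, z)
    rw [add_sub_cancel_right]
  · exact M.autoPerm_fcfc v z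

/-- `b` commutes with `S`. -/
theorem fb_shift (v : M.V) (z : ℤ) :
    M.fb (v, z + 1) = ((M.fb (v, z)).1, (M.fb (v, z)).2 + 1) := by
  rcases M.V_cases v with ⟨q, rfl⟩ | ⟨q, p, rfl⟩ | ⟨q, rfl⟩ | ⟨p, rfl⟩
  · by_cases hq : q = M.qh
    · subst hq
      rw [fb_ch0h, fb_ch0h]
    · rw [fb_ch0 M q z hq, fb_ch0 M q (z + 1) hq]
  · by_cases h : p.1 ≠ M.qh ∧ M.tg p = q
    · obtain ⟨h1, rfl⟩ := h
      rw [fb_chs M p z h1, fb_chs M p (z + 1) h1]
      exact Prod.ext rfl (by show z + 1 - M.cc p = z - M.cc p + 1; ring)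
    · rw [fb_chs' M p q z h, fb_chs' M p q (z + 1) h]
  · by_cases hq : q = M.qh
    · subst hq
      rw [fb_Dh, fb_Dh]
    · rw [fb_D M q z hq, fb_D M q (z + 1) hq]
  · by_cases hq : p.1 = M.qh
    · rw [fb_Eh M p z hq, fb_Eh M p (z + 1) hq]
    · rw [fb_E M p z hq, fb_E M p (z + 1) hq]
      exact Prod.ext rfl (by show z + 1 + M.cc p = z + M.cc p + 1; ring)

/-- `c` commutes with `T`. Proof: chain: both sides are `(Ch q (i - 1), z + 1)`. `D q`,
`q ≠ qh`, `z = A m + j`: `(D q, A (m + 1) + j) ↦ (E (q, j), b (m + 1))`. `E p` with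
`z = b m`: `(E p, b (m + 1)) ↦ (D p.1, A (m + 1) + j)`; if `b` does not divide `z` it does
not divide `z + b`. -/
theorem fc_shift (v : M.V) (z : ℤ) :
    M.fc (v, z + M.sl v) = ((M.fc (v, z)).1, (M.fc (v, z)).2 + M.sl (M.fc (v, z)).1) := by
  rcases v with ⟨q, i⟩ | q | p
  · rfl
  · show M.fc (M.D q, z + (M.A : ℤ)) =
      ((M.fc (M.D q, z)).1, (M.fc (M.D q, z)).2 + M.sl (M.fc (M.D q, z)).1)
    by_cases hq : q = M.qh
    · subst hq
      rw [fc_Dh, fc_Dh]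
      rfl
    · have hz := M.eq_res z
      have e1 : z + (M.A : ℤ) = M.A * (z / (M.A : ℤ) + 1) + ((M.res z : ℕ) : ℤ) := by
        conv_lhs => rw [hz]
        ring
      rw [e1, fc_D M q _ _ hq]
      have e2 : M.fc (M.D q, z) = (M.E (q, M.res z), M.bb (q, M.res z) * (z / (M.A : ℤ))) := by
        conv_lhs => rw [hz]
        exact fc_D M q _ _ hq
      rw [e2]
      refine Prod.ext rfl ?_
      show M.bb (q, M.res z) * (z / (M.A : ℤ) + 1) =
        M.bb (q, M.res z) * (z / (M.A : ℤ)) + M.bb (q, M.res z)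
      ring
  · show M.fc (M.E p, z + M.bb p) =
      ((M.fc (M.E p, z)).1, (M.fc (M.E p, z)).2 + M.sl (M.fc (M.E p, z)).1)
    by_cases h : p.1 = M.qh ∨ ¬ M.bb p ∣ z
    · have h' : p.1 = M.qh ∨ ¬ M.bb p ∣ z + M.bb p := by
        rcases h with h | h
        · exact Or.inl h
        · refine Or.inr fun h1 => h ?_
          have := dvd_sub h1 (dvd_refl (M.bb p))
          rwa [add_sub_cancel_right] at this
      rw [fc_E' M p z h, fc_E' M p _ h']
      rfl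
    · push Not at h
      obtain ⟨h1, m, rfl⟩ := h
      have e1 : M.bb p * m + M.bb p = M.bb p * (m + 1) := by ring
      rw [e1, fc_E M p (m + 1) h1, fc_E M p m h1]
      refine Prod.ext rfl ?_
      show (M.A : ℤ) * (m + 1) + ((p.2 : ℕ) : ℤ) = (M.A : ℤ) * m + ((p.2 : ℕ) : ℤ) + (M.A : ℤ)
      ring

/-- the permutation `S` -/
def pS : Equiv.Perm (M.V × ℤ) where
  toFun s := (s.1, s.2 + 1)
  invFun s := (s.1, s.2 - 1)
  left_inv s := by simp
  right_inv s := by simp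

/-- the permutation `T` -/
def pT : Equiv.Perm (M.V × ℤ) where
  toFun s := (s.1, s.2 + M.sl s.1)
  invFun s := (s.1, s.2 - M.sl s.1)
  left_inv s := by simp
  right_inv s := by simp

/-- the permutation `b` -/
def pb : Equiv.Perm (M.V × ℤ) where
  toFun := M.fb
  invFun := M.fb
  left_inv := M.fb_fb
  right_inv := M.fb_fb

/-- the permutation `c` -/
def pc : Equiv.Perm (M.V × ℤ) where
  toFun := M.fc
  invFun := M.gc
  left_inv := M.gc_fc
  right_inv := M.fc_gc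

end Pool.Agent.H.MP_9a81ba_al.P.PM
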