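import Pool.Agent.H.MP_9a81ba_al.P.BlkW

/-!
The action of the powers of `cb ε`.
-/

namespace Pool.Agent.H.MP_9a81ba_al.P

theorem blkS_add {l : Bool} {n d t N : ℤ} {L : List (Bool × Bool)}
    (h : scan false l n L = some t) (ht : |t| ≤ N) (hd : |d| ≤ 1) :
    ∃ t', scan false l (n + d) L = some t' ∧ |t'| ≤ N + 1 := by
  obtain ⟨t', h1, h2⟩ := scan_add false L l n d t h
  refine ⟨t', h1, ?_⟩
  rcases h2 with h2 | h2
  · rw [h2]
    linarith
  · rw [h2]
    exact (abs_add_le t d).trans (by linarith)

theorem blkS_blk (ε : Bool) (n : ℤ) (L : List (Bool × Bool)) :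
    scan false false n (blk ε ++ L) = scan false false (sg (!ε)) L := by
  simp [blk, scan]

theorem blkS_blk' (ε : Bool) (n : ℤ) (L : List (Bool × Bool)) :
    scan false false n (blk' ε ++ L) = scan false false 0 L := by
  simp [blk', scan]

theorem blkS_end (ε : Bool) (n : ℤ) (L : List (Bool × Bool)) :
    scan false false n ([(false, true), (true, ε), (false, false)] ++ L) =
      scan false false 0 L := by
  simp [scan]

theorem blkS_end' (ε : Bool) (n : ℤ) (L : List (Bool × Bool)) :
    scan false false n ([(true, ε), (false, true), (true, !ε)] ++ L) =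
      scan false true (sg (!ε)) L := by
  simp [scan]

theorem blkS_pos (ε : Bool) (m : ℕ) : ∀ (n : ℤ) (L : List (Bool × Bool)),
    scan false false n ((List.replicate m (blk ε)).flatten ++
      [(false, true), (true, ε), (false, false)] ++ L) = scan false false 0 L := by
  induction m with
  | zero =>
    intro n L
    rw [List.replicate_zero, List.flatten_nil, List.nil_append, blkS_end]
  | succ m ih =>
    intro n L
    rw [List.replicate_succ, List.flatten_cons, List.append_assoc, List.append_assoc, blkS_blk,
      ← List.append_assoc, ih]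

theorem blkS_neg (ε : Bool) (m : ℕ) : ∀ (n : ℤ) (L : List (Bool × Bool)),
    scan false false n ((List.replicate m (blk' ε)).flatten ++
      [(true, ε), (false, true), (true, !ε)] ++ L) = scan false true (sg (!ε)) L := by
  induction m with
  | zero =>
    intro n L
    rw [List.replicate_zero, List.flatten_nil, List.nil_append, blkS_end']
  | succ m ih =>
    intro n L
    rw [List.replicate_succ, List.flatten_cons, List.append_assoc, List.append_assoc, blkS_blk',
      ← List.append_assoc, ih]

/-- Proof: `k > 0`: `word_pos` with `k - 1`: the word starts with `[p, q^ε, p⁻¹]` (look at the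
first block if `k - 1 > 0`). `k < 0`: `word_neg`: the word starts with `[q^ε, p]`. -/
theorem cb_PP (ε : Bool) (k : ℤ) (hk : k ≠ 0) (y : F2) (h : DD ε y) : PP ε (cb ε ^ k * y) := by
  rcases k with k | k
  · rcases k with _ | m
    · exact absurd rfl hk
    · left
      obtain ⟨L, hL, _⟩ := word_pos ε m y h
      have e : cb ε ^ (Int.ofNat (m + 1)) * y = cb ε ^ (m + 1) * y := by
        rw [Int.ofNat_eq_natCast, zpow_natCast]
      rw [e]
      unfold St
      rw [hL]
      rcases m with _ | m
      · exact ⟨L, by simp⟩
      · rw [List.replicate_succ, List.flatten_cons]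
        exact ⟨(true, !ε) :: ((List.replicate m (blk ε)).flatten ++
          [(false, true), (true, ε), (false, false)] ++ L), by simp [blk]⟩
  · right
    obtain ⟨L, hL, _⟩ := word_neg ε k y h
    have e : cb ε ^ (Int.negSucc k) * y = (cb ε)⁻¹ ^ (k + 1) * y := by
      rw [zpow_negSucc, inv_pow]
    rw [e]
    unfold St
    rw [hL]
    rcases k with _ | m
    · exact ⟨(true, !ε) :: L, by simp⟩
    · rw [List.replicate_succ, List.flatten_cons]
      exact ⟨(true, !ε) :: (false, false) :: ((List.replicate m (blk' ε)).flatten ++
        [(true, ε), (false, true), (true, !ε)] ++ L), by simp [blk']⟩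

/-- Proof: for all `n`, `scan false false n (blk ε ++ L) = scan false false (sg (!ε)) L` and
`scan false false n (blk' ε ++ L) = scan false false 0 L`; and
`scan false false n ([p, q^ε, p⁻¹] ++ L) = scan false false 0 L`,
`scan false false n ([q^ε, p, q^{-ε}] ++ L) = scan false true (sg (!ε)) L`. With `word_pos` and
`word_neg`: `k > 0`, `y.toWord = (true, ε) :: L`: new scan `scan false false 0 L`, old scan
`scan false false (sg ε) L`; `L = (true, !ε) :: y.toWord`: new scan
`scan false false (sg (!ε)) y.toWord`. `k < 0`, `y.toWord = (false, true) :: L`: new scan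
`scan false true (sg (!ε)) L`, old scan `scan false true 0 L`; `L = (false, false) :: y.toWord`:
new scan `scan false false 0 y.toWord` (here the letters are `[q^ε, p, q^{-ε}, p⁻¹]`, which is
`blk' ε`). In all cases the initial counts differ by at most `1`, and `scan_add` gives that the
values differ by at most `1`. `k = 0` is trivial. -/
theorem cb_Sm (ε : Bool) (k : ℤ) (n : ℤ) (y : F2) (h : DD ε y) (hs : Sm false false n y) :
    Sm false false (n + 1) (cb ε ^ k * y) := by
  rcases k with k | k
  · rcases k with _ | m
    · have e : cb ε ^ (Int.ofNat 0) * y = y := by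
        rw [Int.ofNat_eq_natCast, zpow_natCast, pow_zero, one_mul]
      rw [e]
      exact hs.mono (by linarith)
    · obtain ⟨L, hL, hy⟩ := word_pos ε m y h
      have e : cb ε ^ (Int.ofNat (m + 1)) * y = cb ε ^ (m + 1) * y := by
        rw [Int.ofNat_eq_natCast, zpow_natCast]
      rw [e]
      obtain ⟨t, ht, htn⟩ := hs
      unfold SC at ht
      unfold Sm SC
      rw [hL, blkS_pos]
      rcases hy with hy | hy
      · rw [hy] at ht
        have h1 : scan false false (sg ε) L = some t := by
          simpa [scan] using ht
        have h2 := blkS_add (d := -sg ε) h1 htn (by rw [abs_neg, abs_sg])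
        rw [add_neg_cancel] at h2
        exact h2
      · have h2 := blkS_add (d := sg (!ε)) ht htn (by rw [abs_sg])
        rw [hy]
        simpa [scan] using h2
  · obtain ⟨L, hL, hy⟩ := word_neg ε k y h
    have e : cb ε ^ (Int.negSucc k) * y = (cb ε)⁻¹ ^ (k + 1) * y := by
      rw [zpow_negSucc, inv_pow]
    rw [e]
    obtain ⟨t, ht, htn⟩ := hs
    unfold SC at ht
    unfold Sm SC
    rw [hL, blkS_neg]
    rcases hy with hy | hy
    · rw [hy] at ht
      have h1 : scan false true 0 L = some t := by
        simpa [scan] using ht
      have h2 := blkS_add (d := sg (!ε)) h1 htn (by rw [abs_sg])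
      rw [zero_add] at h2
      exact h2
    · rw [hy]
      refine ⟨t, ?_, by linarith⟩
      simpa [scan] using ht

end Pool.Agent.H.MP_9a81ba_al.P
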