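import Pool.Agent.H.MP_9a81ba_al.P.SetsDef

/-!
The reduced words of `cb ε ^ k * y`.
-/

namespace Pool.Agent.H.MP_9a81ba_al.P

/-- the word of `cb ε` -/
def blk (ε : Bool) : List (Bool × Bool) :=
  [(false, true), (true, ε), (false, false), (true, !ε)]

/-- the word of `(cb ε)⁻¹` -/
def blk' (ε : Bool) : List (Bool × Bool) :=
  [(true, ε), (false, true), (true, !ε), (false, false)]

theorem blkW_val (ε : Bool) : cb ε = FreeGroup.mk (blk ε) := by
  cases ε <;> rfl

theorem blkW_val' (ε : Bool) : (cb ε)⁻¹ = FreeGroup.mk (blk' ε) := by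
  cases ε <;> rfl

theorem blkW_pow (B : List (Bool × Bool)) (k : ℕ) :
    (FreeGroup.mk B : F2) ^ k = FreeGroup.mk (List.replicate k B).flatten := by
  induction k with
  | zero => rfl
  | succ k ih =>
    rw [pow_succ', ih, FreeGroup.mul_mk, List.replicate_succ, List.flatten_cons]

theorem blkW_rep (B : List (Bool × Bool)) (a : Bool × Bool)
    (hB : ∀ X, FreeGroup.IsReduced (a :: X) → FreeGroup.IsReduced (B ++ a :: X))
    (hB' : ∃ B', B = a :: B') (k : ℕ) (X : List (Bool × Bool))
    (hX : FreeGroup.IsReduced (a :: X)) :
    FreeGroup.IsReduced ((List.replicate k B).flatten ++ a :: X) := by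
  induction k with
  | zero => exact hX
  | succ k ih =>
    obtain ⟨B', hB'⟩ := hB'
    rw [List.replicate_succ, List.flatten_cons, List.append_assoc]
    have h1 : ∃ X', (List.replicate k B).flatten ++ a :: X = a :: X' := by
      cases k with
      | zero => exact ⟨X, rfl⟩
      | succ k =>
        rw [List.replicate_succ, List.flatten_cons, hB']
        exact ⟨_, rfl⟩
    obtain ⟨X', hX'⟩ := h1
    rw [hX'] at ih ⊢
    exact hB X' ih

theorem blkW_word (L : List (Bool × Bool)) (h : FreeGroup.IsReduced L) :
    (FreeGroup.mk L : F2).toWord = L := by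
  rw [FreeGroup.toWord_mk, h.reduce_eq]

theorem blkW_mul (B : List (Bool × Bool)) (k : ℕ) (y : F2) :
    (FreeGroup.mk B : F2) ^ (k + 1) * y =
      FreeGroup.mk ((List.replicate k B).flatten ++ (B ++ y.toWord)) := by
  conv_lhs => rw [← FreeGroup.mk_toWord (x := y)]
  rw [pow_succ, blkW_pow, FreeGroup.mul_mk, FreeGroup.mul_mk, List.append_assoc]

theorem blkW_cons (a b : Bool × Bool) (L : List (Bool × Bool)) :
    FreeGroup.IsReduced (a :: b :: L) ↔ (a.1 = b.1 → a.2 = b.2) ∧ FreeGroup.IsReduced (b :: L) := by
  unfold FreeGroup.IsReduced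
  rw [List.isChain_cons_cons]

theorem blkW_tail {a : Bool × Bool} {L : List (Bool × Bool)} (h : FreeGroup.IsReduced (a :: L)) :
    FreeGroup.IsReduced L := by
  cases L with
  | nil => exact List.isChain_nil
  | cons b L => exact ((blkW_cons a b L).1 h).2

/-- cancellation in the middle -/
theorem blkW_cancel (A : List (Bool × Bool)) (g s : Bool) (L : List (Bool × Bool)) :
    (FreeGroup.mk (A ++ (g, !s) :: (g, s) :: L) : F2) = FreeGroup.mk (A ++ L) := by
  have h := FreeGroup.Red.Step.not (L₁ := A) (L₂ := L) (x := g) (b := !s)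
  rw [Bool.not_not] at h
  exact Quot.sound h

/-- Proof: `cb ε = mk (blk ε)`. If the word of `y` is `(true, ε) :: L` then `L` does not start
with `(false, true)` (`DD`) nor with `(true, !ε)` (reduced), and the word
`blk^k ++ [p, q^ε, p⁻¹] ++ L` is reduced with value `cb ε ^ (k+1) * y`. Otherwise
`blk^(k+1) ++ y.toWord` is reduced (`L = (true, !ε) :: y.toWord`). The word of a reduced list `L` is
`L`: `FreeGroup.toWord_mk`, `FreeGroup.IsReduced.reduce_eq`. -/
theorem word_pos (ε : Bool) (k : ℕ) (y : F2) (h : DD ε y) : ∃ L : List (Bool × Bool),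
    (cb ε ^ (k + 1) * y).toWord = (List.replicate k (blk ε)).flatten ++
      [(false, true), (true, ε), (false, false)] ++ L ∧
    (y.toWord = (true, ε) :: L ∨ L = (true, !ε) :: y.toWord) := by
  have hred : FreeGroup.IsReduced y.toWord := FreeGroup.isReduced_toWord
  have hB : ∀ X, FreeGroup.IsReduced ((false, true) :: X) →
      FreeGroup.IsReduced (blk ε ++ (false, true) :: X) := by
    intro X hX
    show FreeGroup.IsReduced ((false, true) :: (true, ε) :: (false, false) :: (true, !ε) ::
      (false, true) :: X)
    simp only [blkW_cons]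
    exact ⟨by simp, by simp, by simp, by simp, hX⟩
  rw [blkW_val, blkW_mul]
  by_cases hw : ∃ L, y.toWord = (true, ε) :: L
  · obtain ⟨L, hL⟩ := hw
    refine ⟨L, ?_, Or.inl hL⟩
    have e1 : (List.replicate k (blk ε)).flatten ++ (blk ε ++ y.toWord) =
        ((List.replicate k (blk ε)).flatten ++ [(false, true), (true, ε), (false, false)]) ++
          (true, !ε) :: (true, ε) :: L := by
      rw [hL, List.append_assoc]
      rfl
    rw [e1, blkW_cancel]
    apply blkW_word
    rw [List.append_assoc]
    refine blkW_rep (blk ε) (false, true) hB ⟨_, rfl⟩ k _ ?_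
    show FreeGroup.IsReduced ((false, true) :: (true, ε) :: (false, false) :: L)
    rw [hL] at hred
    have hL' := blkW_tail hred
    simp only [blkW_cons]
    refine ⟨by simp, by simp, ?_⟩
    cases L with
    | nil => exact List.isChain_singleton _
    | cons b L =>
      rw [blkW_cons]
      refine ⟨?_, hL'⟩
      obtain ⟨b1, b2⟩ := b
      intro h1
      have h1' : false = b1 := h1
      subst h1'
      show false = b2
      cases b2 with
      | false => rfl
      | true =>
        exfalso
        apply h.1
        show [(true, ε), (false, true)] <+: y.toWord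
        rw [hL]
        exact ⟨L, rfl⟩
  · refine ⟨(true, !ε) :: y.toWord, ?_, Or.inr rfl⟩
    have e1 : (List.replicate k (blk ε)).flatten ++ (blk ε ++ y.toWord) =
        ((List.replicate k (blk ε)).flatten ++ [(false, true), (true, ε), (false, false)]) ++
          (true, !ε) :: y.toWord := by
      rw [List.append_assoc]
      rfl
    rw [e1]
    apply blkW_word
    rw [List.append_assoc]
    refine blkW_rep (blk ε) (false, true) hB ⟨_, rfl⟩ k _ ?_
    show FreeGroup.IsReduced ((false, true) :: (true, ε) :: (false, false) :: (true, !ε) ::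
      y.toWord)
    simp only [blkW_cons]
    refine ⟨by simp, by simp, by simp, ?_⟩
    cases hy : y.toWord with
    | nil => exact List.isChain_singleton _
    | cons b L =>
      rw [hy] at hred
      rw [blkW_cons]
      refine ⟨?_, hred⟩
      obtain ⟨b1, b2⟩ := b
      intro h1
      have h1' : true = b1 := h1
      subst h1'
      show (!ε) = b2
      by_contra hne
      apply hw
      refine ⟨L, ?_⟩
      rw [hy]
      have h2 : b2 = ε := by
        cases ε <;> cases b2 <;> simp_all
      rw [h2]

/-- Proof: as `word_pos`: `(cb ε)⁻¹ = mk (blk' ε)`. If the word of `y` is `(false, true) :: L` then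
`L` does not start with `(true, ε)` (`DD`) nor with `(false, false)`, and
`blk'^k ++ [q^ε, p, q^{-ε}] ++ L` is reduced. Otherwise `blk'^(k+1) ++ y.toWord` is reduced. -/
theorem word_neg (ε : Bool) (k : ℕ) (y : F2) (h : DD ε y) : ∃ L : List (Bool × Bool),
    ((cb ε)⁻¹ ^ (k + 1) * y).toWord = (List.replicate k (blk' ε)).flatten ++
      [(true, ε), (false, true), (true, !ε)] ++ L ∧
    (y.toWord = (false, true) :: L ∨ L = (false, false) :: y.toWord) := by
  have hred : FreeGroup.IsReduced y.toWord := FreeGroup.isReduced_toWord
  have hB : ∀ X, FreeGroup.IsReduced ((true, ε) :: X) →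
      FreeGroup.IsReduced (blk' ε ++ (true, ε) :: X) := by
    intro X hX
    show FreeGroup.IsReduced ((true, ε) :: (false, true) :: (true, !ε) :: (false, false) ::
      (true, ε) :: X)
    simp only [blkW_cons]
    exact ⟨by simp, by simp, by simp, by simp, hX⟩
  rw [blkW_val', blkW_mul]
  by_cases hw : ∃ L, y.toWord = (false, true) :: L
  · obtain ⟨L, hL⟩ := hw
    refine ⟨L, ?_, Or.inl hL⟩
    have e1 : (List.replicate k (blk' ε)).flatten ++ (blk' ε ++ y.toWord) =
        ((List.replicate k (blk' ε)).flatten ++ [(true, ε), (false, true), (true, !ε)]) ++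
          (false, !true) :: (false, true) :: L := by
      rw [hL, List.append_assoc]
      rfl
    rw [e1, blkW_cancel]
    apply blkW_word
    rw [List.append_assoc]
    refine blkW_rep (blk' ε) (true, ε) hB ⟨_, rfl⟩ k _ ?_
    show FreeGroup.IsReduced ((true, ε) :: (false, true) :: (true, !ε) :: L)
    rw [hL] at hred
    have hL' := blkW_tail hred
    simp only [blkW_cons]
    refine ⟨by simp, by simp, ?_⟩
    cases L with
    | nil => exact List.isChain_singleton _
    | cons b L =>
      rw [blkW_cons]
      refine ⟨?_, hL'⟩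
      obtain ⟨b1, b2⟩ := b
      intro h1
      have h1' : true = b1 := h1
      subst h1'
      show (!ε) = b2
      by_contra hne
      have h2 : b2 = ε := by
        cases ε <;> cases b2 <;> simp_all
      apply h.2
      show [(false, true), (true, ε)] <+: y.toWord
      rw [hL, h2]
      exact ⟨L, rfl⟩
  · refine ⟨(false, false) :: y.toWord, ?_, Or.inr rfl⟩
    have e1 : (List.replicate k (blk' ε)).flatten ++ (blk' ε ++ y.toWord) =
        ((List.replicate k (blk' ε)).flatten ++ [(true, ε), (false, true), (true, !ε)]) ++
          (false, false) :: y.toWord := by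
      rw [List.append_assoc]
      rfl
    rw [e1]
    apply blkW_word
    rw [List.append_assoc]
    refine blkW_rep (blk' ε) (true, ε) hB ⟨_, rfl⟩ k _ ?_
    show FreeGroup.IsReduced ((true, ε) :: (false, true) :: (true, !ε) :: (false, false) ::
      y.toWord)
    simp only [blkW_cons]
    refine ⟨by simp, by simp, by simp, ?_⟩
    cases hy : y.toWord with
    | nil => exact List.isChain_singleton _
    | cons b L =>
      rw [hy] at hred
      rw [blkW_cons]
      refine ⟨?_, hred⟩
      obtain ⟨b1, b2⟩ := b
      intro h1
      have h1' : false = b1 := h1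
      subst h1'
      show false = b2
      cases b2 with
      | false => rfl
      | true => exact absurd ⟨L, hy⟩ hw

end Pool.Agent.H.MP_9a81ba_al.P
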