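import Mathlib

/-!
Five elements of a group with three braid generators.
-/

namespace Pool.Agent.H.MP_9a81ba_al.P

variable {G : Type*} [Group G]

/-- the five elements -/
def brg (s1 s2 s3 : G) : Fin 5 → G :=
  ![(s2 * s3) ^ 6, s3 ^ 6, s1 ^ 6, ((s1 * s2) ^ 6)⁻¹, (s2 ^ 6)⁻¹]

theorem br_aux (s t x : G) (h1 : s * x = x * t) (h2 : t * x = x * s) :
    s * (x * x) = x * x * s := by
  rw [← mul_assoc, h1, mul_assoc, h2, ← mul_assoc]

/-- Proof: `(s t)^3 = s t s * t s t`; by the braid relation `s * (s t s) = (s t s) * t` and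
`t * (s t s) = (s t s) * s`, so `(s t)^3 = (s t s)^2` commutes with `s` and `t`; and
`(s t)^6 = ((s t)^3)^2`. -/
theorem braid_central (s t : G) (h : s * t * s = t * s * t) :
    Commute s ((s * t) ^ 6) ∧ Commute t ((s * t) ^ 6) := by
  have h1 : s * (s * t * s) = (s * t * s) * t := by
    calc s * (s * t * s) = s * (t * s * t) := by rw [h]
      _ = (s * t * s) * t := by group
  have h2 : t * (s * t * s) = (s * t * s) * s := by
    calc t * (s * t * s) = (t * s * t) * s := by group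
      _ = (s * t * s) * s := by rw [h]
  have h3 : (s * t) ^ 6 = (s * t * s) * (s * t * s) * ((s * t * s) * (s * t * s)) := by
    have h4 : (s * t) ^ 3 = (s * t * s) * (s * t * s) := by
      calc (s * t) ^ 3 = (s * t * s) * (t * s * t) := by
            rw [pow_succ, pow_two]
            group
        _ = (s * t * s) * (s * t * s) := by rw [h]
    calc (s * t) ^ 6 = (s * t) ^ 3 * (s * t) ^ 3 := by rw [← pow_add]
      _ = _ := by rw [h4]
  have k1 : s * ((s * t * s) * (s * t * s)) = ((s * t * s) * (s * t * s)) * s := by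
    exact br_aux _ _ _ h1 h2
  have k2 : t * ((s * t * s) * (s * t * s)) = ((s * t * s) * (s * t * s)) * t := by
    exact br_aux _ _ _ h2 h1
  have c1 : Commute s ((s * t * s) * (s * t * s)) := k1
  have c2 : Commute t ((s * t * s) * (s * t * s)) := k2
  rw [h3]
  exact ⟨c1.mul_right c1, c2.mul_right c2⟩

/-- Proof: `fin_cases i`; `braid_central` for `(s2, s3)` and `(s1, s2)`, `h13`, and
`Commute.pow_left`, `Commute.inv_right` etc. -/
theorem brg_comm (s1 s2 s3 : G) (h12 : s1 * s2 * s1 = s2 * s1 * s2)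
    (h23 : s2 * s3 * s2 = s3 * s2 * s3) (h13 : Commute s1 s3) (i : Fin 5) :
    Commute (brg s1 s2 s3 i) (brg s1 s2 s3 (i + 1)) := by
  obtain ⟨a1, a2⟩ := braid_central s1 s2 h12
  obtain ⟨b1, b2⟩ := braid_central s2 s3 h23
  have e0 : Commute ((s2 * s3) ^ 6) (s3 ^ 6) := (b2.pow_left 6).symm
  have e1 : Commute (s3 ^ 6) (s1 ^ 6) := ((h13.pow_left 6).pow_right 6).symm
  have e2 : Commute (s1 ^ 6) (((s1 * s2) ^ 6)⁻¹) := (a1.pow_left 6).inv_right
  have e3 : Commute (((s1 * s2) ^ 6)⁻¹) ((s2 ^ 6)⁻¹) := ((a2.pow_left 6).symm.inv_left).inv_right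
  have e4 : Commute ((s2 ^ 6)⁻¹) ((s2 * s3) ^ 6) := (b1.pow_left 6).inv_left
  fin_cases i
  · exact e0
  · exact e1
  · exact e2
  · exact e3
  · exact e4

theorem map_brg {H : Type*} [Group H] (f : G →* H) (s1 s2 s3 : G) (i : Fin 5) :
    f (brg s1 s2 s3 i) = brg (f s1) (f s2) (f s3) i := by
  fin_cases i <;> simp [brg]

theorem brg_mem (K : Subgroup G) (s1 s2 s3 : G) (h1 : s1 ∈ K) (h2 : s2 ∈ K) (h3 : s3 ∈ K)
    (i : Fin 5) : brg s1 s2 s3 i ∈ K := by
  fin_cases i
  · exact K.pow_mem (K.mul_mem h2 h3) 6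
  · exact K.pow_mem h3 6
  · exact K.pow_mem h1 6
  · exact K.inv_mem (K.pow_mem (K.mul_mem h1 h2) 6)
  · exact K.inv_mem (K.pow_mem h2 6)

end Pool.Agent.H.MP_9a81ba_al.P
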