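import Pool.Agent.H.MP_9a81ba_al.P.Pent

/-!
Normal form (Cartier and Foata) in the right-angled Artin group of the pentagon.
-/

namespace Pool.Agent.H.MP_9a81ba_al.P

/-- the nonempty cliques of the pentagon: a vertex `i` or an edge `{i, i + 1}` -/
inductive Cl
  | one (i : Fin 5)
  | two (i : Fin 5)
  deriving DecidableEq

/-- membership of a vertex -/
def Cl.has : Cl → Fin 5 → Prop
  | .one i, v => v = i
  | .two i, v => v = i ∨ v = i + 1

instance (t : Cl) (v : Fin 5) : Decidable (t.has v) := by
  cases t <;> unfold Cl.has <;> infer_instance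

/-- `v` is different from and does not commute with some letter of the clique `t` -/
def Cp (v : Fin 5) (t : Cl) : Prop := ∃ u : Fin 5, t.has u ∧ u ≠ v ∧ u ≠ v + 1 ∧ v ≠ u + 1

instance (v : Fin 5) (t : Cl) : Decidable (Cp v t) := by
  unfold Cp; infer_instance

/-- `Good t g`: the element `g` has a normal form `w_r ... w_2 w_1` whose last factor `w_r` is a
product of nonzero powers of the letters of the clique `t`, and such that every letter of
`w_{i+1}` does not commute with some letter of `w_i`. -/
inductive Good : Cl → C5 → Prop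
  | base1 (i : Fin 5) (n : ℤ) (hn : n ≠ 0) : Good (.one i) (gn i ^ n)
  | base2 (i : Fin 5) (n m : ℤ) (hn : n ≠ 0) (hm : m ≠ 0) :
      Good (.two i) (gn i ^ n * gn (i + 1) ^ m)
  | step1 (i : Fin 5) (n : ℤ) (hn : n ≠ 0) (t : Cl) (g : C5) (h : Good t g) (hc : Cp i t) :
      Good (.one i) (gn i ^ n * g)
  | step2 (i : Fin 5) (n m : ℤ) (hn : n ≠ 0) (hm : m ≠ 0) (t : Cl) (g : C5) (h : Good t g)
      (hc : Cp i t) (hc' : Cp (i + 1) t) : Good (.two i) (gn i ^ n * gn (i + 1) ^ m * g)

theorem cF_one : ∀ v i : Fin 5, ¬ Cp v (.one i) → v = i ∨ i = v + 1 ∨ v = i + 1 := by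
  decide

theorem cF_two : ∀ v i : Fin 5, ¬ Cp v (.two i) → v = i ∨ v = i + 1 := by
  decide

theorem cF_bad : ∀ i v : Fin 5, Cp i (.one v) → ¬ (i = v + 1 ∨ v = i + 1) := by
  decide

theorem cF_ne : ∀ i : Fin 5, i + 1 ≠ i := by
  decide

theorem cF_comm (i : Fin 5) (k n : ℤ) :
    gn (i + 1) ^ k * gn i ^ n = gn i ^ n * gn (i + 1) ^ k :=
  ((gn_comm i).symm.zpow_zpow k n).eq

theorem cF_add (i : Fin 5) (k n : ℤ) (x : C5) :
    gn i ^ k * (gn i ^ n * x) = gn i ^ (k + n) * x := by
  rw [← mul_assoc, ← zpow_add]

/-- **Insertion.** Let `Good t g`, let `v` be a vertex which commutes with (or equals) every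
letter of the clique `t`, and let `k ≠ 0`. Then either `gn v ^ k * g = 1` and `t = {v}`, or
`gn v ^ k * g` is again `1` or `Good t'` where `t'` contains all letters `u ≠ v` of `t`.

Proof by induction on `Good t g` (all `k`, `v` generalized).
* `base1 i n`: if `v = i`, the product is `gn v ^ (k + n)`: it is `1` (if `k + n = 0`, and
  `t = {v}`) or `Good (one v)`. If `v ≠ i` then `¬ Cp v (one i)` gives `i = v + 1` or
  `v = i + 1`; so the product is `gn v ^ k * gn i ^ n` with `t' = two v` or (after using
  `gn_comm`) `t' = two i`, `base2`.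
* `base2 i n m`: `¬ Cp v (two i)` forces `v = i` or `v = i + 1` (no triangles; `decide`).
  If `v = i`: exponent `k + n`; if it is `0` the product is `gn (i+1) ^ m`, `base1`; else
  `base2`. If `v = i + 1`, move `gn v ^ k` past `gn i ^ n` (`gn_comm`, `Commute.zpow_zpow`).
* `step1 i n t g`: if `v = i`, exponent `k + n`; if `0` the product is `g`, `Good t g` (nothing
  to check, because a letter `u ≠ v` of `one i` does not exist), else `step1`. If `v ≠ i`,
  `v` is adjacent to `i`. If `Cp v t`: the product is `gn v ^ k * gn i ^ n * g`, `step2`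
  (as `two v` or `two i`). If `¬ Cp v t`, use the induction hypothesis for `g`, `v`, `k`: the case
  `gn v ^ k * g = 1, t = one v` is impossible, since `Cp i (one v)` says that `i` and `v` are
  not adjacent. So `Good t' (gn v ^ k * g)` where `t'` contains all letters `u ≠ v` of `t`; the
  letter `u` of `t` which witnesses `Cp i t` is not `v` (as `v` is adjacent to `i`), so
  it witnesses `Cp i t'`. So `step1` gives `Good (one i) (gn i ^ n * (gn v ^ k * g))`, which is
  the required product by commutation.
* `step2 i n m t g`: `v = i` or `v = i + 1`; as in `base2`: if the exponent cancels we get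
  `Good (one (i+1)) (gn (i+1) ^ m * g)` or `Good (one i) (gn i ^ n * g)` by `step1`. -/
theorem good_insert {t : Cl} {g : C5} (h : Good t g) (v : Fin 5) (k : ℤ) (hk : k ≠ 0)
    (hv : ¬ Cp v t) :
    (gn v ^ k * g = 1 ∧ t = .one v) ∨
      ∃ t' : Cl, Good t' (gn v ^ k * g) ∧ ∀ u, t.has u → u ≠ v → t'.has u := by
  induction h generalizing v k with
  | base1 i n hn =>
    rcases cF_one v i hv with h1 | h1 | h1
    · subst h1
      rw [← zpow_add]
      by_cases h0 : k + n = 0
      · left
        exact ⟨by rw [h0, zpow_zero], rfl⟩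
      · right
        exact ⟨.one v, .base1 v (k + n) h0, fun u hu _ => hu⟩
    · subst h1
      right
      exact ⟨.two v, .base2 v k n hk hn, fun u hu _ => Or.inr hu⟩
    · subst h1
      right
      rw [cF_comm]
      exact ⟨.two i, .base2 i n k hn hk, fun u hu _ => Or.inl hu⟩
  | base2 i n m hn hm =>
    right
    rcases cF_two v i hv with h1 | h1
    · subst h1
      rw [cF_add]
      by_cases h0 : k + n = 0
      · rw [h0, zpow_zero, one_mul]
        exact ⟨.one (v + 1), .base1 (v + 1) m hm, fun u hu hn => hu.resolve_left hn⟩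
      · exact ⟨.two v, .base2 v (k + n) m h0 hm, fun u hu _ => hu⟩
    · subst h1
      rw [← mul_assoc, cF_comm, mul_assoc, ← zpow_add]
      by_cases h0 : k + m = 0
      · rw [h0, zpow_zero, mul_one]
        exact ⟨.one i, .base1 i n hn, fun u hu hn => hu.resolve_right hn⟩
      · exact ⟨.two i, .base2 i n (k + m) hn h0, fun u hu _ => hu⟩
  | step1 i n hn t g hG hc ih =>
    right
    rcases cF_one v i hv with h1 | h1
    · subst h1
      rw [cF_add]
      by_cases h0 : k + n = 0
      · rw [h0, zpow_zero, one_mul]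
        exact ⟨t, hG, fun u hu hn => absurd hu hn⟩
      · exact ⟨.one v, .step1 v (k + n) h0 t g hG hc, fun u hu _ => hu⟩
    · by_cases hct : Cp v t
      · rcases h1 with h1 | h1
        · subst h1
          rw [← mul_assoc]
          exact ⟨.two v, .step2 v k n hk hn t g hG hct hc, fun u hu _ => Or.inr hu⟩
        · subst h1
          rw [← mul_assoc, cF_comm]
          exact ⟨.two i, .step2 i n k hn hk t g hG hc hct, fun u hu _ => Or.inl hu⟩
      · rcases ih v k hk hct with ⟨_, h2⟩ | ⟨t', h2, h3⟩
        · subst h2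
          exact absurd h1 (cF_bad i v hc)
        · obtain ⟨u, hu1, hu2, hu3, hu4⟩ := hc
          have huv : u ≠ v := by
            rintro rfl
            rcases h1 with h1 | h1
            · exact hu4 h1
            · exact hu3 h1
          have hc' : Cp i t' := ⟨u, h3 u hu1 huv, hu2, hu3, hu4⟩
          refine ⟨.one i, ?_, fun u hu _ => hu⟩
          have he : gn v ^ k * (gn i ^ n * g) = gn i ^ n * (gn v ^ k * g) := by
            rw [← mul_assoc, ← mul_assoc]
            congr 1
            rcases h1 with h1 | h1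
            · subst h1
              exact (cF_comm v n k).symm
            · subst h1
              exact cF_comm i k n
          rw [he]
          exact .step1 i n hn t' _ h2 hc'
  | step2 i n m hn hm t g hG hc hc' ih =>
    right
    rcases cF_two v i hv with h1 | h1
    · subst h1
      rw [mul_assoc, cF_add]
      by_cases h0 : k + n = 0
      · rw [h0, zpow_zero, one_mul]
        exact ⟨.one (v + 1), .step1 (v + 1) m hm t g hG hc', fun u hu hn => hu.resolve_left hn⟩
      · rw [← mul_assoc]
        exact ⟨.two v, .step2 v (k + n) m h0 hm t g hG hc hc', fun u hu _ => hu⟩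
    · subst h1
      rw [mul_assoc, ← mul_assoc, cF_comm, mul_assoc, cF_add]
      by_cases h0 : k + m = 0
      · rw [h0, zpow_zero, one_mul]
        exact ⟨.one i, .step1 i n hn t g hG hc, fun u hu hn => hu.resolve_right hn⟩
      · rw [← mul_assoc]
        exact ⟨.two i, .step2 i n (k + m) hn h0 t g hG hc hc', fun u hu _ => hu⟩

/-- **Normal form.** Every element is `1` or `Good t g` for some clique `t`.

Proof: let `X = {g | g = 1 ∨ ∃ t, Good t g}`. For every vertex `v` and `k ≠ 0`, `g ∈ X` implies
`gn v ^ k * g ∈ X`: for `g = 1` use `base1`; if `Good t g` and `Cp v t` use `step1`; otherwise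
`good_insert`. Then for all `a`, `g ∈ X → a * g ∈ X ∧ a⁻¹ * g ∈ X` by `c5_induction` (statement
`∀ g ∈ X, a * g ∈ X ∧ a⁻¹ * g ∈ X`); apply it to `g = 1`. -/
theorem good_all (g : C5) : g = 1 ∨ ∃ t : Cl, Good t g := by
  let X : C5 → Prop := fun g => g = 1 ∨ ∃ t : Cl, Good t g
  have hX : ∀ (v : Fin 5) (k : ℤ), k ≠ 0 → ∀ g, X g → X (gn v ^ k * g) := by
    intro v k hk g hg
    rcases hg with hg | ⟨t, ht⟩
    · right
      rw [hg, mul_one]
      exact ⟨.one v, .base1 v k hk⟩
    · by_cases hc : Cp v t
      · right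
        exact ⟨.one v, .step1 v k hk t g ht hc⟩
      · rcases good_insert ht v k hk hc with ⟨h1, _⟩ | ⟨t', h1, _⟩
        · left
          exact h1
        · right
          exact ⟨t', h1⟩
  have hall : ∀ a : C5, ∀ g, X g → X (a * g) ∧ X (a⁻¹ * g) := by
    intro a
    refine c5_induction (p := fun a => ∀ g, X g → X (a * g) ∧ X (a⁻¹ * g)) ?_ ?_ ?_ ?_ a
    · intro g hg
      rw [inv_one, one_mul]
      exact ⟨hg, hg⟩
    · intro i g hg
      have h1 := hX i 1 one_ne_zero g hg
      have h2 := hX i (-1) (by decide) g hg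
      rw [zpow_one] at h1
      rw [zpow_neg, zpow_one] at h2
      exact ⟨h1, h2⟩
    · intro a b ha hb g hg
      rw [mul_inv_rev, mul_assoc, mul_assoc]
      exact ⟨(ha _ (hb g hg).1).1, (hb _ (ha g hg).2).2⟩
    · intro a ha g hg
      rw [inv_inv]
      exact ⟨(ha g hg).2, (ha g hg).1⟩
  have h := (hall g 1 (Or.inl rfl)).1
  rw [mul_one] at h
  exact h

end Pool.Agent.H.MP_9a81ba_al.P
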