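import Pool.Agent.H.MP_9a81ba_al.P.Kgr

/-!
Detection of inner automorphisms.
-/

namespace Pool.Agent.H.MP_9a81ba_al.P

variable {r : ℕ}

/-- conjugation of an element of the base group in the wreath product -/
theorem wr_conj (x w : Wr) (hw : w.right = 1) :
    (x * w * x⁻¹).left = x.left * shf x.right w.left * (x.left)⁻¹ := by
  rw [SemidirectProduct.mul_left, SemidirectProduct.mul_left, SemidirectProduct.mul_right, hw,
    mul_one, SemidirectProduct.inv_left, ← MulAut.mul_apply, ← map_mul, mul_inv_cancel, map_one,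
    MulAut.one_apply]

/-- conjugation of the shift -/
theorem det_shift (x : Wr) (i : ℤ) :
    (x * SemidirectProduct.inr (Multiplicative.ofAdd 1) * x⁻¹).left i =
      x.left i * (x.left (i + 1))⁻¹ := by
  have h1 : x.right * Multiplicative.ofAdd (1 : ℤ) * x.right⁻¹ = Multiplicative.ofAdd 1 := by
    rw [mul_comm x.right, mul_inv_cancel_right]
  rw [SemidirectProduct.mul_left, SemidirectProduct.mul_left, SemidirectProduct.mul_right,
    SemidirectProduct.left_inr, SemidirectProduct.right_inr, map_one, mul_one,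
    SemidirectProduct.inv_left, ← MulAut.mul_apply, ← map_mul, h1, Pi.mul_apply, shf_apply,
    Pi.inv_apply, toAdd_ofAdd]

theorem det_key (φ : MulAut (Surf (r + 2))) (ψ : MulAut F2) (hc : Cmp φ ψ) (h : Surf (r + 2))
    (hh : φ = MulAut.conj h) (y : Surf (r + 2)) (hy : y ∈ Bs r) :
    ψ (rr r y) = (Ph r h).left 0 * (Ph r y).left (Ph r h).right.toAdd * ((Ph r h).left 0)⁻¹ := by
  have h1 := (hc.1 y hy).2
  have h2 : φ y = h * y * h⁻¹ := by
    rw [hh, MulAut.conj_apply]
  rw [← h1, h2]
  unfold rr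
  rw [map_mul, map_mul, map_inv, wr_conj (Ph r h) (Ph r y) (Bs_right y hy), Pi.mul_apply,
    Pi.mul_apply, Pi.inv_apply, shf_apply, zero_add]

theorem det_t (φ : MulAut (Surf (r + 2))) (ψ : MulAut F2) (hc : Cmp φ ψ) (h : Surf (r + 2))
    (hh : φ = MulAut.conj h) (i : ℤ) (hi : 0 ≤ i) :
    (Ph r h).left i = (Ph r h).left (i + 1) := by
  have h2 : φ (go (1, true)) = h * go (1, true) * h⁻¹ := by
    rw [hh, MulAut.conj_apply]
  have ht : Ph r (go (1, true)) = SemidirectProduct.inr (Multiplicative.ofAdd 1) := by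
    rw [Ph_go]
    unfold phx
    rw [if_neg (by simp), if_neg (by simp), if_neg (by simp), if_pos rfl]
  have h3 := Bs_pos _ hc.2 (i + 1) (by omega)
  have h4 : φ (go (1, true)) = go (1, true) * ((go (1, true))⁻¹ * φ (go (1, true))) := by
    rw [mul_inv_cancel_left]
  have h5 : (Ph r (φ (go (1, true)))).left i = 1 := by
    rw [h4, map_mul, SemidirectProduct.mul_left, ht, SemidirectProduct.left_inr,
      SemidirectProduct.right_inr, one_mul, shf_apply, toAdd_ofAdd]
    exact h3
  rw [h2, map_mul, map_mul, map_inv, ht, det_shift] at h5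
  exact mul_inv_eq_one.1 h5

/-- **Detection.** If `(φ, ψ)` is compatible and `φ` is the conjugation with `h`, then `ψ = 1`.

Proof: let `Ph h = ⟨u, m⟩`. For `y ∈ Bs`: `ψ (rr y) = rr (φ y) = rr (h y h⁻¹) =
u 0 * (Ph y).left m * (u 0)⁻¹` (`wr_conj`, `Bs_right`). If `m ≠ 0` (`m.toAdd ≠ 0`) take `y = a`:
`(Ph a).left m = 1`, so `ψ p = 1` and `p = 1`, a contradiction. So `m = 0` and for `y = a, b`:
`ψ p = u 0 * p * (u 0)⁻¹`, `ψ q = u 0 * q * (u 0)⁻¹`; hence `ψ = MulAut.conj (u 0)`
(`FreeGroup.ext_hom`). Now `φ t = h t h⁻¹ = t z` with `z ∈ Bs` (second part of `Cmp`). The left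
component at `i ≥ 0` of `Ph (h t h⁻¹)` is `u i * (u (i + 1))⁻¹`, the one of `Ph (t z)` is
`(Ph z).left (i + 1) = 1` (`Bs_pos`). So `u i = u (i + 1)` for all `i ≥ 0`, and `u n = 1` for large
`n` (`Ph_right`), hence `u 0 = 1` and `ψ = 1`. -/
theorem det (φ : MulAut (Surf (r + 2))) (ψ : MulAut F2) (hc : Cmp φ ψ) (h : Surf (r + 2))
    (hh : φ = MulAut.conj h) : ψ = 1 := by
  have hk := det_key φ ψ hc h hh
  have hu0 : (Ph r h).left 0 = 1 := by
    obtain ⟨n, hn⟩ := Ph_right r h
    have h1 : ∀ k : ℕ, (Ph r h).left 0 = (Ph r h).left k := by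
      intro k
      induction k with
      | zero => rfl
      | succ k ih =>
        rw [ih, det_t φ ψ hc h hh k (Int.natCast_nonneg k)]
        push_cast
        rfl
    rw [h1 n.toNat]
    exact hn _ (Int.self_le_toNat n)
  have hm : (Ph r h).right.toAdd = 0 := by
    by_contra hm
    have h1 := hk _ a_mem
    have h2 : (Ph r (go (0, false))).left (Ph r h).right.toAdd = 1 := by
      rw [Ph_go]
      unfold phx
      rw [if_pos rfl, SemidirectProduct.left_inl, if_neg hm]
    rw [h2, rr_a, mul_one, mul_inv_cancel] at h1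
    have h3 : FreeGroup.of false = (1 : F2) := ψ.injective (h1.trans (map_one ψ).symm)
    exact FreeGroup.of_ne_one false h3
  have hg : ∀ g : Bool, ψ (FreeGroup.of g) = FreeGroup.of g := by
    intro g
    cases g with
    | false =>
      have h1 := hk _ a_mem
      rw [hm, hu0, one_mul, inv_one, mul_one] at h1
      have h2 : (Ph r (go (0, false))).left 0 = rr r (go (0, false)) := rfl
      rw [h2, rr_a] at h1
      exact h1
    | true =>
      have h1 := hk _ b_mem
      rw [hm, hu0, one_mul, inv_one, mul_one] at h1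
      have h2 : (Ph r (go (0, true))).left 0 = rr r (go (0, true)) := rfl
      rw [h2, rr_b] at h1
      exact h1
  have he : (ψ : F2 →* F2) = MonoidHom.id F2 := FreeGroup.ext_hom _ _ hg
  apply MulEquiv.ext
  intro w
  exact DFunLike.congr_fun he w

end Pool.Agent.H.MP_9a81ba_al.P
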