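import Pool.Agent.H.MP_9a81ba_al.P.Trans

/-!
The homomorphism from the pentagon group to `Aut F2` is injective.
-/

namespace Pool.Agent.H.MP_9a81ba_al.P

theorem not_Yt_Base (t : Cl) (y : F2) (h : Yt t y) (hb : Base y) : False := by
  rcases t with i | i
  · fin_cases i
    · exact not_PP_Base false y h hb
    · exact not_PQ_Base true y h hb
    · exact not_PQ_Base false y h hb
    · exact not_PP_Base true y h hb
    · exact not_Px_Base y h hb
  · fin_cases i
    · exact not_PP_Base false y h.1 hb
    · exact not_Pa3_Base y h hb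
    · exact not_PP_Base true y h.1 hb
    · exact not_PP_Base true y h.1 hb
    · exact not_PP_Base false y h.1 hb

theorem good_Yt {t : Cl} {g : C5} (h : Good t g) : ∀ y, Base y → Yt t (sig g y) := by
  induction h with
  | base1 i n hn => exact fun y hy => act_one i n hn y (In_of_Base i y hy)
  | base2 i n m hn hm => exact fun y hy => act_two i n m hn hm y (In2_of_Base i y hy)
  | step1 i n hn t g _ hc ih =>
    intro y hy
    rw [map_mul, Equiv.Perm.mul_apply]
    exact act_one i n hn _ (In_of_Yt i t hc _ (ih y hy))
  | step2 i n m hn hm t g _ hc hc' ih =>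
    intro y hy
    rw [map_mul, Equiv.Perm.mul_apply]
    exact act_two i n m hn hm _ (In2_of_Yt i t hc hc' _ (ih y hy))

/-- **Part III.** -/
theorem rho_inj (g : C5) (h : rho g = 1) : g = 1 := by
  rcases good_all g with h1 | ⟨t, ht⟩
  · exact h1
  · exfalso
    obtain ⟨y, hy, hy'⟩ := exists_base (sig g 1)
    have h2 := good_Yt ht y hy
    rw [sig_eq, h, MulAut.one_apply] at h2
    exact not_Yt_Base t _ h2 hy'

end Pool.Agent.H.MP_9a81ba_al.P
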