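import Pool.Agent.H.MP_9a81ba_al.P.SurfA

/-!
The three automorphisms preserve the orientation.
-/

set_option linter.unusedSimpArgs false

namespace Pool.Agent.H.MP_9a81ba_al.P

variable {r : ℕ}

theorem surfOr_d1 (i : Fin r) (b : Bool) :
    (((i.succ.succ, b) : Fin (r + 2) × Bool) = (0, false)) = False := by
  simp [Fin.succ_ne_zero]

theorem surfOr_d2 (i : Fin r) (b : Bool) :
    (((i.succ.succ, b) : Fin (r + 2) × Bool) = (0, true)) = False := by
  simp [Fin.succ_ne_zero]

theorem surfOr_e0 (i : Fin r) : (i.succ.succ : Fin (r + 2)) ≠ 1 := by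
  intro h
  have h1 := congrArg Fin.val h
  simp at h1

theorem surfOr_d3 (i : Fin r) (b : Bool) :
    (((i.succ.succ, b) : Fin (r + 2) × Bool) = (1, false)) = False := by
  simp [surfOr_e0]

theorem surfOr_d4 (i : Fin r) (b : Bool) :
    (((i.succ.succ, b) : Fin (r + 2) × Bool) = (1, true)) = False := by
  simp [surfOr_e0]

/-- the cup product of two homomorphisms composed with an automorphism only depends on the
values on the images of the generators. Proof: definition of `cup` (`go = PresentedGroup.of`). -/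
theorem cup_comp (φ : MulAut (Surf (r + 2))) (l m : Surf (r + 2) →* Multiplicative ℤ) :
    cup (r + 2) (l.comp φ.toMonoidHom) (m.comp φ.toMonoidHom) =
      ∑ i : Fin (r + 2), ((l (φ (go (i, false)))).toAdd * (m (φ (go (i, true)))).toAdd -
        (l (φ (go (i, true)))).toAdd * (m (φ (go (i, false)))).toAdd) := by
  rfl

/-- Proof: `cup_comp`, `Fin.sum_univ_succ` twice, `s1_go`; the terms with index `≥ 1` do not
change, and `l(a)(m(b) + m(a)) - (l(b) + l(a)) m(a) = l(a) m(b) - l(b) m(a)`. -/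
theorem s1_or : (s1 : MulAut (Surf (r + 2))) ∈ OrPres (r + 2) := by
  intro l m
  rw [cup_comp]
  show _ = ∑ i : Fin (r + 2), ((l (go (i, false))).toAdd * (m (go (i, true))).toAdd -
    (l (go (i, true))).toAdd * (m (go (i, false))).toAdd)
  simp only [Fin.sum_univ_succ, s1_go, m1, surfOr_d1, surfOr_d2, surfOr_d3, surfOr_d4,
    surfB_d1, surfB_d2, surfB_d3, surfB_d4, surfB_d5,
    surfB_d6, surfB_d7, surfB_d8, surfB_d9, surfB_d10, surfB_d11, surfB_d12, Fin.succ_zero_eq_one,
    if_true, if_false, map_mul, map_inv, toAdd_mul, toAdd_inv]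
  ring

/-- Proof: the same; `a ↦ a b⁻¹`. -/
theorem s2_or : (s2 : MulAut (Surf (r + 2))) ∈ OrPres (r + 2) := by
  intro l m
  rw [cup_comp]
  show _ = ∑ i : Fin (r + 2), ((l (go (i, false))).toAdd * (m (go (i, true))).toAdd -
    (l (go (i, true))).toAdd * (m (go (i, false))).toAdd)
  simp only [Fin.sum_univ_succ, s2_go, m2, surfOr_d1, surfOr_d2, surfOr_d3, surfOr_d4,
    surfB_d1, surfB_d2, surfB_d3, surfB_d4, surfB_d5,
    surfB_d6, surfB_d7, surfB_d8, surfB_d9, surfB_d10, surfB_d11, surfB_d12, Fin.succ_zero_eq_one,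
    if_true, if_false, map_mul, map_inv, toAdd_mul, toAdd_inv]
  ring

/-- Proof: in the abelian group `ℤ`, `v ↦ d - a`; so `b ↦ b + a - d`, `d ↦ d`, `t ↦ t + d - a`:
`a ∧ (b + a - d) + d ∧ (t + d - a) = a ∧ b - a ∧ d + d ∧ t - d ∧ a = a ∧ b + d ∧ t`. -/
theorem s3_or : (s3 : MulAut (Surf (r + 2))) ∈ OrPres (r + 2) := by
  intro l m
  rw [cup_comp]
  show _ = ∑ i : Fin (r + 2), ((l (go (i, false))).toAdd * (m (go (i, true))).toAdd -
    (l (go (i, true))).toAdd * (m (go (i, false))).toAdd)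
  simp only [Fin.sum_univ_succ, s3_go, m3, vv, surfOr_d1, surfOr_d2, surfOr_d3, surfOr_d4,
    surfB_d1, surfB_d2, surfB_d3, surfB_d4, surfB_d5,
    surfB_d6, surfB_d7, surfB_d8, surfB_d9, surfB_d10, surfB_d11, surfB_d12, Fin.succ_zero_eq_one,
    if_true, if_false, map_mul, map_inv, toAdd_mul, toAdd_inv]
  ring

end Pool.Agent.H.MP_9a81ba_al.P
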