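import Pool.Agent.H.MP_9a81ba_al.P.KgrS
import Pool.Agent.H.MP_9a81ba_al.P.Det
import Pool.Agent.H.MP_9a81ba_al.P.SurfOr
import Pool.Agent.H.MP_9a81ba_al.P.PingMain

/-!
The pentagon group embeds into the mapping class group of every genus `≥ 2`.
-/

namespace Pool.Agent.H.MP_9a81ba_al.P

variable (r : ℕ)

/-- the homomorphism to pairs of automorphisms -/
def rP : C5 →* MulAut (Surf (r + 2)) × MulAut F2 :=
  c5lift (brg (s1, t1) (s2, t2) (s3, t3)) (brg_comm _ _ _
    (Prod.ext s_braid12 t_braid12) (Prod.ext s_braid23 t_braid23)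
    (Prod.ext s_comm13 t_comm13))

theorem rP_gn (i : Fin 5) : rP r (gn i) = brg (s1, t1) (s2, t2) (s3, t3) i := c5lift_gn _ _ i

theorem rP_mem (g : C5) : rP r g ∈ Kg r := by
  refine c5_induction (p := fun g => rP r g ∈ Kg r) ?_ ?_ ?_ ?_ g
  · rw [map_one]; exact one_mem _
  · intro i
    rw [rP_gn]
    exact brg_mem _ _ _ _ s1_mem s2_mem s3_mem i
  · intro a b ha hb
    rw [map_mul]; exact mul_mem ha hb
  · intro a ha
    rw [map_inv]; exact inv_mem ha

theorem rP_snd (g : C5) : (rP r g).2 = rho g := by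
  refine c5_induction (p := fun g => (rP r g).2 = rho g) ?_ ?_ ?_ ?_ g
  · rw [map_one, map_one]; rfl
  · intro i
    rw [rP_gn]
    have h := map_brg (MonoidHom.snd (MulAut (Surf (r + 2))) (MulAut F2)) (s1, t1) (s2, t2)
      (s3, t3) i
    change (brg (s1, t1) (s2, t2) (s3, t3) i).2 = brg t1 t2 t3 i at h
    rw [h, brg_t]
    exact (c5lift_gn _ _ i).symm
  · intro a b ha hb
    rw [map_mul, map_mul, Prod.snd_mul, ha, hb]
  · intro a ha
    rw [map_inv, map_inv, Prod.snd_inv, ha]

theorem rP_or (g : C5) : (rP r g).1 ∈ OrPres (r + 2) := by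
  refine c5_induction (p := fun g => (rP r g).1 ∈ OrPres (r + 2)) ?_ ?_ ?_ ?_ g
  · rw [map_one]; exact one_mem (OrPres (r + 2))
  · intro i
    rw [rP_gn]
    have h := map_brg (MonoidHom.fst (MulAut (Surf (r + 2))) (MulAut F2)) (s1, t1) (s2, t2)
      (s3, t3) i
    change (brg (s1, t1) (s2, t2) (s3, t3) i).1 = brg s1 s2 s3 i at h
    rw [h]
    exact brg_mem _ _ _ _ s1_or s2_or s3_or i
  · intro a b ha hb
    rw [map_mul, Prod.fst_mul]; exact mul_mem ha hb
  · intro a ha
    rw [map_inv, Prod.fst_inv]; exact inv_mem ha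

/-- the homomorphism to the orientation preserving automorphisms -/
def rO : C5 →* OrPres (r + 2) :=
  ((MonoidHom.fst _ _).comp (rP r)).codRestrict (OrPres (r + 2)) (rP_or r)

/-- the homomorphism to the mapping class group -/
def emb : C5 →* Mod (r + 2) := (QuotientGroup.mk' (InnPres (r + 2))).comp (rO r)

theorem emb_inj : Function.Injective (emb r) := by
  rw [injective_iff_map_eq_one]
  intro g hg
  have h1 : rO r g ∈ InnPres (r + 2) := by
    rw [← QuotientGroup.eq_one_iff]
    exact hg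
  rw [InnPres, Subgroup.mem_subgroupOf] at h1
  obtain ⟨h, hh⟩ := h1
  change MulAut.conj h = (rP r g).1 at hh
  have h2 := det (rP r g).1 (rP r g).2 (rP_mem r g).1 h hh.symm
  rw [rP_snd] at h2
  exact rho_inj g h2

end Pool.Agent.H.MP_9a81ba_al.P
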