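import Pool.Agent.H.MP_9a81ba_al.P.Scan

/-!
Encodings of the elements of the free group by exponents, and twists.

An encoding `(a, [(s₁, a₁), ..., (s_k, a_k)])` for the letter `τ` (with `σ = !τ`) is the word
`σ^a τ^{s₁} σ^{a₁} ... τ^{s_k} σ^{a_k}`.
-/

namespace Pool.Agent.H.MP_9a81ba_al.P

/-- encodings -/
abbrev Enc : Type := ℤ × List (Bool × ℤ)

/-- a letter as a group element -/
def lt (g s : Bool) : F2 := if s then FreeGroup.of g else (FreeGroup.of g)⁻¹

/-- the value of the list part -/
def valL (τ : Bool) : List (Bool × ℤ) → F2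
  | [] => 1
  | (s, a) :: L => lt τ s * FreeGroup.of (!τ) ^ a * valL τ L

/-- the value of an encoding -/
def val (τ : Bool) (e : Enc) : F2 := FreeGroup.of (!τ) ^ e.1 * valL τ e.2

/-- the word of a power -/
def powL (g : Bool) (n : ℤ) : List (Bool × Bool) := List.replicate n.natAbs (g, decide (0 < n))

/-- the word of the list part -/
def flatL (τ : Bool) : List (Bool × ℤ) → List (Bool × Bool)
  | [] => []
  | (s, a) :: L => (τ, s) :: (powL (!τ) a ++ flatL τ L)

/-- the word of an encoding -/
def flat (τ : Bool) (e : Enc) : List (Bool × Bool) := powL (!τ) e.1 ++ flatL τ e.2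

/-- reduced encodings: no `τ^s σ^0 τ^{-s}` -/
def RedE (e : Enc) : Prop := e.2.IsChain fun s t => s.2 ≠ 0 ∨ s.1 = t.1

/-- contribution of the twist to the exponent on the left of `τ^s` -/
def lf (α β : ℤ) : Bool → ℤ
  | true => α
  | false => -β

/-- contribution of the twist to the exponent on the right of `τ^s` -/
def rt (α β : ℤ) : Bool → ℤ
  | true => β
  | false => -α

/-- contribution of the head of a list -/
def hd (α β : ℤ) : List (Bool × ℤ) → ℤ
  | [] => 0
  | (s, _) :: _ => lf α β s

/-- the twist on the list part -/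
def tw (α β : ℤ) : List (Bool × ℤ) → List (Bool × ℤ)
  | [] => []
  | (s, a) :: L => (s, a + rt α β s + hd α β L) :: tw α β L

/-- the twist on encodings -/
def twE (α β γ : ℤ) (e : Enc) : Enc := (γ + e.1 + hd α β e.2, tw α β e.2)

/-- the twist: `τ ↦ σ^α τ σ^β`, `σ ↦ σ` -/
def twh (τ : Bool) (α β : ℤ) : F2 →* F2 :=
  FreeGroup.lift fun g => if g = τ then
    FreeGroup.of (!τ) ^ α * FreeGroup.of τ * FreeGroup.of (!τ) ^ β else FreeGroup.of g

theorem twh_self (τ : Bool) (α β : ℤ) : twh τ α β (FreeGroup.of τ) =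
    FreeGroup.of (!τ) ^ α * FreeGroup.of τ * FreeGroup.of (!τ) ^ β := by
  simp [twh]

theorem twh_not (τ : Bool) (α β : ℤ) :
    twh τ α β (FreeGroup.of (!τ)) = FreeGroup.of (!τ) := by
  simp [twh]

/-- the scan on encodings -/
def scanE : Bool → ℤ → List (Bool × ℤ) → Option ℤ
  | _, _, [] => none
  | l, n, (s, a) :: L => if s = l then some n else scanE s a L

end Pool.Agent.H.MP_9a81ba_al.P
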