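import Pool.Agent.H.MP_9a81ba_al.P.EncWord

/-!
Twists of encodings.
-/

namespace Pool.Agent.H.MP_9a81ba_al.P

theorem encTw_rl (α β : ℤ) : ∀ s s' : Bool, s ≠ s' → rt α β s + lf α β s' = 0
  | true, false, _ => add_neg_cancel β
  | false, true, _ => neg_add_cancel α
  | true, true, h => absurd rfl h
  | false, false, h => absurd rfl h

theorem encTw_chain (α β : ℤ) : ∀ L : List (Bool × ℤ),
    L.IsChain (fun s t => s.2 ≠ 0 ∨ s.1 = t.1) →
      (tw α β L).IsChain fun s t => s.2 ≠ 0 ∨ s.1 = t.1
  | [], _ => List.IsChain.nil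
  | [_], _ => List.IsChain.singleton _
  | (s, a) :: (s', a') :: L, h => by
    rw [List.isChain_cons_cons] at h
    have ih := encTw_chain α β ((s', a') :: L) h.2
    change List.IsChain _ ((s, a + rt α β s + lf α β s') :: (s', a' + rt α β s' + hd α β L) ::
      tw α β L)
    rw [List.isChain_cons_cons]
    refine ⟨?_, ih⟩
    by_cases hs : s = s'
    · exact Or.inr hs
    · refine Or.inl ?_
      have h1 := encTw_rl α β s s' hs
      have h2 : a ≠ 0 := h.1.resolve_right hs
      change a + rt α β s + lf α β s' ≠ 0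
      rw [add_assoc, h1, add_zero]
      exact h2

/-- Proof: `rt α β s + lf α β (!s) = 0`, so the exponents between `τ^s` and `τ^{-s}` do not
change; the signs do not change. Induction on the list part. -/
theorem tw_red (α β γ : ℤ) (e : Enc) (h : RedE e) : RedE (twE α β γ e) :=
  encTw_chain α β e.2 h

theorem encTw_lt (τ : Bool) (α β : ℤ) : ∀ s : Bool, twh τ α β (lt τ s) =
    FreeGroup.of (!τ) ^ lf α β s * (lt τ s * FreeGroup.of (!τ) ^ rt α β s)
  | true => (twh_self τ α β).trans (mul_assoc _ _ _)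
  | false => by
    change twh τ α β (FreeGroup.of τ)⁻¹ = FreeGroup.of (!τ) ^ (-β) *
      ((FreeGroup.of τ)⁻¹ * FreeGroup.of (!τ) ^ (-α))
    rw [map_inv, twh_self, mul_inv_rev, mul_inv_rev, zpow_neg, zpow_neg]

theorem encTw_valL (τ : Bool) (α β : ℤ) : ∀ L : List (Bool × ℤ), twh τ α β (valL τ L) =
    FreeGroup.of (!τ) ^ hd α β L * valL τ (tw α β L)
  | [] => by
    change twh τ α β 1 = FreeGroup.of (!τ) ^ (0 : ℤ) * 1
    rw [map_one, zpow_zero, mul_one]
  | (s, a) :: L => by
    have ih := encTw_valL τ α β L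
    change twh τ α β (lt τ s * FreeGroup.of (!τ) ^ a * valL τ L) =
      FreeGroup.of (!τ) ^ lf α β s *
        (lt τ s * FreeGroup.of (!τ) ^ (a + rt α β s + hd α β L) * valL τ (tw α β L))
    rw [map_mul, map_mul, map_zpow, twh_not, encTw_lt, ih, add_comm a, zpow_add, zpow_add]
    simp only [mul_assoc]

/-- Proof: `twh τ α β (lt τ s) = σ ^ lf α β s * lt τ s * σ ^ rt α β s` (`s = true`, `false`),
`twh τ α β (σ ^ a) = σ ^ a` with `σ = of (!τ)`; so by induction on `L`
`twh τ α β (valL τ L) = σ ^ hd α β L * valL τ (tw α β L)`. -/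
theorem val_tw (τ : Bool) (α β γ : ℤ) (e : Enc) :
    FreeGroup.of (!τ) ^ γ * twh τ α β (val τ e) = val τ (twE α β γ e) := by
  obtain ⟨a, L⟩ := e
  change FreeGroup.of (!τ) ^ γ * twh τ α β (FreeGroup.of (!τ) ^ a * valL τ L) =
    FreeGroup.of (!τ) ^ (γ + a + hd α β L) * valL τ (tw α β L)
  rw [map_mul, map_zpow, twh_not, encTw_valL, zpow_add, zpow_add]
  simp only [mul_assoc]

/-- Proof: induction on `L`. If `L = (s, a) :: L'` and `s = l`: `t = n`, and the new value is
`n + rt α β l + lf α β l = n + (α + β) * sg l`. If `s ≠ l` the induction hypothesis for `L'`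
applies to `scanE s a L'`. -/
theorem scanE_tw (α β : ℤ) (L : List (Bool × ℤ)) : ∀ (l : Bool) (n t : ℤ),
    scanE l n L = some t →
      ∃ s : Bool, scanE l (n + rt α β l + hd α β L) (tw α β L) = some (t + (α + β) * sg s) := by
  induction L with
  | nil =>
    intro l n t h
    exact absurd h (by simp [scanE])
  | cons x L ih =>
    obtain ⟨s, a⟩ := x
    intro l n t h
    change (if s = l then some n else scanE s a L) = some t at h
    change ∃ s' : Bool, (if s = l then some (n + rt α β l + lf α β s) else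
      scanE s (a + rt α β s + hd α β L) (tw α β L)) = some (t + (α + β) * sg s')
    by_cases hs : s = l
    · subst hs
      rw [if_pos rfl] at h
      refine ⟨s, ?_⟩
      rw [if_pos rfl, Option.some_injective _ h]
      congr 1
      cases s
      · change t + -α + -β = t + (α + β) * -1
        ring
      · change t + β + α = t + (α + β) * 1
        ring
    · rw [if_neg hs] at h
      rw [if_neg hs]
      exact ih s a t h

/-- **Twists move the scan.** Proof: `exists_enc`, `toWord_val`, `scan_flat`, `val_tw` with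
`γ = rt α β l`, `tw_red`, `scanE_tw` (`rt α β l + e.1 + hd = e.1 + rt α β l + hd`). -/
theorem tw_scan (τ l : Bool) (α β : ℤ) (y : F2) (t : ℤ) (h : SC τ l y = some t) :
    ∃ s : Bool, SC τ l (FreeGroup.of (!τ) ^ rt α β l * twh τ α β y) =
      some (t + (α + β) * sg s) := by
  obtain ⟨e, he, rfl⟩ := exists_enc τ y
  unfold SC at h ⊢
  rw [toWord_val τ e he, scan_flat] at h
  rw [val_tw, toWord_val τ _ (tw_red α β _ e he), scan_flat]
  obtain ⟨s, hs⟩ := scanE_tw α β e.2 l e.1 t h
  refine ⟨s, ?_⟩
  rw [← hs]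
  change scanE l (rt α β l + e.1 + hd α β e.2) (tw α β e.2) = _
  rw [add_comm (rt α β l)]

end Pool.Agent.H.MP_9a81ba_al.P
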