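import Pool.Agent.H.MP_9a81ba_al.P.EncDef

/-!
Encodings and reduced words.
-/

namespace Pool.Agent.H.MP_9a81ba_al.P

theorem encWord_mk_cons (g s : Bool) (L : List (Bool × Bool)) :
    FreeGroup.mk ((g, s) :: L) = lt g s * FreeGroup.mk L := by
  have h : lt g s = FreeGroup.mk [(g, s)] := by
    cases s
    · rfl
    · rfl
  rw [h, FreeGroup.mul_mk]
  rfl

theorem encWord_mk_replicate (g s : Bool) (k : ℕ) :
    FreeGroup.mk (List.replicate k (g, s)) = lt g s ^ k := by
  induction k with
  | zero => rfl
  | succ k ih => rw [List.replicate_succ, encWord_mk_cons, ih, pow_succ']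

theorem encWord_mk_powL (g : Bool) (n : ℤ) : FreeGroup.mk (powL g n) = FreeGroup.of g ^ n := by
  unfold powL
  rw [encWord_mk_replicate]
  rcases lt_trichotomy n 0 with h | h | h
  · have e1 : decide (0 < n) = false := decide_eq_false (by omega)
    rw [e1]
    change ((FreeGroup.of g)⁻¹) ^ n.natAbs = _
    rw [inv_pow, ← zpow_natCast, ← zpow_neg]
    congr 1
    omega
  · subst h
    simp
  · have e1 : decide (0 < n) = true := decide_eq_true h
    rw [e1]
    change (FreeGroup.of g) ^ n.natAbs = _
    rw [← zpow_natCast]
    congr 1
    omega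

theorem encWord_mk_flatL (τ : Bool) (M : List (Bool × ℤ)) : FreeGroup.mk (flatL τ M) = valL τ M := by
  induction M with
  | nil => rfl
  | cons x M ih =>
    obtain ⟨s, a⟩ := x
    change FreeGroup.mk ((τ, s) :: (powL (!τ) a ++ flatL τ M)) = lt τ s * FreeGroup.of (!τ) ^ a * valL τ M
    rw [encWord_mk_cons, ← FreeGroup.mul_mk, encWord_mk_powL, ih, mul_assoc]

theorem encWord_head (τ : Bool) (M : List (Bool × ℤ)) : ∀ b ∈ (flatL τ M).head?, b.1 = τ := by
  cases M with
  | nil => intro b hb; simp [flatL] at hb
  | cons x M =>
    obtain ⟨s, a⟩ := x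
    intro b hb
    simp only [flatL, List.head?_cons, Option.mem_def, Option.some.injEq] at hb
    rw [← hb]

theorem encWord_red_app (τ s : Bool) (k : ℕ) (L : List (Bool × Bool)) (hL : FreeGroup.IsReduced L)
    (hh : ∀ b ∈ L.head?, b.1 = τ) : FreeGroup.IsReduced (List.replicate k (!τ, s) ++ L) := by
  induction k with
  | zero => exact hL
  | succ k ih =>
    rw [List.replicate_succ, List.cons_append]
    refine List.isChain_cons.mpr ⟨?_, ih⟩
    intro b hb
    cases k with
    | zero =>
      have h1 := hh b hb
      intro h2
      change (!τ) = b.1 at h2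
      rw [h1] at h2
      cases τ <;> exact absurd h2 (by decide)
    | succ k =>
      rw [List.replicate_succ, List.cons_append, List.head?_cons, Option.mem_def, Option.some.injEq] at hb
      rw [← hb]
      intro _
      rfl

theorem encWord_red_flatL (τ : Bool) (M : List (Bool × ℤ)) (h : M.IsChain fun s t => s.2 ≠ 0 ∨ s.1 = t.1) :
    FreeGroup.IsReduced (flatL τ M) := by
  induction M with
  | nil => exact FreeGroup.IsReduced.nil
  | cons x M ih =>
    obtain ⟨s, a⟩ := x
    obtain ⟨h1, h2⟩ := List.isChain_cons.mp h
    have ih' := ih h2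
    change FreeGroup.IsReduced ((τ, s) :: (powL (!τ) a ++ flatL τ M))
    refine List.isChain_cons.mpr ⟨?_, encWord_red_app τ _ _ _ ih' (encWord_head τ M)⟩
    intro b hb
    by_cases ha : a = 0
    · subst ha
      cases M with
      | nil => simp [powL, flatL] at hb
      | cons x' M' =>
        obtain ⟨s', a'⟩ := x'
        have h3 := h1 (s', a') (by simp)
        have h4 : s = s' := by
          rcases h3 with h3 | h3
          · exact absurd rfl h3
          · exact h3
        simp only [powL, flatL, Int.natAbs_zero, List.replicate_zero, List.nil_append, List.head?_cons,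
          Option.mem_def, Option.some.injEq] at hb
        rw [← hb]
        intro _
        exact h4
    · have h5 : 0 < a.natAbs := Int.natAbs_pos.mpr ha
      obtain ⟨k, hk⟩ := Nat.exists_eq_succ_of_ne_zero h5.ne'
      unfold powL at hb
      rw [hk, List.replicate_succ, List.cons_append, List.head?_cons, Option.mem_def,
        Option.some.injEq] at hb
      rw [← hb]
      intro h6
      change τ = (!τ) at h6
      cases τ <;> exact absurd h6 (by decide)

theorem encWord_powL_succ (g s : Bool) (a : ℤ) (h : a ≠ 0 → s = decide (0 < a)) :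
    powL g (a + sg s) = (g, s) :: powL g a := by
  unfold powL
  rcases lt_trichotomy a 0 with ha | ha | ha
  · have e1 : s = false := by
      rw [h ha.ne]
      exact decide_eq_false (by omega)
    subst e1
    have e2 : (a + sg false).natAbs = a.natAbs + 1 := by
      simp only [sg]
      omega
    have e3 : decide (0 < a + sg false) = false := decide_eq_false (by simp only [sg]; omega)
    have e4 : decide (0 < a) = false := decide_eq_false (by omega)
    rw [e2, e3, e4, List.replicate_succ]
  · subst ha
    cases s
    · simp [sg]
    · simp [sg]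
  · have e1 : s = true := by
      rw [h ha.ne']
      exact decide_eq_true ha
    subst e1
    have e2 : (a + sg true).natAbs = a.natAbs + 1 := by
      simp only [sg]
      omega
    have e3 : decide (0 < a + sg true) = true := decide_eq_true (by simp only [sg]; omega)
    have e4 : decide (0 < a) = true := decide_eq_true (by omega)
    rw [e2, e3, e4, List.replicate_succ]

theorem encWord_exists (τ : Bool) (L : List (Bool × Bool)) (hL : FreeGroup.IsReduced L) :
    ∃ e : Enc, RedE e ∧ flat τ e = L := by
  induction L with
  | nil => exact ⟨(0, []), List.isChain_nil, rfl⟩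
  | cons x L ih =>
    obtain ⟨g, s⟩ := x
    obtain ⟨h1, h2⟩ := List.isChain_cons.mp hL
    obtain ⟨⟨a, M⟩, he, hf⟩ := ih h2
    have hf' : powL (!τ) a ++ flatL τ M = L := hf
    by_cases hg : g = τ
    · subst hg
      refine ⟨(0, (s, a) :: M), ?_, ?_⟩
      · refine List.isChain_cons.mpr ⟨?_, he⟩
        intro y hy
        by_cases ha : a = 0
        · right
          subst ha
          cases M with
          | nil => simp at hy
          | cons y' M' =>
            obtain ⟨s', a'⟩ := y'
            simp only [List.head?_cons, Option.mem_def, Option.some.injEq] at hy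
            rw [← hy]
            have h3 := h1 (g, s') (by rw [← hf']; simp [powL, flatL])
            exact h3 rfl
        · left
          exact ha
      · rw [← hf']
        rfl
    · have hg' : g = !τ := by
        cases g <;> cases τ <;> simp_all
      subst hg'
      refine ⟨(a + sg s, M), he, ?_⟩
      have h3 : a ≠ 0 → s = decide (0 < a) := by
        intro ha
        have h5 : 0 < a.natAbs := Int.natAbs_pos.mpr ha
        obtain ⟨k, hk⟩ := Nat.exists_eq_succ_of_ne_zero h5.ne'
        have h6 := h1 (!τ, decide (0 < a)) (by
          rw [← hf']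
          unfold powL
          rw [hk, List.replicate_succ, List.cons_append, List.head?_cons]
          rfl)
        exact h6 rfl
      change powL (!τ) (a + sg s) ++ flatL τ M = (!τ, s) :: L
      rw [encWord_powL_succ _ _ _ h3, ← hf']
      rfl

theorem encWord_scan_replicate (τ l s : Bool) (k : ℕ) (L : List (Bool × Bool)) : ∀ n : ℤ,
    scan τ l n (List.replicate k (!τ, s) ++ L) = scan τ l (n + k * sg s) L := by
  induction k with
  | zero =>
    intro n
    simp
  | succ k ih =>
    intro n
    rw [List.replicate_succ, List.cons_append]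
    have hne : ¬ ((!τ) = τ) := by cases τ <;> decide
    rw [scan, if_neg hne, ih]
    congr 1
    push_cast
    ring

theorem encWord_scan_powL (τ l : Bool) (a : ℤ) (L : List (Bool × Bool)) (n : ℤ) :
    scan τ l n (powL (!τ) a ++ L) = scan τ l (n + a) L := by
  unfold powL
  rw [encWord_scan_replicate]
  congr 2
  rcases lt_trichotomy a 0 with h | h | h
  · have e1 : decide (0 < a) = false := decide_eq_false (by omega)
    rw [e1]
    simp only [sg]
    omega
  · subst h
    simp
  · have e1 : decide (0 < a) = true := decide_eq_true h
    rw [e1]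
    simp only [sg]
    omega

theorem encWord_scan_flatL (τ : Bool) (M : List (Bool × ℤ)) : ∀ (l : Bool) (n : ℤ),
    scan τ l n (flatL τ M) = scanE l n M := by
  induction M with
  | nil =>
    intro l n
    rfl
  | cons x M ih =>
    obtain ⟨s, a⟩ := x
    intro l n
    change scan τ l n ((τ, s) :: (powL (!τ) a ++ flatL τ M)) = if s = l then some n else scanE s a M
    rw [scan, if_pos rfl, encWord_scan_powL, ih, zero_add]

/-- Proof: `of g ^ n = mk (powL g n)` (by cases on the sign of `n`), `lt g s = mk [(g, s)]`,
`mk (L ++ L') = mk L * mk L'`. -/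
theorem mk_flat (τ : Bool) (e : Enc) : FreeGroup.mk (flat τ e) = val τ e := by
  unfold flat val
  rw [← FreeGroup.mul_mk, encWord_mk_powL, encWord_mk_flatL]

/-- Proof: `powL` is a constant list; two letters `τ` with a block of `!τ` between them are not
adjacent, and if the block is empty (`a = 0`) they have the same sign by `RedE`. Induction on the
list part (`List.IsChain` of an append; or `List.isChain_append`). -/
theorem flat_reduced (τ : Bool) (e : Enc) (h : RedE e) : FreeGroup.IsReduced (flat τ e) := by
  exact encWord_red_app τ _ _ _ (encWord_red_flatL τ e.2 h) (encWord_head τ e.2)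

theorem toWord_val (τ : Bool) (e : Enc) (h : RedE e) : (val τ e).toWord = flat τ e := by
  rw [← mk_flat, FreeGroup.toWord_mk, (flat_reduced τ e h).reduce_eq]

/-- Proof: for every reduced list `L` there is `e` with `RedE e` and `flat τ e = L`, by induction
on `L`: `[]` is `(0, [])`; for `(τ, s) :: L` with `L = flat τ (a, M)` take `(0, (s, a) :: M)`: if
`a = 0` and `M` starts with `(s', _)` then `L` starts with `(τ, s')`, so `s = s'`. For
`(!τ, s) :: L` with `L = flat τ (a, M)` take `(a + sg s, M)`: if `a ≠ 0` then `L` starts with
`(!τ, decide (0 < a))`, so `s = decide (0 < a)` and `powL (!τ) (a + sg s) = (!τ, s) ::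
powL (!τ) a`. Apply this to `y.toWord` and use `mk_flat`. -/
theorem exists_enc (τ : Bool) (y : F2) : ∃ e, RedE e ∧ val τ e = y := by
  obtain ⟨e, h1, h2⟩ := encWord_exists τ y.toWord FreeGroup.isReduced_toWord
  refine ⟨e, h1, ?_⟩
  rw [← mk_flat, h2, FreeGroup.mk_toWord]

/-- Proof: `scan τ l n (powL (!τ) a ++ L) = scan τ l (n + a) L` (induction on `|a|`), then
induction on the list part. -/
theorem scan_flat (τ l : Bool) (e : Enc) : scan τ l 0 (flat τ e) = scanE l e.1 e.2 := by
  unfold flat
  rw [encWord_scan_powL, encWord_scan_flatL, zero_add]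

end Pool.Agent.H.MP_9a81ba_al.P
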