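import Pool.Agent.H.MP_9a81ba_al.P.PingDef
import Pool.Agent.H.MP_9a81ba_al.P.Br

/-!
The braid generators in `Aut F2`.
-/

namespace Pool.Agent.H.MP_9a81ba_al.P

/-- `q ↦ q p` -/
def t1 : MulAut F2 := twA true 0 1

/-- `p ↦ p q⁻¹` -/
def t2 : MulAut F2 := twA false 0 (-1)

/-- `q ↦ p q` -/
def t3 : MulAut F2 := twA true 1 0

theorem f2Br_ext (f g : MulAut F2) (hp : f (FreeGroup.of false) = g (FreeGroup.of false))
    (hq : f (FreeGroup.of true) = g (FreeGroup.of true)) : f = g := by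
  refine MulEquiv.ext fun y => ?_
  have h : f.toMonoidHom = g.toMonoidHom := by
    refine FreeGroup.ext_hom _ _ fun b => ?_
    cases b
    · exact hp
    · exact hq
  exact DFunLike.congr_fun h y

theorem f2Br_1p : t1 (FreeGroup.of false) = FreeGroup.of false := twh_not true 0 1

theorem f2Br_1q : t1 (FreeGroup.of true) = FreeGroup.of true * FreeGroup.of false := by
  have h : t1 (FreeGroup.of true) =
    FreeGroup.of false ^ (0 : ℤ) * FreeGroup.of true * FreeGroup.of false ^ (1 : ℤ) :=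
    twh_self true 0 1
  rw [h, zpow_zero, one_mul, zpow_one]

theorem f2Br_2p : t2 (FreeGroup.of false) = FreeGroup.of false * (FreeGroup.of true)⁻¹ := by
  show twh false 0 (-1) (FreeGroup.of false) = _
  have h := twh_self false 0 (-1)
  rw [zpow_zero, one_mul, zpow_neg_one] at h
  exact h

theorem f2Br_2q : t2 (FreeGroup.of true) = FreeGroup.of true := twh_not false 0 (-1)

theorem f2Br_3p : t3 (FreeGroup.of false) = FreeGroup.of false := twh_not true 1 0

theorem f2Br_3q : t3 (FreeGroup.of true) = FreeGroup.of false * FreeGroup.of true := by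
  have h : t3 (FreeGroup.of true) =
    FreeGroup.of false ^ (1 : ℤ) * FreeGroup.of true * FreeGroup.of false ^ (0 : ℤ) :=
    twh_self true 1 0
  rw [h, zpow_zero, mul_one, zpow_one]

theorem f2Br_pow6 (f : MulAut F2) (y : F2) : (f ^ 6) y = f (f (f (f (f (f y))))) := rfl

/-- Proof: check on `p` and `q`. -/
theorem t_braid12 : t1 * t2 * t1 = t2 * t1 * t2 := by
  refine f2Br_ext _ _ ?_ ?_
  · show t1 (t2 (t1 (FreeGroup.of false))) = t2 (t1 (t2 (FreeGroup.of false)))
    simp only [f2Br_1p, f2Br_1q, f2Br_2p, f2Br_2q, map_mul, map_inv]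
    group
  · show t1 (t2 (t1 (FreeGroup.of true))) = t2 (t1 (t2 (FreeGroup.of true)))
    simp only [f2Br_1p, f2Br_1q, f2Br_2p, f2Br_2q, map_mul, map_inv]
    group

/-- Proof: check on `p` and `q`. -/
theorem t_braid23 : t2 * t3 * t2 = t3 * t2 * t3 := by
  refine f2Br_ext _ _ ?_ ?_
  · show t2 (t3 (t2 (FreeGroup.of false))) = t3 (t2 (t3 (FreeGroup.of false)))
    simp only [f2Br_3p, f2Br_3q, f2Br_2p, f2Br_2q, map_mul, map_inv]
    group
  · show t2 (t3 (t2 (FreeGroup.of true))) = t3 (t2 (t3 (FreeGroup.of true)))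
    simp only [f2Br_3p, f2Br_3q, f2Br_2p, f2Br_2q, map_mul, map_inv]
    group

theorem t_comm13 : Commute t1 t3 := twA_comm _ _ _ _ _

/-- Proof: `t1 * t2` maps `p ↦ p * (q p)⁻¹ = q⁻¹`... compute the images of `p` and `q` under
`(t1 * t2) ^ 3` explicitly (short words: `p ↦ q p⁻¹ q⁻¹`, `q ↦ c⁻¹ q⁻¹` with `c = cb true`, up to
checking) and square; the result is `conj (cb true)⁻¹`. -/
theorem t12_pow : ((t1 * t2) ^ 6)⁻¹ = MulAut.conj (cb true) := by
  have hp : (t1 * t2) (FreeGroup.of false) = (FreeGroup.of true)⁻¹ := by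
    show t1 (t2 (FreeGroup.of false)) = _
    simp only [f2Br_1p, f2Br_1q, f2Br_2p, map_mul, map_inv]
    group
  have hq : (t1 * t2) (FreeGroup.of true) = FreeGroup.of true * FreeGroup.of false := by
    show t1 (t2 (FreeGroup.of true)) = _
    rw [f2Br_2q, f2Br_1q]
  have h : (t1 * t2) ^ 6 = MulAut.conj (cb true)⁻¹ := by
    refine f2Br_ext _ _ ?_ ?_
    · rw [f2Br_pow6, MulAut.conj_apply, cb, lt, if_pos rfl]
      simp only [hp, hq, map_mul, map_inv]
      group
    · rw [f2Br_pow6, MulAut.conj_apply, cb, lt, if_pos rfl]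
      simp only [hp, hq, map_mul, map_inv]
      group
  rw [h, map_inv, inv_inv]

/-- Proof: `t2 * t3` maps `p ↦ p q⁻¹`, `q ↦ p`; `(t2 * t3) ^ 3` maps `p ↦ c p⁻¹`, `q ↦ c q⁻¹` with
`c = cb false`; its square is `conj (cb false)`. -/
theorem t23_pow : (t2 * t3) ^ 6 = MulAut.conj (cb false) := by
  have hp : (t2 * t3) (FreeGroup.of false) = FreeGroup.of false * (FreeGroup.of true)⁻¹ := by
    show t2 (t3 (FreeGroup.of false)) = _
    rw [f2Br_3p, f2Br_2p]
  have hq : (t2 * t3) (FreeGroup.of true) = FreeGroup.of false := by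
    show t2 (t3 (FreeGroup.of true)) = _
    simp only [f2Br_3q, f2Br_2p, f2Br_2q, map_mul]
    group
  refine f2Br_ext _ _ ?_ ?_
  · rw [f2Br_pow6, MulAut.conj_apply, cb, lt, if_neg (by decide)]
    simp only [hp, hq, map_mul, map_inv]
    group
  · rw [f2Br_pow6, MulAut.conj_apply, cb, lt, if_neg (by decide)]
    simp only [hp, hq, map_mul, map_inv]
    group

/-- Proof: `fin_cases i`; `t12_pow`, `t23_pow`, `twA_zpow`. -/
theorem brg_t (i : Fin 5) : brg t1 t2 t3 i = rg i := by
  have hz : ∀ (τ : Bool) (α β : ℤ), twA τ α β ^ 6 = twA τ (6 * α) (6 * β) := by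
    intro τ α β
    have h := twA_zpow τ α β 6
    rwa [← zpow_natCast] at *
  fin_cases i
  · exact t23_pow
  · exact hz true 1 0
  · exact hz true 0 1
  · exact t12_pow
  · show (t2 ^ 6)⁻¹ = twA false 0 6
    have h := hz false 0 (-1)
    have h2 : t2 ^ 6 = twA false (6 * 0) (6 * (-1)) := h
    rw [h2, pingDef_inv]
    rfl

end Pool.Agent.H.MP_9a81ba_al.P
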