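import Pool.Agent.H.MP_9a81ba_al.Defs

/-!
Words, translation of words, computability.
-/

namespace Pool.Agent.H.MP_9a81ba_al.P

theorem ev_eq_lift {G : Type*} [Group G] {k : ℕ} (s : Fin k → G) (w : List (Fin k × Bool)) :
    ev s w = FreeGroup.lift s (FreeGroup.mk w) := by
  rw [FreeGroup.lift_mk, ev]
  congr 1
  refine List.map_congr_left fun t _ => ?_
  cases t.2 <;> rfl

/-- translation of words by a table -/
def final_tr {N k : ℕ} (W : Fin N → List (Fin k × Bool)) (v : List (Fin N × Bool)) :
    List (Fin k × Bool) :=
  v.flatMap fun t => if t.2 then W t.1 else (W t.1).reverse.map fun y => (y.1, !y.2)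

theorem final_tr_computable {N k : ℕ} (W : Fin N → List (Fin k × Bool)) :
    Computable (final_tr W) := by
  refine Primrec.to_comp ?_
  unfold final_tr
  refine Primrec.list_flatMap Primrec.id ?_
  have h : Primrec fun t : Fin N × Bool =>
      if t.2 then W t.1 else (W t.1).reverse.map fun y => (y.1, !y.2) := Primrec.dom_finite _
  exact h.comp (Primrec.snd (α := List (Fin N × Bool)) (β := Fin N × Bool))

theorem final_ev_append {G : Type*} [Group G] {k : ℕ} (s : Fin k → G)
    (v w : List (Fin k × Bool)) : ev s (v ++ w) = ev s v * ev s w := by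
  simp [ev]

theorem final_ev_inv {G : Type*} [Group G] {k : ℕ} (s : Fin k → G)
    (v : List (Fin k × Bool)) : ev s (v.reverse.map fun y => (y.1, !y.2)) = (ev s v)⁻¹ := by
  induction v with
  | nil => simp [ev]
  | cons t v ih =>
    rw [List.reverse_cons, List.map_append, final_ev_append, ih]
    have : ev s (t :: v) = ev s [t] * ev s v := final_ev_append s [t] v
    rw [this, mul_inv_rev]
    congr 1
    obtain ⟨i, b⟩ := t
    cases b <;> simp [ev]

theorem final_ev_tr {G : Type*} [Group G] {N k : ℕ} (α : Fin N → G) (s : Fin k → G)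
    (W : Fin N → List (Fin k × Bool)) (hW : ∀ i, ev s (W i) = α i) (v : List (Fin N × Bool)) :
    ev s (final_tr W v) = ev α v := by
  induction v with
  | nil => rfl
  | cons t v ih =>
    have h1 : final_tr W (t :: v) = final_tr W [t] ++ final_tr W v := by
      simp [final_tr]
    have h2 : ev α (t :: v) = ev α [t] * ev α v := final_ev_append α [t] v
    rw [h1, h2, final_ev_append, ih]
    congr 1
    obtain ⟨i, b⟩ := t
    cases b
    · simp only [final_tr, List.flatMap_cons, List.flatMap_nil, List.append_nil,
        Bool.false_eq_true, if_false]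
      rw [final_ev_inv, hW]
      simp [ev]
    · simp only [final_tr, List.flatMap_cons, List.flatMap_nil, List.append_nil, if_true]
      rw [hW]
      simp [ev]

theorem final_comp {α β : Type*} [Primcodable α] [Primcodable β] (p : β → Prop) (f : α → β)
    (hf : Computable f) (hp : ComputablePred p) : ComputablePred fun a => p (f a) := by
  obtain ⟨_, hp⟩ := hp
  exact ⟨fun a => inferInstance, hp.comp hf⟩

end Pool.Agent.H.MP_9a81ba_al.P
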