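import Mathlib

/-!
Finitely generated free groups have finite rank.
-/

namespace Pool.Agent.H.MP_9a81ba_al.P

theorem finite_of_fg {X : Type*} (h : Group.FG (FreeGroup X)) : Finite X := by
  classical
  obtain ⟨S, hS⟩ := Group.fg_def.1 h
  let C : Type := Multiplicative (ZMod 2)
  let R : (FreeGroup X →* C) → (S → C) := fun f s => f s
  have hR : Function.Injective R := by
    intro f g hfg
    have hle : Subgroup.closure (S : Set (FreeGroup X)) ≤ MonoidHom.eqLocus f g := by
      rw [Subgroup.closure_le]
      intro s hs
      exact congrFun hfg ⟨s, hs⟩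
    rw [hS] at hle
    exact MonoidHom.ext fun w => hle (Subgroup.mem_top w)
  haveI : Finite C := inferInstanceAs (Finite (ZMod 2))
  haveI h1 : Finite (FreeGroup X →* C) := Finite.of_injective R hR
  haveI h2 : Finite (X → C) := Finite.of_equiv _ (FreeGroup.lift (α := X) (β := C)).symm
  let D : X → (X → C) := fun x y => if y = x then Multiplicative.ofAdd 1 else 1
  have hD : Function.Injective D := by
    intro x y hxy
    have h3 := congrFun hxy x
    by_contra hne
    simp only [D, if_true, if_neg hne] at h3
    exact absurd h3 (by decide)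
  exact Finite.of_injective D hD

/-- a finitely generated free group is free of finite rank -/
theorem free_fg {G : Type*} [Group G] [IsFreeGroup G] (h : Group.FG G) :
    ∃ n : ℕ, Nonempty (G ≃* FreeGroup (Fin n)) := by
  have e : G ≃* FreeGroup (IsFreeGroup.Generators G) := IsFreeGroup.toFreeGroup G
  have h1 : Group.FG (FreeGroup (IsFreeGroup.Generators G)) :=
    Group.fg_of_surjective (f := e.toMonoidHom) e.surjective
  haveI := finite_of_fg h1
  obtain ⟨n, ⟨f⟩⟩ := Finite.exists_equiv_fin (IsFreeGroup.Generators G)
  exact ⟨n, ⟨e.trans (FreeGroup.freeGroupCongr f)⟩⟩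

end Pool.Agent.H.MP_9a81ba_al.P
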