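import Pool.Agent.H.MP_9a81ba_al.P.MachZ
import Pool.Agent.H.MP_7596fa_lc.RegMach

/-!
The search program with clearing of the registers.
-/

namespace Pool.Agent.H.MP_9a81ba_al.P

open Pool.Agent.H.MP_7596fa_lc Function

/-- the machine with clearing of the registers `0` and `1` at the end -/
def clr (body : Prog) : Prog :=
  Prog.seq (Prog.loop 2 body) (Prog.seq (Prog.loop 0 Prog.skip) (Prog.loop 1 Prog.skip))

private theorem machEb_iter (g : ℕ → ℕ → ℕ) (body : Prog) (hb : ∀ n k,
    Runs body (sst n k 0) (sst n (k + 1) (if g n k = 0 then 1 else 0))) (n : ℕ) (K : List Prog)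
    (k : ℕ) : ∃ t, sstep^[t + 1] (Prog.loop 2 body :: K, sst n k 1) =
      (Prog.loop 2 body :: K, sst n (k + 1) (if g n k = 0 then 1 else 0)) := by
  obtain ⟨t, ht⟩ := runs_sstep (hb n k) (Prog.loop 2 body :: K)
  refine ⟨t + 1, ?_⟩
  rw [Function.iterate_succ_apply]
  have e : sstep (Prog.loop 2 body :: K, sst n k 1) = (body :: Prog.loop 2 body :: K, sst n k 0) := by
    rw [sstep_succ (by simp [sst])]
    congr 1
    funext r
    by_cases h2 : r = 2
    · subst h2; simp [sst]
    · simp [sst, h2]
  rw [e, ht]

private theorem machEb_reach (g : ℕ → ℕ → ℕ) (body : Prog) (hb : ∀ n k,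
    Runs body (sst n k 0) (sst n (k + 1) (if g n k = 0 then 1 else 0))) (n : ℕ) (K : List Prog)
    (j : ℕ) : (∀ k, k < j → g n k = 0) →
      ∃ t, j ≤ t ∧ sstep^[t] (Prog.loop 2 body :: K, sst n 0 1) =
        (Prog.loop 2 body :: K, sst n j 1) := by
  induction j with
  | zero => exact fun _ => ⟨0, le_rfl, rfl⟩
  | succ j ih =>
    intro h
    obtain ⟨t, ht, ht2⟩ := ih fun k hk => h k (by omega)
    obtain ⟨t', ht'⟩ := machEb_iter g body hb n K j
    rw [if_pos (h j (by omega))] at ht'
    refine ⟨(t' + 1) + t, by omega, ?_⟩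
    rw [Function.iterate_add_apply, ht2, ht']

private theorem machEb_no (g : ℕ → ℕ → ℕ) (body : Prog) (hb : ∀ n k,
    Runs body (sst n k 0) (sst n (k + 1) (if g n k = 0 then 1 else 0))) (n : ℕ)
    (h : ∀ k, g n k = 0) (t : ℕ) : (sstep^[t] ([clr body], sst n 0 1)).1 ≠ [] := by
  intro ht
  obtain ⟨t', h1, h2⟩ := machEb_reach g body hb n
    [Prog.seq (Prog.loop 0 Prog.skip) (Prog.loop 1 Prog.skip)] t fun k _ => h k
  have h3 : (sstep^[t' + 1] ([clr body], sst n 0 1)).1 = [] := halts_later ht (by omega)
  rw [Function.iterate_succ_apply] at h3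
  change (sstep^[t'] (Prog.loop 2 body ::
    [Prog.seq (Prog.loop 0 Prog.skip) (Prog.loop 1 Prog.skip)], sst n 0 1)).1 = [] at h3
  rw [h2] at h3
  exact absurd h3 (by simp)

private theorem machEb_yes (g : ℕ → ℕ → ℕ) (body : Prog) (hb : ∀ n k,
    Runs body (sst n k 0) (sst n (k + 1) (if g n k = 0 then 1 else 0))) (n : ℕ)
    (hex : ∃ k, g n k ≠ 0) : ∃ t, sstep^[t] ([clr body], sst n 0 1) = ([], fun _ => 0) := by
  classical
  obtain ⟨t, ht, ht2⟩ := machEb_reach g body hb n
    [Prog.seq (Prog.loop 0 Prog.skip) (Prog.loop 1 Prog.skip)] (Nat.find hex) fun k hk => by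
    have := Nat.find_min hex hk
    push Not at this
    exact this
  obtain ⟨t', ht'⟩ := machEb_iter g body hb n
    [Prog.seq (Prog.loop 0 Prog.skip) (Prog.loop 1 Prog.skip)] (Nat.find hex)
  rw [if_neg (Nat.find_spec hex)] at ht'
  have hK : Runs (Prog.seq (Prog.loop 0 Prog.skip) (Prog.loop 1 Prog.skip))
      (sst n (Nat.find hex + 1) 0) (fun _ => 0) := by
    refine Reg.Runs.to (Runs.seq (Reg.clear 0 _) (Reg.clear 1 _)) ?_
    funext r
    by_cases h1 : r = 1
    · subst h1; simp
    · by_cases h0 : r = 0
      · subst h0; simp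
      · simp [sst, h0, h1]
  obtain ⟨t2, h2⟩ := runs_sstep hK []
  refine ⟨((t2 + 1) + (1 + ((t' + 1) + t))) + 1, ?_⟩
  rw [Function.iterate_succ_apply]
  change sstep^[(t2 + 1) + (1 + ((t' + 1) + t))] (Prog.loop 2 body ::
    [Prog.seq (Prog.loop 0 Prog.skip) (Prog.loop 1 Prog.skip)], sst n 0 1) = _
  rw [Function.iterate_add_apply _ (t2 + 1), Function.iterate_add_apply _ 1,
    Function.iterate_add_apply _ (t' + 1), ht2, ht', Function.iterate_one,
    sstep_zero (by simp [sst]), h2]

/-- The program `clr body` started at `sst n 0 1` terminates with all registers zero if and only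
if the search succeeds.

Proof: the first step is `sstep ([clr body], v) = ([loop 2 body, K], v)` where
`K = seq (loop 0 skip) (loop 1 skip)` (a list with two elements). As in the proof of
`haltsS_iff` (same argument, with the continuation `[K]` instead of `[]` below `loop 2 body`;
`runs_sstep` works for every continuation): if `g n k = 0` for all `k < j` then the configuration
`(loop 2 body :: [K], sst n j 1)` is reached after some `t ≥ j` steps. If all `g n k = 0`, then for
every `t` a configuration with nonempty first component is reached at a time `≥ t`, so by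
`halts_later` the first component is nonempty at time `t`. If `j` is the first `k` with
`g n k ≠ 0`, then `(loop 2 body :: [K], sst n (j + 1) 0)` is reached, then `([K], sst n (j+1) 0)`,
and then by `runs_sstep` applied to `Runs K (sst n (j+1) 0) (fun _ => 0)` (`Runs.seq` of two
instances of `Reg.clear`; the resulting state is `update (update (sst n (j+1) 0) 0 0) 1 0`,
which is zero) the configuration `([], fun _ => 0)`. -/
theorem clr_halts (g : ℕ → ℕ → ℕ) (body : Prog) (hb : ∀ n k,
    Runs body (sst n k 0) (sst n (k + 1) (if g n k = 0 then 1 else 0))) (n : ℕ) :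
    (∃ t, sstep^[t] ([clr body], sst n 0 1) = ([], fun _ => 0)) ↔ ∃ k, g n k ≠ 0 := by
  constructor
  · rintro ⟨t, ht⟩
    by_contra hno
    push Not at hno
    refine machEb_no g body hb n hno t ?_
    rw [ht]
  · exact machEb_yes g body hb n

/-- Whenever `clr body` started at `sst n 0 1` terminates, all registers are zero.

Proof: if `g n k = 0` for all `k` it does not terminate (proof of `clr_halts`: for every time `t`
there is a later time at which the first component is nonempty, and `halts_later`). Otherwise
`clr_halts` gives a time `t0` with configuration `([], 0)`; if `([], v)` is reached at time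
`t`, then both are equal to the configuration at time `max t t0` (`sstep_nil`). -/
theorem clr_zero (g : ℕ → ℕ → ℕ) (body : Prog) (hb : ∀ n k,
    Runs body (sst n k 0) (sst n (k + 1) (if g n k = 0 then 1 else 0))) (n : ℕ) (t : ℕ) (v : St)
    (h : sstep^[t] ([clr body], sst n 0 1) = ([], v)) : v = fun _ => 0 := by
  by_cases hex : ∃ k, g n k ≠ 0
  · obtain ⟨t0, ht0⟩ := machEb_yes g body hb n hex
    have h1 : sstep^[t0 + t] ([clr body], sst n 0 1) = ([], v) := by
      rw [Function.iterate_add_apply, h, sstep_nil]
    have h2 : sstep^[t + t0] ([clr body], sst n 0 1) = ([], fun _ => 0) := by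
      rw [Function.iterate_add_apply, ht0, sstep_nil]
    rw [Nat.add_comm, h1] at h2
    exact congrArg Prod.snd h2
  · push Not at hex
    exfalso
    refine machEb_no g body hb n hex t ?_
    rw [h]

end Pool.Agent.H.MP_9a81ba_al.P
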