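import Pool.Agent.H.MP_9a81ba_al.P.MachEa
import Pool.Agent.H.MP_9a81ba_al.P.MachEb

/-!
A machine with undecidable halting problem which clears its register before it halts.
-/

namespace Pool.Agent.H.MP_9a81ba_al.P

open Pool.Agent.H.MP_7596fa_lc Function

/-- **Universality**: there is a machine of type `PM` for which the halting problem with final
register `1` is undecidable.

Proof: copy the proof of `exists_mach` with `clr body` instead of `Prog.loop 2 body`
(`R = max R0 3` where `R0` is a bound for the registers of `clr body`); the machine is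
`⟨theMach (clr body) R, theMach_b_pos .., ..⟩`, `HZ q0 (2 ^ n * pr 2)` is
`∃ t, step^[t] (q0, enc R (sst n 0 1)) = (qh, 1)` by `PM.stepZ_nat` and `enc_sst`; use
`theMach_halts`, `clr_zero` and `clr_halts`. -/
theorem exists_pm : ∃ (M : PM) (c : ℕ),
    ¬ ComputablePred fun n : ℕ => M.HZ M.q0 ((2 ^ n * c : ℕ) : ℤ) := by
  let g : ℕ → ℕ → ℕ := fun n k =>
    bif ((Nat.Partrec.Code.evaln k (Denumerable.ofNat Nat.Partrec.Code n)) 0).isSome then 1 else 0
  have hg : Primrec₂ g := by
    refine Primrec.cond (Primrec.option_isSome.comp ?_) (Primrec.const 1) (Primrec.const 0)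
    have h1 : Primrec fun a : ℕ × ℕ =>
        (((a.2, Denumerable.ofNat Nat.Partrec.Code a.1), 0) : (ℕ × Nat.Partrec.Code) × ℕ) :=
      (Primrec.snd.pair ((Primrec.ofNat _).comp Primrec.fst)).pair (Primrec.const 0)
    exact Nat.Partrec.Code.primrec_evaln.comp h1
  obtain ⟨body, hbody⟩ := exists_body g hg
  obtain ⟨R0, hR0⟩ := Prog.exists_bd (clr body)
  let R := max R0 3
  have hR : (clr body).bd R := Prog.bd_mono (le_max_left _ _) _ hR0
  let M : PM := { toMach := theMach (clr body) R
                  hb := theMach_b_pos (clr body) R hR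
                  hbh := fun j => (theMach_qh (clr body) R j).1
                  hch := fun j => (theMach_qh (clr body) R j).2 }
  have key : ∀ n, M.HZ M.q0 ((2 ^ n * pr 2 : ℕ) : ℤ) ↔ ∃ k, g n k ≠ 0 := by
    intro n
    rw [← enc_sst R n (le_max_right _ _), ← clr_halts g body hbody n,
      ← theMach_halts (clr body) R hR (sst n 0 1) (fun t v hv => clr_zero g body hbody n t v hv)]
    unfold PM.HZ
    refine exists_congr fun t => ?_
    rw [M.stepZ_nat]
    constructor
    · intro h
      have h1 := congrArg Prod.fst h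
      have h2 := congrArg Prod.snd h
      exact Prod.ext h1 (Nat.cast_injective (R := ℤ) (by rw [Nat.cast_one]; exact h2))
    · intro h
      have h1 := congrArg Prod.fst h
      have h2 := congrArg Prod.snd h
      refine Prod.ext h1 ?_
      show (((M.toMach.step^[t] (M.q0, enc R (sst n 0 1))).2 : ℕ) : ℤ) = 1
      have h3 : (M.toMach.step^[t] (M.q0, enc R (sst n 0 1))).2 = 1 := h2
      rw [h3, Nat.cast_one]
  refine ⟨M, pr 2, fun h => ?_⟩
  refine ComputablePred.halting_problem 0 ?_
  refine ComputablePred.computable_of_manyOneReducible ?_ h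
  refine ⟨Encodable.encode, Computable.encode, fun c => ?_⟩
  show _ ↔ M.HZ M.q0 ((2 ^ (Encodable.encode c) * pr 2 : ℕ) : ℤ)
  rw [key]
  constructor
  · intro hd
    obtain ⟨x, hx⟩ := Part.dom_iff_mem.mp hd
    obtain ⟨k, hk⟩ := Nat.Partrec.Code.evaln_complete.mp hx
    refine ⟨k, ?_⟩
    simp only [g, Denumerable.ofNat_encode]
    rw [Option.mem_def] at hk
    rw [hk]
    simp
  · rintro ⟨k, hk⟩
    rw [Part.dom_iff_mem]
    simp only [g, Denumerable.ofNat_encode] at hk
    rcases hx : Nat.Partrec.Code.evaln k c 0 with _ | x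
    · rw [hx] at hk
      simp at hk
    · exact ⟨x, Nat.Partrec.Code.evaln_complete.mpr ⟨k, hx⟩⟩

end Pool.Agent.H.MP_9a81ba_al.P
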