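import Pool.Agent.H.MP_9a81ba_al.P.MembKap
import Pool.Agent.H.MP_9a81ba_al.P.FreeRank

/-!
The range of `psi` is a free group of finite rank.
-/

namespace Pool.Agent.H.MP_9a81ba_al.P.PM

variable (M : PM)

theorem ker_eq : M.psi.ker = M.kap.ker := by
  ext w
  rw [MonoidHom.mem_ker, MonoidHom.mem_ker]
  constructor
  · exact M.kap_eq_one w
  · intro h
    rw [← M.psi_kap, h, map_one]

/-- The range of `psi` is isomorphic to the range of `kap`, a finitely generated subgroup of a free
group. -/
theorem range_free : ∃ n : ℕ, Nonempty (M.psi.range ≃* FreeGroup (Fin n)) := by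
  haveI : Finite M.Lt := by
    unfold PM.Lt
    infer_instance
  obtain ⟨n, ⟨e⟩⟩ := free_fg (G := M.kap.range) inferInstance
  exact ⟨n, ⟨((QuotientGroup.quotientKerEquivRange M.psi).symm.trans
    (QuotientGroup.quotientMulEquivOfEq M.ker_eq)).trans
    ((QuotientGroup.quotientKerEquivRange M.kap).trans e)⟩⟩

end Pool.Agent.H.MP_9a81ba_al.P.PM
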