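import Mathlib

/-!
The key identity of the positive direction.
-/

namespace Pool.Agent.H.MP_9a81ba_al.P

private theorem keyId_conj {Γ : Type*} [Group Γ] (X Y : Γ) (k : ℤ) :
    (X⁻¹ * Y * X) ^ k = X⁻¹ * Y ^ k * X := by
  have h := conj_zpow (a := X⁻¹) (b := Y) (i := k)
  rwa [inv_inv] at h

private theorem keyId_pow {Γ : Type*} [Group Γ] (S T : Γ) (hST : Commute S T) (s k : ℤ) :
    (S ^ s * T⁻¹) ^ k = S ^ (s * k) * T ^ (-k) := by
  rw [((hST.zpow_left s).inv_right).mul_zpow, ← zpow_mul, inv_zpow, zpow_neg]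

/-- The key identity, in an arbitrary group: `b` commutes with `S`, `S` with `T`, `T` with
`c`. Here `G` is the path to the state `q`, `G'` the path to `q'`, `i1 = idx π + 1`, `A` the modulus,
`β` the slope, `γ` the constant, `z = A m + j`, `z' = β m + γ`.

Proof: `(S ^ s * T⁻¹) ^ k = S ^ (s * k) * T ^ (-k)` since `S` and `T` commute; conjugates have
powers `(X⁻¹ * Y * X) ^ k = X⁻¹ * Y ^ k * X` (`conj_zpow` type). Write `GD = b * G`,
`GE = c * S ^ j * b * G`, `GC = (c ^ i1)⁻¹ * G'`. The right-hand side is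
`S ^ z' * G' * (G'⁻¹ * S ^ (-z') * T ^ z' * G') * (GC⁻¹ * S ^ z' * T ^ (-z') * GC) *
 (G'⁻¹ * c ^ i1 * S ^ (-γ) * b * GE) * (GE⁻¹ * S ^ (-(β m)) * T ^ m * GE) *
 (GD⁻¹ * S ^ (A m) * T ^ (-m) * GD)`
`= T ^ z' * c ^ i1 * S ^ z' * T ^ (-z') * S ^ (-γ) * b * S ^ (-(β m)) * T ^ m *
 (GE * GD⁻¹) * S ^ (A m) * T ^ (-m) * b * G`, where `GE * GD⁻¹ = c * S ^ j`. As `T` commutes with
`c` and `S`, and `S` with `b`, the first part is `c ^ i1 * S ^ (z' - γ) * b * S ^ (-(β m)) * T ^ m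
= c ^ i1 * b * T ^ m`; and `T ^ m * c * S ^ j * S ^ (A m) * T ^ (-m) = c * S ^ (A m + j)`; finally
`S ^ z * b = b * S ^ z`. -/
theorem key_id {Γ : Type*} [Group Γ] (b S T c G G' : Γ) (hbS : Commute b S) (hST : Commute S T)
    (hTc : Commute T c) (i1 j : ℕ) (A β γ m : ℤ) :
    c ^ i1 * b * c * b * (S ^ (A * m + j) * G) = S ^ (β * m + γ) * G' *
      ((G'⁻¹ * (S ^ (1 : ℤ) * T⁻¹) * G') ^ (-(β * m + γ)) *
       (((c ^ i1)⁻¹ * G')⁻¹ * (S ^ (1 : ℤ) * T⁻¹) * ((c ^ i1)⁻¹ * G')) ^ (β * m + γ) *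
       (G'⁻¹ * (c ^ i1 * S ^ (-γ) * b * c * S ^ j * b) * G) *
       ((c * S ^ j * b * G)⁻¹ * (S ^ β * T⁻¹) * (c * S ^ j * b * G)) ^ (-m) *
       ((b * G)⁻¹ * (S ^ A * T⁻¹) * (b * G)) ^ m) := by
  rw [keyId_conj, keyId_conj, keyId_conj, keyId_conj, keyId_pow S T hST, keyId_pow S T hST,
    keyId_pow S T hST, keyId_pow S T hST]
  simp only [mul_inv_rev, inv_inv, mul_assoc, mul_inv_cancel_left, inv_mul_cancel_left, one_mul,
    neg_neg, mul_neg]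
  obtain ⟨z, hz⟩ : ∃ z, z = β * m + γ := ⟨_, rfl⟩
  obtain ⟨C, hC⟩ : ∃ C, C = c ^ i1 := ⟨_, rfl⟩
  have hTC : Commute T C := by rw [hC]; exact hTc.pow_right i1
  rw [← hz, ← hC]
  have hTS : Commute T S := hST.symm
  have hSb : Commute S b := hbS.symm
  have e1 : ∀ R : Γ, S ^ z * (S ^ (-z) * R) = R := by
    intro R
    rw [zpow_neg, mul_inv_cancel_left]
  have e2 : ∀ R : Γ, T ^ z * (C * (S ^ z * (T ^ (-z) * R))) = C * (S ^ z * R) := by
    intro R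
    rw [(hTC.zpow_left z).left_comm, (hTS.zpow_zpow z z).left_comm, zpow_neg, mul_inv_cancel_left]
  have e3 : ∀ R : Γ, S ^ z * (S ^ (-γ) * (b * (S ^ (-(β * m)) * R))) = b * R := by
    intro R
    rw [← mul_assoc (S ^ z), ← zpow_add, show z + -γ = β * m by rw [hz]; ring,
      (hSb.zpow_left (β * m)).left_comm, zpow_neg, mul_inv_cancel_left]
  have e4 : ∀ R : Γ, T ^ m * (c * (S ^ j * (S ^ (A * m) * (T ^ (-m) * R)))) =
      c * (S ^ j * (S ^ (A * m) * R)) := by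
    intro R
    rw [(hTc.zpow_left m).left_comm, ((hTS.zpow_left m).pow_right j).left_comm,
      (hTS.zpow_zpow m (A * m)).left_comm, zpow_neg, mul_inv_cancel_left]
  have e5 : S ^ j * (S ^ (A * m) * (b * G)) = b * (S ^ (A * m + j) * G) := by
    rw [← mul_assoc (S ^ j), ← zpow_natCast S j, ← zpow_add, add_comm (j : ℤ),
      (hSb.zpow_left (A * m + j)).left_comm]
  rw [e1, e2, e3, e4, e5]

end Pool.Agent.H.MP_9a81ba_al.P
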