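import Pool.Agent.H.MP_9a81ba_al.P.MembKap
import Pool.Agent.H.MP_9a81ba_al.P.KeyId

/-!
The membership problem for the range of `psi`.
-/

namespace Pool.Agent.H.MP_9a81ba_al.P

namespace PM

variable (M : PM)

/-- the test element -/
def te (n : ℤ) : C5 := (gn 1 ^ n)⁻¹ * gn 4 * gn 1 ^ n

/-- One step. Proof: `key_id` for `b = gn 0, S = gn 1, T = gn 2, c = gn 3`, `G = Gq q`,
`G' = Gq (tgt q j)`, `i1 = idx (q, j) + 1`, `β = b q j`, `γ = c q j`: the last factor is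
`psi (lam (Ch q' 0) ^ (-z') * lam (Ch q' (idx (q,j)).succ) ^ z' * bet (q, j) *
lam (E (q, j)) ^ (-m) * lam (D q) ^ m)` (all these letters are admissible, `Cn_tg`; `Gv (Ch q' 0) =
(gn 3 ^ 0)⁻¹ * Gq q' = Gq q'`). -/
theorem step_elem (q : Fin M.nQ) (j : Fin M.A) (m : ℤ) (hq : q ≠ M.qh) (hc : M.Cn q) :
    ∃ h ∈ M.psi.range, (gn 3 ^ ((M.idx (q, j) : ℕ) + 1) * gn 0 * gn 3 * gn 0) *
      (gn 1 ^ (M.A * m + ((j : ℕ) : ℤ)) * M.Gq q) =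
        gn 1 ^ ((M.b q j : ℤ) * m + M.c q j) * M.Gq (M.tgt q j) * h := by
  have h01 : Commute (gn 0) (gn 1) := gn_comm 0
  have h12 : Commute (gn 1) (gn 2) := gn_comm 1
  have h23 : Commute (gn 2) (gn 3) := gn_comm 2
  have hc' : M.Cn (M.tgt q j) := M.Cn_tg (q, j) hq hc
  have key := key_id (gn 0) (gn 1) (gn 2) (gn 3) (M.Gq q) (M.Gq (M.tgt q j)) h01 h12 h23
    ((M.idx (q, j) : ℕ) + 1) (j : ℕ) (M.A : ℤ) (M.b q j : ℤ) (M.c q j : ℤ) m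
  have e1 : M.psi (M.lam (M.Ch (M.tgt q j) 0)) =
      (M.Gq (M.tgt q j))⁻¹ * (gn 1 ^ (1 : ℤ) * (gn 2)⁻¹) * M.Gq (M.tgt q j) := by
    rw [M.psi_lam (M.Ch (M.tgt q j) 0) hc']
    have hG : M.Gv (M.Ch (M.tgt q j) 0) = M.Gq (M.tgt q j) := by
      show (gn 3 ^ ((0 : Fin (M.K + 1)) : ℕ))⁻¹ * M.Gq (M.tgt q j) = _
      simp
    rw [hG]
    rfl
  have e2 : M.psi (M.lam (M.Ch (M.tgt q j) (M.idx (q, j)).succ)) =
      ((gn 3 ^ ((M.idx (q, j) : ℕ) + 1))⁻¹ * M.Gq (M.tgt q j))⁻¹ * (gn 1 ^ (1 : ℤ) * (gn 2)⁻¹) *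
        ((gn 3 ^ ((M.idx (q, j) : ℕ) + 1))⁻¹ * M.Gq (M.tgt q j)) := by
    rw [M.psi_lam (M.Ch (M.tgt q j) (M.idx (q, j)).succ) hc']
    have hG : M.Gv (M.Ch (M.tgt q j) (M.idx (q, j)).succ) =
        (gn 3 ^ ((M.idx (q, j) : ℕ) + 1))⁻¹ * M.Gq (M.tgt q j) := by
      show (gn 3 ^ (((M.idx (q, j)).succ : Fin (M.K + 1)) : ℕ))⁻¹ * M.Gq (M.tgt q j) = _
      rw [Fin.val_succ]
    rw [hG]
    rfl
  have e3 : M.psi (M.bet (q, j)) = (M.Gq (M.tgt q j))⁻¹ *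
      (gn 3 ^ ((M.idx (q, j) : ℕ) + 1) * gn 1 ^ (-(M.c q j : ℤ)) * gn 0 * gn 3 *
        gn 1 ^ (j : ℕ) * gn 0) * M.Gq q := M.psi_bet (q, j) ⟨hq, hc⟩
  have e4 : M.psi (M.lam (M.E (q, j))) =
      (gn 3 * gn 1 ^ (j : ℕ) * gn 0 * M.Gq q)⁻¹ * (gn 1 ^ (M.b q j : ℤ) * (gn 2)⁻¹) *
        (gn 3 * gn 1 ^ (j : ℕ) * gn 0 * M.Gq q) := M.psi_lam _ ⟨hq, hc⟩
  have e5 : M.psi (M.lam (M.D q)) =
      (gn 0 * M.Gq q)⁻¹ * (gn 1 ^ (M.A : ℤ) * (gn 2)⁻¹) * (gn 0 * M.Gq q) :=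
    M.psi_lam _ ⟨hq, hc⟩
  refine ⟨M.psi (M.lam (M.Ch (M.tgt q j) 0) ^ (-((M.b q j : ℤ) * m + M.c q j)) *
    M.lam (M.Ch (M.tgt q j) (M.idx (q, j)).succ) ^ ((M.b q j : ℤ) * m + M.c q j) *
    M.bet (q, j) * M.lam (M.E (q, j)) ^ (-m) * M.lam (M.D q) ^ m), ⟨_, rfl⟩, ?_⟩
  rw [map_mul, map_mul, map_mul, map_mul, map_zpow, map_zpow, map_zpow, map_zpow, e1, e2, e3, e4,
    e5]
  exact key

/-- **Positive direction.** Proof: induction on `t` (all `q`, `z`). If `(q, z) = (qh, 1)` (in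
particular if `t = 0`) this is `psi yl` (`psi_yl`). If `q = qh` then `z = 1` by `HZ_qh`. If
`q ≠ qh`, write `z = A m + j` (`eq_res`); `e = S ^ z * Gq q`,
`e' = S ^ z' * Gq q'`, `f * e = e' * h` (`step_elem`), and `f = c ^ (i+1) * b * c * b` commutes
with `x = gn 4` (`gn_comm 3`, `gn_comm 4`); so `e⁻¹ * x * e = h⁻¹ * (e'⁻¹ * x * e') * h`. -/
theorem pos_aux (t : ℕ) : ∀ (q : Fin M.nQ) (z : ℤ), M.Cn q → M.stepZ^[t] (q, z) = (M.qh, 1) →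
    (gn 1 ^ z * M.Gq q)⁻¹ * gn 4 * (gn 1 ^ z * M.Gq q) ∈ M.psi.range := by
  have hbase : M.Cn M.qh →
      (gn 1 ^ (1 : ℤ) * M.Gq M.qh)⁻¹ * gn 4 * (gn 1 ^ (1 : ℤ) * M.Gq M.qh) ∈ M.psi.range := by
    intro h
    refine ⟨M.yl, ?_⟩
    rw [M.psi_yl h, zpow_one]
    group
  induction t with
  | zero =>
    intro q z hc h
    have h1 : q = M.qh := congrArg Prod.fst h
    have h2 : z = 1 := congrArg Prod.snd h
    subst h1 h2
    exact hbase hc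
  | succ t ih =>
    intro q z hc h
    by_cases hq : q = M.qh
    · subst hq
      have h2 : z = 1 := (M.HZ_qh z).1 ⟨t + 1, h⟩
      subst h2
      exact hbase hc
    · rw [Function.iterate_succ_apply] at h
      obtain ⟨m, j, hz⟩ : ∃ (m : ℤ) (j : Fin M.A), z = M.A * m + ((j : ℕ) : ℤ) :=
        ⟨_, _, M.eq_res z⟩
      subst hz
      rw [M.stepZ_eq] at h
      have h3 := ih (M.tgt q j) _ (M.Cn_tg (q, j) hq hc) h
      obtain ⟨k, hk, h4⟩ := M.step_elem q j m hq hc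
      have h34 : Commute (gn 3) (gn 4) := gn_comm 3
      have h40 : Commute (gn 4) (gn 0) := gn_comm 4
      have hf : Commute (gn 3 ^ ((M.idx (q, j) : ℕ) + 1) * gn 0 * gn 3 * gn 0) (gn 4) :=
        (((h34.pow_left _).mul_left h40.symm).mul_left h34).mul_left h40.symm
      have h5 : (gn 1 ^ (M.A * m + ((j : ℕ) : ℤ)) * M.Gq q)⁻¹ * gn 4 *
          (gn 1 ^ (M.A * m + ((j : ℕ) : ℤ)) * M.Gq q) =
          k⁻¹ * ((gn 1 ^ ((M.b q j : ℤ) * m + M.c q j) * M.Gq (M.tgt q j))⁻¹ * gn 4 *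
            (gn 1 ^ ((M.b q j : ℤ) * m + M.c q j) * M.Gq (M.tgt q j))) * k := by
        have h6 : gn 1 ^ (M.A * m + ((j : ℕ) : ℤ)) * M.Gq q =
            (gn 3 ^ ((M.idx (q, j) : ℕ) + 1) * gn 0 * gn 3 * gn 0)⁻¹ *
              (gn 1 ^ ((M.b q j : ℤ) * m + M.c q j) * M.Gq (M.tgt q j) * k) := by
          rw [← h4, inv_mul_cancel_left]
        rw [h6]
        have h7 : (gn 3 ^ ((M.idx (q, j) : ℕ) + 1) * gn 0 * gn 3 * gn 0) * gn 4 *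
            (gn 3 ^ ((M.idx (q, j) : ℕ) + 1) * gn 0 * gn 3 * gn 0)⁻¹ = gn 4 := by
          rw [hf.eq, mul_inv_cancel_right]
        generalize (gn 3 ^ ((M.idx (q, j) : ℕ) + 1) * gn 0 * gn 3 * gn 0) = f at h7
        generalize gn 1 ^ ((M.b q j : ℤ) * m + M.c q j) * M.Gq (M.tgt q j) = e'
        calc (f⁻¹ * (e' * k))⁻¹ * gn 4 * (f⁻¹ * (e' * k)) =
              k⁻¹ * (e'⁻¹ * (f * gn 4 * f⁻¹) * e') * k := by group
          _ = _ := by rw [h7]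
      rw [h5]
      exact M.psi.range.mul_mem (M.psi.range.mul_mem (M.psi.range.inv_mem hk) h3) hk

/-- **Negative direction.** Proof: `te n = psi w`; by `Rt_psi`,
`Th (te n) (w0, false, 1) = (w0, false, kap w)`. If `HZ q0 n` fails then `(Ch q0 0, n)` is not in
`CC` and `x` flips the Boolean there (`x_flip`), and the powers of `gn 1` do not change it
(`Rt_S_zpow`), so the result would be `(w0, true, _)`. -/
theorem neg_aux (n : ℤ) (h : te n ∈ M.psi.range) : M.HZ M.q0 n := by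
  obtain ⟨w, hw⟩ := h
  by_contra hn
  have h1 := M.Rt_psi w false 1
  rw [hw] at h1
  have hS := M.Rt_S_zpow (M.Ch M.q0 0) 0 n
  have hCC : ¬ M.CC (M.Ch M.q0 0, 0 + n) := by
    rw [zero_add]
    exact hn
  have h2 : M.Th (te n) (M.w0, false, 1) = (M.w0, true, (1 : M.W)⁻¹ * (1 * 1)) := by
    unfold te
    rw [map_mul, map_mul, Equiv.Perm.mul_apply, Equiv.Perm.mul_apply]
    show M.Th (gn 1 ^ n)⁻¹ (M.Th (gn 4) (M.Th (gn 1 ^ n) ((M.Ch M.q0 0, 0), false, 1))) = _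
    rw [hS false 1, M.x_flip _ hCC]
    exact hS.inv true (1 * 1)
  rw [h2] at h1
  have h3 := congrArg (fun s => s.2.1) h1
  simp at h3

/-- **Part II.** -/
theorem memb (n : ℤ) : te n ∈ M.psi.range ↔ M.HZ M.q0 n := by
  refine ⟨M.neg_aux n, fun h => ?_⟩
  obtain ⟨t, ht⟩ := h
  have h1 := M.pos_aux t M.q0 n M.Cn_q0 ht
  rwa [M.Gq_q0, mul_one] at h1

end PM

end Pool.Agent.H.MP_9a81ba_al.P
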