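import Pool.Agent.H.MP_9a81ba_al.Defs

/-!
The definitions used in the final statement, in short form.
-/

namespace Pool.Agent.H.MP_9a81ba_al.P

/-- the fundamental group of the closed orientable surface of genus `n`:
`⟨a_i, b_i | [a_1,b_1] ... [a_n,b_n]⟩` -/
def SGrp (n : ℕ) : Type := PresentedGroup ({surfRel n} : Set (FreeGroup (Fin n × Bool)))

instance instGroupSGrp (n : ℕ) : Group (SGrp n) := QuotientGroup.Quotient.group _

/-- the generator `a_i` (`x = (i, false)`) or `b_i` (`x = (i, true)`) -/
def SGrp.gen (n : ℕ) (x : Fin n × Bool) : SGrp n := PresentedGroup.of x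

/-- The cup product pairing on `H^1 = Hom(π₁, ℤ)` evaluated on the fundamental class:
`∑ i, (λ(a_i) μ(b_i) - λ(b_i) μ(a_i))`. -/
def scup (n : ℕ) (l m : SGrp n →* Multiplicative ℤ) : ℤ :=
  ∑ i : Fin n, ((l (SGrp.gen n (i, false))).toAdd * (m (SGrp.gen n (i, true))).toAdd -
    (l (SGrp.gen n (i, true))).toAdd * (m (SGrp.gen n (i, false))).toAdd)

/-- the pull back of a class in `H^1` under an automorphism -/
def spull (n : ℕ) (φ : MulAut (SGrp n)) (l : SGrp n →* Multiplicative ℤ) :
    SGrp n →* Multiplicative ℤ := l.comp φ.toMonoidHom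

/-- `φ` preserves the cup product pairing, that is, it preserves the orientation -/
def SOr (n : ℕ) (φ : MulAut (SGrp n)) : Prop :=
  ∀ l m : SGrp n →* Multiplicative ℤ, scup n (spull n φ l) (spull n φ m) = scup n l m

theorem SOr.one (n : ℕ) : SOr n 1 := (OrPres n).one_mem'

theorem SOr.mul (n : ℕ) {φ ψ : MulAut (SGrp n)} (h1 : SOr n φ) (h2 : SOr n ψ) :
    SOr n (φ * ψ) := (OrPres n).mul_mem' h1 h2

theorem SOr.inv (n : ℕ) {φ : MulAut (SGrp n)} (h1 : SOr n φ) :
    SOr n φ⁻¹ := (OrPres n).inv_mem' h1

/-- the orientation preserving automorphisms of the surface group -/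
def SAut (n : ℕ) : Subgroup (MulAut (SGrp n)) where
  carrier := SOr n
  one_mem' := SOr.one n
  mul_mem' := SOr.mul n
  inv_mem' := SOr.inv n

/-- the inner automorphisms of the surface group, inside the orientation preserving ones -/
def SInn (n : ℕ) : Subgroup (SAut n) :=
  (MulAut.conj : SGrp n →* MulAut (SGrp n)).range.subgroupOf (SAut n)

theorem SInn.normal (n : ℕ) : (SInn n).Normal :=
  instNormalSubtypeMulAutSurfMemSubgroupOrPresInnPres n

/-- The mapping class group of the closed orientable surface of genus `n`, as the group of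
orientation preserving outer automorphisms of its fundamental group. -/
def ModG (n : ℕ) : Type := SAut n ⧸ SInn n

instance instGroupModG (n : ℕ) : Group (ModG n) :=
  haveI := SInn.normal n
  QuotientGroup.Quotient.group (SInn n)

end Pool.Agent.H.MP_9a81ba_al.P
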