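import Pool.Agent.H.MP_9a81ba_al.P.Emb
import Pool.Agent.H.MP_9a81ba_al.P.MembPos
import Pool.Agent.H.MP_9a81ba_al.P.MembFree
import Pool.Agent.H.MP_9a81ba_al.P.MachEx
import Pool.Agent.H.MP_9a81ba_al.P.Stmt
import Pool.Agent.H.MP_9a81ba_al.P.FinTools

/-!
Final assembly: undecidable membership problem for a finitely presented subgroup of the mapping
class group, for every genus `≥ 2`.
-/

namespace Pool.Agent.H.MP_9a81ba_al.P

/-- the word `S^(-n) x S^n` -/
def tw0 (n : ℕ) : List (Fin 2 × Bool) :=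
  List.replicate n (0, false) ++ (1, true) :: List.replicate n (0, true)

theorem ev_replicate {G : Type*} [Group G] {k : ℕ} (s : Fin k → G) (n : ℕ) (t : Fin k × Bool) :
    ev s (List.replicate n t) = (if t.2 then s t.1 else (s t.1)⁻¹) ^ n := by
  simp [ev]

theorem ev_tw0 {G : Type*} [Group G] (s : Fin 2 → G) (n : ℕ) :
    ev s (tw0 n) = (s 0 ^ n)⁻¹ * s 1 * s 0 ^ n := by
  unfold tw0
  rw [final_ev_append, ev_replicate]
  have h : ev s ((1, true) :: List.replicate n (0, true)) =
      ev s [(1, true)] * ev s (List.replicate n (0, true)) := final_ev_append s [(1, true)] _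
  rw [h, ev_replicate]
  simp [ev, mul_assoc]

theorem tw0_comp (c : ℕ) : Computable fun n : ℕ => tw0 (2 ^ n * c) := by
  refine Primrec.to_comp ?_
  have h1 : Primrec fun n : ℕ => 2 ^ n * c := by
    have h0 : Primrec fun n : ℕ => n.rec (motive := fun _ => ℕ) 1 fun _ m => m * 2 :=
      Primrec.nat_rec₁ 1 (Primrec.nat_mul.comp₂ (Primrec.snd.to₂) (Primrec.const 2).to₂)
    have h2 : (fun n : ℕ => 2 ^ n * c) = fun n : ℕ =>
        (n.rec (motive := fun _ => ℕ) 1 fun _ m => m * 2) * c := by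
      funext n
      congr 1
      induction n with
      | zero => rfl
      | succ n ih => rw [pow_succ, ih]
    rw [h2]
    exact Primrec.nat_mul.comp h0 (Primrec.const c)
  have h3 : ∀ t : Fin 2 × Bool, Primrec fun n : ℕ => List.replicate n t := by
    intro t
    have h4 : (fun n : ℕ => List.replicate n t) = fun n : ℕ =>
        (List.range n).map fun _ => t := by
      funext n
      simp
    rw [h4]
    exact Primrec.list_map Primrec.list_range (Primrec.const t).to₂
  unfold tw0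
  exact Primrec.list_append.comp ((h3 _).comp h1)
    (Primrec.list_cons.comp (Primrec.const _) ((h3 _).comp h1))

theorem te_nat (n : ℕ) : PM.te (n : ℤ) = (gn 1 ^ n)⁻¹ * gn 4 * gn 1 ^ n := by
  unfold PM.te
  rw [zpow_natCast]

theorem main_all (g : ℕ) (hg : 2 ≤ g) :
    ∃ H : Subgroup (Mod g), (∃ n : ℕ, Nonempty (H ≃* FreeGroup (Fin n))) ∧
      Group.IsFinitelyPresented H ∧
      (∃ (k : ℕ) (s : Fin k → Mod g), ¬ GWPSolvable s H) ∧
      ∀ (k : ℕ) (s : Fin k → Mod g), Subgroup.closure (Set.range s) = ⊤ →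
        ¬ GWPSolvable s H := by
  obtain ⟨r, rfl⟩ := Nat.exists_eq_add_of_le' hg
  obtain ⟨M, c, hM⟩ := exists_pm
  set H : Subgroup (Mod (r + 2)) := M.psi.range.map (emb r) with hH
  obtain ⟨n, ⟨e⟩⟩ := M.range_free
  have e' : H ≃* FreeGroup (Fin n) :=
    (M.psi.range.equivMapOfInjective (emb r) (emb_inj r)).symm.trans e
  have hfp : Group.IsFinitelyPresented H := Group.IsFinitelyPresented.equiv e'.symm
  let α : Fin 2 → Mod (r + 2) := ![emb r (gn 1), emb r (gn 4)]
  have key : ¬ GWPSolvable α H := by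
    intro hs
    apply hM
    have := final_comp _ (fun n : ℕ => tw0 (2 ^ n * c)) (tw0_comp c) hs
    refine this.of_eq fun n => ?_
    rw [ev_tw0]
    have h1 : (α 0 ^ (2 ^ n * c))⁻¹ * α 1 * α 0 ^ (2 ^ n * c) =
        emb r (PM.te ((2 ^ n * c : ℕ) : ℤ)) := by
      rw [te_nat]
      simp [α]
    rw [h1, hH, Subgroup.mem_map_iff_mem (emb_inj r)]
    exact M.memb _
  refine ⟨H, ⟨n, ⟨e'⟩⟩, hfp, ⟨2, α, key⟩, fun k s hs hsol => key ?_⟩
  have hW : ∀ i, ∃ W : List (Fin k × Bool), ev s W = α i := by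
    intro i
    have : α i ∈ (FreeGroup.lift s).range := by
      rw [FreeGroup.range_lift_eq_closure, hs]
      trivial
    obtain ⟨w, hw⟩ := this
    refine ⟨w.toWord, ?_⟩
    rw [ev_eq_lift, FreeGroup.mk_toWord, hw]
  choose W hW using hW
  have := final_comp _ (final_tr W) (final_tr_computable W) hsol
  refine this.of_eq fun v => ?_
  rw [final_ev_tr α s W hW]

theorem short_all (g : ℕ) (hg : 2 ≤ g) :
    ∃ H : Subgroup (ModG g), (∃ n : ℕ, Nonempty (H ≃* FreeGroup (Fin n))) ∧
      Group.IsFinitelyPresented H ∧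
      (∃ (k : ℕ) (s : Fin k → ModG g), ¬ GWPSolvable s H) ∧
      ∀ (k : ℕ) (s : Fin k → ModG g), Subgroup.closure (Set.range s) = ⊤ →
        ¬ GWPSolvable s H := main_all g hg

end Pool.Agent.H.MP_9a81ba_al.P
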