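import Pool.Agent.H.MP_9a81ba_al.P.SurfT

/-!
The braid relations for the moves.
-/

set_option linter.unusedSimpArgs false

namespace Pool.Agent.H.MP_9a81ba_al.P

variable {G : Type*} [Group G] {r : ℕ}

theorem surfB_d1 : (((0, false) : Fin (r + 2) × Bool) = (0, true)) = False := by simp

theorem surfB_d2 : (((0, false) : Fin (r + 2) × Bool) = (1, false)) = False := by simp

theorem surfB_d3 : (((0, false) : Fin (r + 2) × Bool) = (1, true)) = False := by simp

theorem surfB_d4 : (((0, true) : Fin (r + 2) × Bool) = (0, false)) = False := by simp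

theorem surfB_d5 : (((0, true) : Fin (r + 2) × Bool) = (1, false)) = False := by simp

theorem surfB_d6 : (((0, true) : Fin (r + 2) × Bool) = (1, true)) = False := by simp

theorem surfB_d7 : (((1, false) : Fin (r + 2) × Bool) = (0, false)) = False := by simp

theorem surfB_d8 : (((1, false) : Fin (r + 2) × Bool) = (0, true)) = False := by simp

theorem surfB_d9 : (((1, false) : Fin (r + 2) × Bool) = (1, true)) = False := by simp

theorem surfB_d10 : (((1, true) : Fin (r + 2) × Bool) = (0, false)) = False := by simp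

theorem surfB_d11 : (((1, true) : Fin (r + 2) × Bool) = (0, true)) = False := by simp

theorem surfB_d12 : (((1, true) : Fin (r + 2) × Bool) = (1, false)) = False := by simp

theorem surfB_cases (z : Fin (r + 2) × Bool) : z = (0, false) ∨ z = (0, true) ∨ z = (1, false) ∨
    z = (1, true) ∨ (¬ z = (0, false) ∧ ¬ z = (0, true) ∧ ¬ z = (1, false) ∧ ¬ z = (1, true)) := by
  tauto

/-- Proof: `funext z`; cases `z = (0, false)`, `(0, true)`, and the other `z`; unfold and `simp`,
`group`. -/
theorem m_braid12 (x : Fin (r + 2) × Bool → G) : m1 (m2 (m1 x)) = m2 (m1 (m2 x)) := by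
  funext z
  rcases surfB_cases z with rfl | rfl | rfl | rfl | ⟨h1, h2, h3, h4⟩
  · simp only [m1, m2, surfB_d1, surfB_d2, surfB_d3, surfB_d4, surfB_d5, surfB_d6, surfB_d7,
      surfB_d8, surfB_d9, surfB_d10, surfB_d11, surfB_d12, if_true, if_false]
    group
  · simp only [m1, m2, surfB_d1, surfB_d2, surfB_d3, surfB_d4, surfB_d5, surfB_d6, surfB_d7,
      surfB_d8, surfB_d9, surfB_d10, surfB_d11, surfB_d12, if_true, if_false]
    group
  · simp only [m1, m2, surfB_d1, surfB_d2, surfB_d3, surfB_d4, surfB_d5, surfB_d6, surfB_d7,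
      surfB_d8, surfB_d9, surfB_d10, surfB_d11, surfB_d12, if_true, if_false]
  · simp only [m1, m2, surfB_d1, surfB_d2, surfB_d3, surfB_d4, surfB_d5, surfB_d6, surfB_d7,
      surfB_d8, surfB_d9, surfB_d10, surfB_d11, surfB_d12, if_true, if_false]
  · simp only [m1, m2, h1, h2, if_false]

/-- Proof: `funext z`; cases `z = (0, false)`, `(0, true)`, `(1, false)`, `(1, true)` and the
other `z`; unfold `m2`, `m3`, `vv` and `group` (for `z = (1, false), (1, true)` it may help to
compute first `vv (m2 x) = vv x * ...` and use `vv_m3`-like identities: with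
`v = b a⁻¹ b⁻¹ d`, after the second move `v` becomes `b (a b⁻¹)⁻¹ b⁻¹ d = b * v`). -/
theorem m_braid23 (x : Fin (r + 2) × Bool → G) : m2 (m3 (m2 x)) = m3 (m2 (m3 x)) := by
  funext z
  rcases surfB_cases z with rfl | rfl | rfl | rfl | ⟨h1, h2, h3, h4⟩
  · simp only [m2, m3, vv, surfB_d1, surfB_d2, surfB_d3, surfB_d4, surfB_d5, surfB_d6, surfB_d7,
      surfB_d8, surfB_d9, surfB_d10, surfB_d11, surfB_d12, if_true, if_false]
    group
  · simp only [m2, m3, vv, surfB_d1, surfB_d2, surfB_d3, surfB_d4, surfB_d5, surfB_d6, surfB_d7,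
      surfB_d8, surfB_d9, surfB_d10, surfB_d11, surfB_d12, if_true, if_false]
    group
  · simp only [m2, m3, vv, surfB_d1, surfB_d2, surfB_d3, surfB_d4, surfB_d5, surfB_d6, surfB_d7,
      surfB_d8, surfB_d9, surfB_d10, surfB_d11, surfB_d12, if_true, if_false]
    group
  · simp only [m2, m3, vv, surfB_d1, surfB_d2, surfB_d3, surfB_d4, surfB_d5, surfB_d6, surfB_d7,
      surfB_d8, surfB_d9, surfB_d10, surfB_d11, surfB_d12, if_true, if_false]
    group
  · simp only [m2, m3, h1, h2, h3, h4, if_false]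

/-- Proof: as above; the first move does not change `v`: `b a a⁻¹ (b a)⁻¹ d = b a⁻¹ b⁻¹ d`. -/
theorem m_comm13 (x : Fin (r + 2) × Bool → G) : m1 (m3 x) = m3 (m1 x) := by
  funext z
  rcases surfB_cases z with rfl | rfl | rfl | rfl | ⟨h1, h2, h3, h4⟩
  · simp only [m1, m3, vv, surfB_d1, surfB_d2, surfB_d3, surfB_d4, surfB_d5, surfB_d6, surfB_d7,
      surfB_d8, surfB_d9, surfB_d10, surfB_d11, surfB_d12, if_true, if_false]
  · simp only [m1, m3, vv, surfB_d1, surfB_d2, surfB_d3, surfB_d4, surfB_d5, surfB_d6, surfB_d7,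
      surfB_d8, surfB_d9, surfB_d10, surfB_d11, surfB_d12, if_true, if_false]
    group
  · simp only [m1, m3, vv, surfB_d1, surfB_d2, surfB_d3, surfB_d4, surfB_d5, surfB_d6, surfB_d7,
      surfB_d8, surfB_d9, surfB_d10, surfB_d11, surfB_d12, if_true, if_false]
    group
  · simp only [m1, m3, vv, surfB_d1, surfB_d2, surfB_d3, surfB_d4, surfB_d5, surfB_d6, surfB_d7,
      surfB_d8, surfB_d9, surfB_d10, surfB_d11, surfB_d12, if_true, if_false]
    group
  · simp only [m1, m3, h1, h2, h3, h4, if_false]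

end Pool.Agent.H.MP_9a81ba_al.P
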