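import Pool.Agent.H.MP_9a81ba_al.P.SurfM
import Pool.Agent.H.MP_9a81ba_al.P.SurfB

/-!
The three automorphisms of the surface group.
-/

namespace Pool.Agent.H.MP_9a81ba_al.P

variable {r : ℕ}

/-- an automorphism of the surface group from two inverse tuples -/
def autOf (x y : Fin (r + 2) × Bool → Surf (r + 2)) (hx : rl x = 1) (hy : rl y = 1)
    (h : ∀ z, slift x hx (y z) = go z) (h' : ∀ z, slift y hy (x z) = go z) :
    MulAut (Surf (r + 2)) where
  toFun := slift x hx
  invFun := slift y hy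
  left_inv w := by
    have e : (slift y hy).comp (slift x hx) = MonoidHom.id _ :=
      surf_hom_ext fun z => by simp [h']
    exact DFunLike.congr_fun e w
  right_inv w := by
    have e : (slift x hx).comp (slift y hy) = MonoidHom.id _ :=
      surf_hom_ext fun z => by simp [h]
    exact DFunLike.congr_fun e w
  map_mul' := map_mul _

theorem map_go (f : Surf (r + 2) →* Surf (r + 2)) (x : Fin (r + 2) × Bool → Surf (r + 2))
    (h : ∀ z, f (go z) = x z) : (fun z => f (go z)) = x := funext h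

/-- the automorphism `b ↦ b a` -/
def s1 : MulAut (Surf (r + 2)) := autOf (m1 go) (n1 go) (by rw [rl_m1, rl_go])
  (by rw [rl_n1, rl_go])
  (fun z => by
    rw [← n1_map, map_go _ (m1 go) (fun z => slift_go _ _ z), n1_m1])
  (fun z => by
    rw [← m1_map, map_go _ (n1 go) (fun z => slift_go _ _ z), m1_n1])

/-- the automorphism `a ↦ a b⁻¹` -/
def s2 : MulAut (Surf (r + 2)) := autOf (m2 go) (n2 go) (by rw [rl_m2, rl_go])
  (by rw [rl_n2, rl_go])
  (fun z => by
    rw [← n2_map, map_go _ (m2 go) (fun z => slift_go _ _ z), n2_m2])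
  (fun z => by
    rw [← m2_map, map_go _ (n2 go) (fun z => slift_go _ _ z), m2_n2])

/-- the automorphism `b ↦ v⁻¹ b`, `d ↦ v⁻¹ d v`, `t ↦ t v` -/
def s3 : MulAut (Surf (r + 2)) := autOf (m3 go) (n3 go) (by rw [rl_m3, rl_go])
  (by rw [rl_n3, rl_go])
  (fun z => by
    rw [← n3_map, map_go _ (m3 go) (fun z => slift_go _ _ z), n3_m3])
  (fun z => by
    rw [← m3_map, map_go _ (n3 go) (fun z => slift_go _ _ z), m3_n3])

theorem s1_go (z : Fin (r + 2) × Bool) : s1 (go z) = m1 go z :=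
  slift_go (m1 go) (by rw [rl_m1, rl_go]) z
theorem s2_go (z : Fin (r + 2) × Bool) : s2 (go z) = m2 go z :=
  slift_go (m2 go) (by rw [rl_m2, rl_go]) z
theorem s3_go (z : Fin (r + 2) × Bool) : s3 (go z) = m3 go z :=
  slift_go (m3 go) (by rw [rl_m3, rl_go]) z
theorem s1_inv_go (z : Fin (r + 2) × Bool) : (s1 (r := r))⁻¹ (go z) = n1 go z :=
  slift_go (n1 go) (by rw [rl_n1, rl_go]) z
theorem s2_inv_go (z : Fin (r + 2) × Bool) : (s2 (r := r))⁻¹ (go z) = n2 go z :=
  slift_go (n2 go) (by rw [rl_n2, rl_go]) z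
theorem s3_inv_go (z : Fin (r + 2) × Bool) : (s3 (r := r))⁻¹ (go z) = n3 go z :=
  slift_go (n3 go) (by rw [rl_n3, rl_go]) z

theorem aut_ext {f g : MulAut (Surf (r + 2))} (h : ∀ z, f (go z) = g (go z)) : f = g := by
  have e : f.toMonoidHom = g.toMonoidHom := surf_hom_ext h
  exact MulEquiv.ext fun w => DFunLike.congr_fun e w

theorem surfA_m1 (φ : MulAut (Surf (r + 2))) (x : Fin (r + 2) × Bool → Surf (r + 2))
    (z : Fin (r + 2) × Bool) : φ (m1 x z) = m1 (fun z => φ (x z)) z :=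
  (m1_map φ.toMonoidHom x z).symm
theorem surfA_m2 (φ : MulAut (Surf (r + 2))) (x : Fin (r + 2) × Bool → Surf (r + 2))
    (z : Fin (r + 2) × Bool) : φ (m2 x z) = m2 (fun z => φ (x z)) z :=
  (m2_map φ.toMonoidHom x z).symm
theorem surfA_m3 (φ : MulAut (Surf (r + 2))) (x : Fin (r + 2) × Bool → Surf (r + 2))
    (z : Fin (r + 2) × Bool) : φ (m3 x z) = m3 (fun z => φ (x z)) z :=
  (m3_map φ.toMonoidHom x z).symm
theorem surfA_s1 : (fun z => (s1 (r := r)) (go z)) = m1 go := funext s1_go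
theorem surfA_s2 : (fun z => (s2 (r := r)) (go z)) = m2 go := funext s2_go
theorem surfA_s3 : (fun z => (s3 (r := r)) (go z)) = m3 go := funext s3_go

theorem s_braid12 : (s1 : MulAut (Surf (r + 2))) * s2 * s1 = s2 * s1 * s2 := by
  refine aut_ext fun z => ?_
  simp only [MulAut.mul_apply, s1_go, s2_go, surfA_m1, surfA_m2]
  have h1 : (fun z => m2 (fun z => m1 (go : Fin (r + 2) × Bool → Surf (r + 2)) z) z) =
    m2 (m1 go) := rfl
  exact congrFun (m_braid12 (go : Fin (r + 2) × Bool → Surf (r + 2))) z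

theorem s_braid23 : (s2 : MulAut (Surf (r + 2))) * s3 * s2 = s3 * s2 * s3 := by
  refine aut_ext fun z => ?_
  simp only [MulAut.mul_apply, s2_go, s3_go, surfA_m2, surfA_m3]
  exact congrFun (m_braid23 (go : Fin (r + 2) × Bool → Surf (r + 2))) z

theorem s_comm13 : Commute (s1 : MulAut (Surf (r + 2))) s3 := by
  refine aut_ext fun z => ?_
  simp only [MulAut.mul_apply, s1_go, s3_go, surfA_m1, surfA_m3]
  exact (congrFun (m_comm13 (go : Fin (r + 2) × Bool → Surf (r + 2))) z).symm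
end Pool.Agent.H.MP_9a81ba_al.P
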