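import Pool.Agent.H.MP_9a81ba_al.P.Wr
import Pool.Agent.H.MP_9a81ba_al.P.SurfA
import Pool.Agent.H.MP_9a81ba_al.P.F2Br

/-!
The subgroup generated by `a, b, d` and its map to `F2`.
-/

namespace Pool.Agent.H.MP_9a81ba_al.P

variable {r : ℕ}

/-- the subgroup generated by `a`, `b`, `d` -/
def Bs (r : ℕ) : Subgroup (Surf (r + 2)) :=
  Subgroup.closure {go (0, false), go (0, true), go (1, false)}

theorem a_mem : (go (0, false) : Surf (r + 2)) ∈ Bs r := Subgroup.subset_closure (by simp)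
theorem b_mem : (go (0, true) : Surf (r + 2)) ∈ Bs r := Subgroup.subset_closure (by simp)
theorem d_mem : (go (1, false) : Surf (r + 2)) ∈ Bs r := Subgroup.subset_closure (by simp)

theorem v_mem : vv (go : Fin (r + 2) × Bool → Surf (r + 2)) ∈ Bs r :=
  mul_mem (mul_mem (mul_mem b_mem (inv_mem a_mem)) (inv_mem b_mem)) d_mem

/-- the `0`-coordinate of the image in the wreath product -/
def rr (r : ℕ) (y : Surf (r + 2)) : F2 := (Ph r y).left 0

/-- Proof: closure induction; the three generators are in the base group and trivial at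
positive places. -/
theorem Bs_right (y : Surf (r + 2)) (hy : y ∈ Bs r) : (Ph r y).right = 1 := by
  induction hy using Subgroup.closure_induction with
  | mem x hx =>
    rcases hx with rfl | rfl | rfl
    · simp [Ph_go, phx]
    · simp [Ph_go, phx]
    · simp [Ph_go, phx]
  | one => simp
  | mul x y _ _ hx hy => rw [map_mul, SemidirectProduct.mul_right, hx, hy, one_mul]
  | inv x _ hx => rw [map_inv, SemidirectProduct.inv_right, hx, inv_one]

theorem Bs_pos (y : Surf (r + 2)) (hy : y ∈ Bs r) (i : ℤ) (hi : 1 ≤ i) :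
    (Ph r y).left i = 1 := by
  induction hy using Subgroup.closure_induction with
  | mem x hx =>
    rcases hx with rfl | rfl | rfl
    · have : i ≠ 0 := by omega
      simp [Ph_go, phx, this]
    · have : i ≠ 0 := by omega
      simp [Ph_go, phx, this]
    · have : ¬ i ≤ 0 := by omega
      simp [Ph_go, phx, this]
  | one => simp
  | mul x y hx' _ hx hy =>
    rw [map_mul, SemidirectProduct.mul_left, Bs_right x hx', map_one, Pi.mul_apply, hx,
      MulAut.one_apply, hy, one_mul]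
  | inv x hx' hx =>
    rw [map_inv, SemidirectProduct.inv_left, Bs_right x hx', inv_one, map_one, MulAut.one_apply,
      Pi.inv_apply, hx, inv_one]

/-- Proof: `SemidirectProduct.mul_left` and `Bs_right`. -/
theorem rr_mul (y z : Surf (r + 2)) (hy : y ∈ Bs r) : rr r (y * z) = rr r y * rr r z := by
  unfold rr
  rw [map_mul, SemidirectProduct.mul_left, Bs_right y hy, map_one, Pi.mul_apply,
    MulAut.one_apply]

theorem rr_inv (y : Surf (r + 2)) (hy : y ∈ Bs r) : rr r y⁻¹ = (rr r y)⁻¹ := by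
  have h := rr_mul y y⁻¹ hy
  rw [mul_inv_cancel] at h
  have h1 : rr r (1 : Surf (r + 2)) = 1 := by simp [rr]
  rw [h1] at h
  exact (inv_eq_of_mul_eq_one_right h.symm).symm

theorem rr_a : rr r (go (0, false)) = FreeGroup.of false := by
  simp [rr, Ph_go, phx]

theorem rr_b : rr r (go (0, true)) = FreeGroup.of true := by
  simp [rr, Ph_go, phx]

theorem rr_d : rr r (go (1, false)) = cpq⁻¹ := by
  simp [rr, Ph_go, phx]

/-- Proof: `rr_mul` etc.: `q p⁻¹ q⁻¹ [p, q]⁻¹ = p⁻¹`. -/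
theorem rr_v : rr r (vv go) = (FreeGroup.of false)⁻¹ := by
  unfold vv
  rw [rr_mul _ _ (mul_mem (mul_mem b_mem (inv_mem a_mem)) (inv_mem b_mem)),
    rr_mul _ _ (mul_mem b_mem (inv_mem a_mem)), rr_mul _ _ b_mem, rr_inv _ a_mem,
    rr_inv _ b_mem, rr_a, rr_b, rr_d, cpq, cm]
  group

/-- the compatibility of an automorphism of the surface group with an automorphism of `F2` -/
def Cmp (φ : MulAut (Surf (r + 2))) (ψ : MulAut F2) : Prop :=
  (∀ y ∈ Bs r, φ y ∈ Bs r ∧ rr r (φ y) = ψ (rr r y)) ∧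
    (go (1, true))⁻¹ * φ (go (1, true)) ∈ Bs r

/-- It is enough to check the generators. Proof: closure induction (`rr_mul`, `rr_inv`). -/
theorem Cmp_of (φ : MulAut (Surf (r + 2))) (ψ : MulAut F2)
    (ha : φ (go (0, false)) ∈ Bs r ∧ rr r (φ (go (0, false))) = ψ (FreeGroup.of false))
    (hb : φ (go (0, true)) ∈ Bs r ∧ rr r (φ (go (0, true))) = ψ (FreeGroup.of true))
    (hd : φ (go (1, false)) ∈ Bs r ∧ rr r (φ (go (1, false))) = ψ cpq⁻¹)
    (ht : (go (1, true))⁻¹ * φ (go (1, true)) ∈ Bs r) : Cmp φ ψ := by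
  refine ⟨fun y hy => ?_, ht⟩
  induction hy using Subgroup.closure_induction with
  | mem x hx =>
    rcases hx with rfl | rfl | rfl
    · rw [rr_a]; exact ha
    · rw [rr_b]; exact hb
    · rw [rr_d]; exact hd
  | one =>
    have h1 : rr r (1 : Surf (r + 2)) = 1 := by simp [rr]
    rw [map_one, h1, map_one]
    exact ⟨one_mem _, rfl⟩
  | mul x y hx' _ hx hy =>
    rw [map_mul, rr_mul x y hx', map_mul, rr_mul _ _ hx.1, hx.2, hy.2]
    exact ⟨mul_mem hx.1 hy.1, rfl⟩
  | inv x hx' hx =>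
    rw [map_inv, rr_inv x hx', map_inv, rr_inv _ hx.1, hx.2]
    exact ⟨inv_mem hx.1, rfl⟩

/-- Proof: `φ (φ' t) = φ (t z) = t z' φ z` with `z, z' ∈ Bs`. -/
theorem Cmp.mul {φ φ' : MulAut (Surf (r + 2))} {ψ ψ' : MulAut F2} (h : Cmp φ ψ)
    (h' : Cmp φ' ψ') : Cmp (φ * φ') (ψ * ψ') := by
  refine ⟨fun y hy => ?_, ?_⟩
  · obtain ⟨h1, h2⟩ := h'.1 y hy
    obtain ⟨h3, h4⟩ := h.1 _ h1
    refine ⟨h3, ?_⟩
    rw [MulAut.mul_apply, MulAut.mul_apply, h4, h2]
  · have h1 := (h.1 _ h'.2).1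
    have h2 := mul_mem h.2 h1
    rw [MulAut.mul_apply]
    rw [map_mul, map_inv] at h2
    have e : (go (1, true))⁻¹ * φ (go (1, true)) * ((φ (go (1, true)))⁻¹ * φ (φ' (go (1, true)))) =
        (go (1, true))⁻¹ * φ (φ' (go (1, true))) := by group
    rw [e] at h2
    exact h2

theorem Cmp.one : Cmp (1 : MulAut (Surf (r + 2))) 1 := by
  refine ⟨fun y hy => ⟨hy, rfl⟩, ?_⟩
  simp

/-- the subgroup of compatible pairs -/
def Kg (r : ℕ) : Subgroup (MulAut (Surf (r + 2)) × MulAut F2) where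
  carrier := {P | Cmp P.1 P.2 ∧ Cmp P.1⁻¹ P.2⁻¹}
  one_mem' := by
    refine ⟨Cmp.one, ?_⟩
    simpa using (Cmp.one (r := r))
  mul_mem' := by
    rintro P P' ⟨h1, h2⟩ ⟨h1', h2'⟩
    refine ⟨h1.mul h1', ?_⟩
    have := h2'.mul h2
    simpa [mul_inv_rev] using this
  inv_mem' := by
    rintro P ⟨h1, h2⟩
    refine ⟨h2, ?_⟩
    simpa using h1

end Pool.Agent.H.MP_9a81ba_al.P
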