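import Pool.Agent.H.MP_9a81ba_al.P.Kgr

/-!
The braid generators are compatible pairs.
-/

namespace Pool.Agent.H.MP_9a81ba_al.P

variable {r : ℕ}

theorem kgrS_tt (α β : ℤ) : twA true α β (FreeGroup.of true) =
    FreeGroup.of false ^ α * FreeGroup.of true * FreeGroup.of false ^ β := twh_self true α β

theorem kgrS_tf (α β : ℤ) : twA true α β (FreeGroup.of false) = FreeGroup.of false :=
  twh_not true α β

theorem kgrS_ff (α β : ℤ) : twA false α β (FreeGroup.of false) =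
    FreeGroup.of true ^ α * FreeGroup.of false * FreeGroup.of true ^ β := twh_self false α β

theorem kgrS_ft (α β : ℤ) : twA false α β (FreeGroup.of true) = FreeGroup.of true :=
  twh_not false α β

theorem kgrS_cpq (f : MulAut F2) :
    f cpq⁻¹ = (cm (f (FreeGroup.of false)) (f (FreeGroup.of true)))⁻¹ := by
  rw [map_inv]
  unfold cpq cm
  simp

/-- generators which are only moved inside the `0`-th handle -/
theorem kgrS_aux {φ : MulAut (Surf (r + 2))} {ψ : MulAut F2} {x y : Surf (r + 2)}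
    (hx : x ∈ Bs r) (hy : y ∈ Bs r)
    (ha : φ (go (0, false)) = x) (hb : φ (go (0, true)) = y)
    (hd : φ (go (1, false)) = go (1, false)) (ht : φ (go (1, true)) = go (1, true))
    (ra : rr r x = ψ (FreeGroup.of false)) (rb : rr r y = ψ (FreeGroup.of true))
    (hc : ψ cpq⁻¹ = cpq⁻¹) : Cmp φ ψ := by
  refine Cmp_of φ ψ ⟨ha ▸ hx, ha ▸ ra⟩ ⟨hb ▸ hy, hb ▸ rb⟩ ⟨?_, ?_⟩ ?_
  · rw [hd]
    exact d_mem
  · rw [hd, rr_d, hc]
  · rw [ht, inv_mul_cancel]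
    exact one_mem _

theorem kgrS_v {φ : MulAut (Surf (r + 2))} {ψ : MulAut F2} {v : Surf (r + 2)} (hv : v ∈ Bs r)
    (ha : φ (go (0, false)) = go (0, false)) (hb : φ (go (0, true)) = v⁻¹ * go (0, true))
    (hd : φ (go (1, false)) = v⁻¹ * go (1, false) * v) (ht : φ (go (1, true)) = go (1, true) * v)
    (ra : ψ (FreeGroup.of false) = FreeGroup.of false)
    (rb : ψ (FreeGroup.of true) = (rr r v)⁻¹ * FreeGroup.of true)
    (hc : ψ cpq⁻¹ = (rr r v)⁻¹ * cpq⁻¹ * rr r v) : Cmp φ ψ := by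
  refine Cmp_of φ ψ ⟨?_, ?_⟩ ⟨?_, ?_⟩ ⟨?_, ?_⟩ ?_
  · rw [ha]
    exact a_mem
  · rw [ha, rr_a, ra]
  · rw [hb]
    exact mul_mem (inv_mem hv) b_mem
  · rw [hb, rr_mul _ _ (inv_mem hv), rr_inv _ hv, rr_b, rb]
  · rw [hd]
    exact mul_mem (mul_mem (inv_mem hv) d_mem) hv
  · rw [hd, rr_mul _ _ (mul_mem (inv_mem hv) d_mem), rr_mul _ _ (inv_mem hv), rr_inv _ hv, rr_d, hc]
  · rw [ht, inv_mul_cancel_left]
    exact hv

/-- Proof: `Cmp_of` for `s1` (`s1_go`, `m1`) and `s1⁻¹` (`s1_inv_go`, `n1`):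
`b ↦ b a`, `q ↦ q p`; `[p, q p] = [p, q]`; `t ↦ t`. -/
theorem s1_mem : ((s1, t1) : MulAut (Surf (r + 2)) × MulAut F2) ∈ Kg r := by
  refine ⟨kgrS_aux (x := go (0, false)) (y := go (0, true) * go (0, false)) a_mem
      (mul_mem b_mem a_mem) ?_ ?_ ?_ ?_ ?_ ?_ ?_,
    kgrS_aux (x := go (0, false)) (y := go (0, true) * (go (0, false))⁻¹) a_mem
      (mul_mem b_mem (inv_mem a_mem)) ?_ ?_ ?_ ?_ ?_ ?_ ?_⟩
  · change s1 _ = _
    rw [s1_go]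
    simp [m1]
  · change s1 _ = _
    rw [s1_go]
    simp [m1]
  · change s1 _ = _
    rw [s1_go]
    simp [m1]
  · change s1 _ = _
    rw [s1_go]
    simp [m1]
  · rw [rr_a]
    exact (kgrS_tf 0 1).symm
  · rw [rr_mul _ _ b_mem, rr_b, rr_a]
    refine Eq.trans ?_ (kgrS_tt 0 1).symm
    rw [zpow_zero, one_mul, zpow_one]
  · change t1 cpq⁻¹ = cpq⁻¹
    rw [kgrS_cpq, t1, kgrS_tf, kgrS_tt]
    unfold cpq cm
    group
  · change (s1)⁻¹ _ = _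
    rw [s1_inv_go]
    simp [n1]
  · change (s1)⁻¹ _ = _
    rw [s1_inv_go]
    simp [n1]
  · change (s1)⁻¹ _ = _
    rw [s1_inv_go]
    simp [n1]
  · change (s1)⁻¹ _ = _
    rw [s1_inv_go]
    simp [n1]
  · change _ = t1⁻¹ _
    rw [rr_a, t1, pingDef_inv, kgrS_tf]
  · change _ = t1⁻¹ _
    rw [rr_mul _ _ b_mem, rr_inv _ a_mem, rr_b, rr_a, t1, pingDef_inv, kgrS_tt]
    simp
  · change t1⁻¹ cpq⁻¹ = cpq⁻¹
    rw [kgrS_cpq, t1, pingDef_inv, kgrS_tf, kgrS_tt]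
    unfold cpq cm
    group

/-- Proof: `a ↦ a b⁻¹`, `p ↦ p q⁻¹`; `[p q⁻¹, q] = [p, q]`; `t ↦ t`. -/
theorem s2_mem : ((s2, t2) : MulAut (Surf (r + 2)) × MulAut F2) ∈ Kg r := by
  refine ⟨kgrS_aux (x := go (0, false) * (go (0, true))⁻¹) (y := go (0, true))
      (mul_mem a_mem (inv_mem b_mem)) b_mem ?_ ?_ ?_ ?_ ?_ ?_ ?_,
    kgrS_aux (x := go (0, false) * go (0, true)) (y := go (0, true))
      (mul_mem a_mem b_mem) b_mem ?_ ?_ ?_ ?_ ?_ ?_ ?_⟩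
  · change s2 _ = _
    rw [s2_go]
    simp [m2]
  · change s2 _ = _
    rw [s2_go]
    simp [m2]
  · change s2 _ = _
    rw [s2_go]
    simp [m2]
  · change s2 _ = _
    rw [s2_go]
    simp [m2]
  · change _ = t2 _
    rw [rr_mul _ _ a_mem, rr_inv _ b_mem, rr_b, rr_a, t2, kgrS_ff]
    simp
  · change _ = t2 _
    rw [rr_b, t2, kgrS_ft]
  · change t2 cpq⁻¹ = cpq⁻¹
    rw [kgrS_cpq, t2, kgrS_ft, kgrS_ff]
    unfold cpq cm
    group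
  · change (s2)⁻¹ _ = _
    rw [s2_inv_go]
    simp [n2]
  · change (s2)⁻¹ _ = _
    rw [s2_inv_go]
    simp [n2]
  · change (s2)⁻¹ _ = _
    rw [s2_inv_go]
    simp [n2]
  · change (s2)⁻¹ _ = _
    rw [s2_inv_go]
    simp [n2]
  · change _ = t2⁻¹ _
    rw [rr_mul _ _ a_mem, rr_b, rr_a, t2, pingDef_inv, kgrS_ff]
    simp
  · change _ = t2⁻¹ _
    rw [rr_b, t2, pingDef_inv, kgrS_ft]
  · change t2⁻¹ cpq⁻¹ = cpq⁻¹
    rw [kgrS_cpq, t2, pingDef_inv, kgrS_ft, kgrS_ff]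
    unfold cpq cm
    group

/-- Proof: `b ↦ v⁻¹ b`, `d ↦ v⁻¹ d v`, `t ↦ t v`, with `rr v = p⁻¹` (`rr_v`, `v_mem`):
`q ↦ p q`; `[p, p q] = p [p, q] p⁻¹`. The inverse: `b ↦ v b`, `d ↦ v d v⁻¹`, `t ↦ t v⁻¹`,
`q ↦ p⁻¹ q`. -/
theorem s3_mem : ((s3, t3) : MulAut (Surf (r + 2)) × MulAut F2) ∈ Kg r := by
  refine ⟨kgrS_v (v := vv go) v_mem ?_ ?_ ?_ ?_ ?_ ?_ ?_,
    kgrS_v (v := (vv go)⁻¹) (inv_mem v_mem) ?_ ?_ ?_ ?_ ?_ ?_ ?_⟩
  · change s3 _ = _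
    rw [s3_go]
    simp [m3]
  · change s3 _ = _
    rw [s3_go]
    simp [m3]
  · change s3 _ = _
    rw [s3_go]
    simp [m3]
  · change s3 _ = _
    rw [s3_go]
    simp [m3]
  · exact kgrS_tf 1 0
  · change t3 _ = _
    rw [rr_v, t3, kgrS_tt]
    simp
  · change t3 cpq⁻¹ = _
    rw [kgrS_cpq, t3, kgrS_tf, kgrS_tt, rr_v]
    unfold cpq cm
    group
  · change (s3)⁻¹ _ = _
    rw [s3_inv_go]
    simp [n3]
  · change (s3)⁻¹ _ = _
    rw [s3_inv_go]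
    simp [n3]
  · change (s3)⁻¹ _ = _
    rw [s3_inv_go]
    simp [n3]
  · change (s3)⁻¹ _ = _
    rw [s3_inv_go]
    simp [n3]
  · change t3⁻¹ _ = _
    rw [t3, pingDef_inv, kgrS_tf]
  · change t3⁻¹ _ = _
    rw [rr_inv _ v_mem, rr_v, t3, pingDef_inv, kgrS_tt]
    simp
  · change t3⁻¹ cpq⁻¹ = _
    rw [kgrS_cpq, t3, pingDef_inv, kgrS_tf, kgrS_tt, rr_inv _ v_mem, rr_v]
    unfold cpq cm
    group

end Pool.Agent.H.MP_9a81ba_al.P
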