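import Pool.Agent.H.MP_9a81ba_al.P.MachZ
import Pool.Agent.H.MP_7596fa_lc.RegMach

/-!
The machine of a register program.
-/

namespace Pool.Agent.H.MP_9a81ba_al.P

open Pool.Agent.H.MP_7596fa_lc Function

theorem machEa_bc_pos (P : Prog) (R : ℕ) (hP : P.bd R) (L : List Prog) (hL : L ∈ sts P) (j : ℕ) :
    0 < (bc (modA R) L j).1 := by
  have hA := modA_pos R
  have hL' : ∀ Q ∈ L, Q.bd R := by
    unfold sts at hL
    rw [Finset.mem_insert] at hL
    rcases hL with rfl | hL
    · intro Q hQ; simp at hQ
    · exact cl_bd R P [] hP (by intro Q hQ; simp at hQ) L hL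
  rcases L with _ | ⟨Q, K⟩
  · exact hA
  · have hQ := hL' Q (List.mem_cons_self)
    rcases Q with _ | r | ⟨Q1, Q2⟩ | ⟨r, Q⟩
    · exact hA
    · exact Nat.mul_pos (pr_prime r).pos hA
    · exact hA
    · have hr : r < R := hQ.1
      change 0 < (if pr r ∣ j then (modA R / pr r, j / pr r) else (modA R, j)).1
      split_ifs
      · exact Nat.div_pos (Nat.le_of_dvd hA (pr_dvd_modA hr)) (pr_prime r).pos
      · exact hA

/-- the slopes of `theMach` are positive. Proof: by cases on the first program of the continuation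
`L = ((Fintype.equivFin (sts P)).symm q).1`: `bc` is `(pr r * A, _)`, `(A, _)` or
`(A / pr r, _)`; in the last case `r < R` (`cl_bd` and `hP`, as in the proof of `step_cfg`) and so
`pr r ∣ A` (`pr_dvd_modA`), hence `0 < A / pr r`. -/
theorem theMach_b_pos (P : Prog) (R : ℕ) (hP : P.bd R) (q : Fin (theMach P R).nQ)
    (j : Fin (theMach P R).A) : 0 < (theMach P R).b q j := by
  exact machEa_bc_pos P R hP _ ((Fintype.equivFin (sts P)).symm q).2 _

/-- Proof: the halting state is the empty continuation and `bc A [] j = (A, j)`. -/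
theorem theMach_qh (P : Prog) (R : ℕ) (j : Fin (theMach P R).A) :
    (theMach P R).b (theMach P R).qh j = (theMach P R).A ∧
      (theMach P R).c (theMach P R).qh j = j := by
  have h : ((Fintype.equivFin (sts P)).symm (theMach P R).qh) = ⟨[], Finset.mem_insert_self _ _⟩ :=
    Equiv.symm_apply_apply _ _
  constructor
  · change (bc (modA R) ((Fintype.equivFin (sts P)).symm (theMach P R).qh).1 j).1 = modA R
    rw [h]
    rfl
  · change (bc (modA R) ((Fintype.equivFin (sts P)).symm (theMach P R).qh).1 j).2 = j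
    rw [h]
    rfl

/-- Proof: by `iter_cfg` (as in the proof of `halts_iff_haltsS`): the configuration of the machine
at time `t` is `cfg P R L hL v` where `(L, v)` is the configuration of the program at time `t`.
If `(L, v) = ([], 0)`, then this is `(qh, enc R 0) = (qh, 1)` (`enc_zero`). Conversely if the
machine is in `(qh, 1)` at time `t` then `L = []` (injectivity of `Fintype.equivFin`); by
`hv : ∀ t v, sstep^[t] ([P], v0) = ([], v) → v = fun _ => 0` we are done. -/
theorem theMach_halts (P : Prog) (R : ℕ) (hP : P.bd R) (v0 : St)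
    (hv : ∀ t v, sstep^[t] ([P], v0) = ([], v) → v = fun _ => 0) :
    (∃ t, (theMach P R).step^[t] ((theMach P R).q0, enc R v0) = ((theMach P R).qh, 1)) ↔
      ∃ t, sstep^[t] ([P], v0) = ([], fun _ => 0) := by
  refine exists_congr fun t => ?_
  obtain ⟨h1, h2⟩ := iter_cfg P R hP t [P] (Finset.mem_insert_of_mem (self_mem_cl P [])) v0
  change (theMach P R).step^[t] (cfg P R [P] _ v0) = _ ↔ _
  rw [h2]
  constructor
  · intro h
    have h3 : Fintype.equivFin (sts P) ⟨_, h1⟩ =
      Fintype.equivFin (sts P) ⟨[], Finset.mem_insert_self _ _⟩ := congrArg Prod.fst h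
    have h4 := (Fintype.equivFin (sts P)).injective h3
    have h5 : (sstep^[t] ([P], v0)).1 = [] := congrArg Subtype.val h4
    have h6 : sstep^[t] ([P], v0) = ([], (sstep^[t] ([P], v0)).2) := Prod.ext h5 rfl
    rw [h6, hv t _ h6]
  · intro h
    have h5 : (sstep^[t] ([P], v0)).1 = [] := by rw [h]
    have h6 : (sstep^[t] ([P], v0)).2 = fun _ => 0 := by rw [h]
    refine Prod.ext ?_ ?_
    · change Fintype.equivFin (sts P) ⟨_, h1⟩ =
        Fintype.equivFin (sts P) ⟨[], Finset.mem_insert_self _ _⟩
      congr 1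
      exact Subtype.ext h5
    · change enc R (sstep^[t] ([P], v0)).2 = 1
      rw [h6, enc_zero]

end Pool.Agent.H.MP_9a81ba_al.P
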