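import Pool.Agent.H.MP_7596fa_lc.Mach

/-!
Collatz-type machines run on all integers.
-/

namespace Pool.Agent.H.MP_9a81ba_al.P

open Pool.Agent.H.MP_7596fa_lc

/-- a machine with positive slopes for which the halting state is a fixed point -/
structure PM extends Mach where
  hb : ∀ q j, 0 < b q j
  hbh : ∀ j, b qh j = A
  hch : ∀ j, c qh j = j

namespace PM

variable (M : PM)

/-- the residue of an integer modulo `A` -/
def res (z : ℤ) : Fin M.A :=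
  ⟨(z % (M.A : ℤ)).toNat, by
    have h : (0 : ℤ) < M.A := by exact_mod_cast M.hA
    have h1 := Int.emod_nonneg z h.ne'
    have h2 := Int.emod_lt_of_pos z h
    omega⟩

/-- one step, on all integers: `(q, A m + j) ↦ (tgt q j, b q j * m + c q j)` -/
def stepZ (s : Fin M.nQ × ℤ) : Fin M.nQ × ℤ :=
  (M.tgt s.1 (M.res s.2), M.b s.1 (M.res s.2) * (s.2 / (M.A : ℤ)) + M.c s.1 (M.res s.2))

/-- the configuration reaches `(qh, 1)` -/
def HZ (q : Fin M.nQ) (z : ℤ) : Prop := ∃ t : ℕ, M.stepZ^[t] (q, z) = (M.qh, 1)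

/-- Proof: `res (A m + j) = j` and `(A m + j) / A = m` for `0 ≤ j < A`. -/
theorem res_eq (m : ℤ) (j : Fin M.A) : M.res (M.A * m + (j : ℕ)) = j := by
  have hj : ((j : ℕ) : ℤ) < M.A := by exact_mod_cast j.2
  have h1 : ((M.A : ℤ) * m + ((j : ℕ) : ℤ)) % (M.A : ℤ) = ((j : ℕ) : ℤ) := by
    rw [add_comm, Int.add_mul_emod_self_left]
    exact Int.emod_eq_of_lt (Int.natCast_nonneg _) hj
  apply Fin.ext
  show (((M.A : ℤ) * m + ((j : ℕ) : ℤ)) % (M.A : ℤ)).toNat = j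
  rw [h1, Int.toNat_natCast]

theorem div_eq (m : ℤ) (j : Fin M.A) : (M.A * m + ((j : ℕ) : ℤ)) / (M.A : ℤ) = m := by
  have hA : (0 : ℤ) < M.A := by exact_mod_cast M.hA
  have hj : ((j : ℕ) : ℤ) < M.A := by exact_mod_cast j.2
  rw [add_comm, Int.add_mul_ediv_left _ _ hA.ne',
    Int.ediv_eq_zero_of_lt (Int.natCast_nonneg _) hj, zero_add]

theorem eq_res (z : ℤ) : z = M.A * (z / (M.A : ℤ)) + ((M.res z : ℕ) : ℤ) := by
  have hA : (0 : ℤ) < M.A := by exact_mod_cast M.hA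
  have h1 : ((M.res z : ℕ) : ℤ) = z % (M.A : ℤ) := by
    show (((z % (M.A : ℤ)).toNat : ℕ) : ℤ) = z % (M.A : ℤ)
    exact Int.toNat_of_nonneg (Int.emod_nonneg z hA.ne')
  rw [h1]
  exact (Int.mul_ediv_add_emod z (M.A : ℤ)).symm

theorem stepZ_eq (q : Fin M.nQ) (j : Fin M.A) (m : ℤ) :
    M.stepZ (q, M.A * m + (j : ℕ)) = (M.tgt q j, M.b q j * m + M.c q j) := by
  simp only [stepZ, M.res_eq, M.div_eq]

/-- Proof: write `z = A m + j`; `tgt qh j = qh`, `b qh j = A`, `c qh j = j`. -/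
theorem stepZ_qh (z : ℤ) : M.stepZ (M.qh, z) = (M.qh, z) := by
  have h1 := M.eq_res z
  have h2 : M.stepZ (M.qh, z) = (M.tgt M.qh (M.res z),
    (M.b M.qh (M.res z) : ℤ) * (z / (M.A : ℤ)) + (M.c M.qh (M.res z) : ℤ)) := rfl
  rw [h2, M.absorb, M.hbh, M.hch, ← h1]

theorem HZ_qh_one : M.HZ M.qh 1 := ⟨0, rfl⟩

/-- Proof: iterates of the fixed point `(qh, z)` are constant. -/
theorem HZ_qh (z : ℤ) : M.HZ M.qh z ↔ z = 1 := by
  constructor
  · rintro ⟨t, ht⟩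
    rw [Function.iterate_fixed (M.stepZ_qh z)] at ht
    exact congrArg Prod.snd ht
  · rintro rfl
    exact M.HZ_qh_one

/-- Proof: as `Mach.halts_step`: an iterate equal to `(qh, 1)` stays there (`stepZ_qh`). -/
theorem HZ_step (q : Fin M.nQ) (j : Fin M.A) (m : ℤ) :
    M.HZ (M.tgt q j) (M.b q j * m + M.c q j) ↔ M.HZ q (M.A * m + (j : ℕ)) := by
  constructor
  · rintro ⟨t, ht⟩
    refine ⟨t + 1, ?_⟩
    rw [Function.iterate_succ_apply, M.stepZ_eq]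
    exact ht
  · rintro ⟨t, ht⟩
    refine ⟨t, ?_⟩
    rw [← M.stepZ_eq, ← Function.iterate_succ_apply, Function.iterate_succ_apply', ht]
    exact M.stepZ_qh 1

theorem machZ_one (q : Fin M.nQ) (n : ℕ) :
    M.stepZ (q, (n : ℤ)) =
      ((M.toMach.step (q, n)).1, (((M.toMach.step (q, n)).2 : ℕ) : ℤ)) := by
  obtain ⟨k, j, rfl⟩ : ∃ (k : ℕ) (j : Fin M.A), n = M.A * k + (j : ℕ) :=
    ⟨n / M.A, ⟨n % M.A, Nat.mod_lt _ M.hA⟩, (Nat.div_add_mod n M.A).symm⟩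
  rw [Mach.step_eq]
  have h1 : ((M.A * k + (j : ℕ) : ℕ) : ℤ) = (M.A : ℤ) * (k : ℤ) + ((j : ℕ) : ℤ) := by
    push_cast
    ring
  rw [h1, M.stepZ_eq]
  push_cast
  rfl

/-- On natural numbers the run is the run of the machine `Mach.step`. -/
theorem stepZ_nat (t : ℕ) (q : Fin M.nQ) (n : ℕ) :
    M.stepZ^[t] (q, (n : ℤ)) =
      ((M.toMach.step^[t] (q, n)).1, (((M.toMach.step^[t] (q, n)).2 : ℕ) : ℤ)) := by
  induction t with
  | zero => rfl
  | succ t ih =>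
    rw [Function.iterate_succ_apply', Function.iterate_succ_apply', ih, M.machZ_one]

end PM

end Pool.Agent.H.MP_9a81ba_al.P
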