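import Pool.Agent.H.MP_9a81ba_al.P.AutoHom

/-!
The macro elements, the connected states and the homomorphism `psi`.
-/

namespace Pool.Agent.H.MP_9a81ba_al.P.PM

variable (M : PM)

/-- the macro element of a pair -/
def Mc (p : M.Pi) : C5 :=
  gn 3 ^ ((M.idx p : ℕ) + 1) * gn 1 ^ (-M.cc p) * gn 0 * gn 3 * gn 1 ^ (p.2 : ℕ) * gn 0

/-- `CP q g`: the macro path `g` leads from the state `q0` to the state `q` -/
inductive CP : Fin M.nQ → C5 → Prop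
  | base : CP M.q0 1
  | fwd (p : M.Pi) (g : C5) (h : CP p.1 g) (hp : p.1 ≠ M.qh) : CP (M.tg p) (M.Mc p * g)
  | bwd (p : M.Pi) (g : C5) (h : CP (M.tg p) g) (hp : p.1 ≠ M.qh) : CP p.1 ((M.Mc p)⁻¹ * g)

/-- connected states -/
def Cn (q : Fin M.nQ) : Prop := ∃ g, M.CP q g

theorem Cn_q0 : M.Cn M.q0 := ⟨1, CP.base⟩

theorem Cn_tg (p : M.Pi) (hp : p.1 ≠ M.qh) (h : M.Cn p.1) : M.Cn (M.tg p) :=
  ⟨_, CP.fwd p h.choose h.choose_spec hp⟩

theorem Cn_of_tg (p : M.Pi) (hp : p.1 ≠ M.qh) (h : M.Cn (M.tg p)) : M.Cn p.1 :=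
  ⟨_, CP.bwd p h.choose h.choose_spec hp⟩

open Classical in
/-- the chosen path to a state -/
noncomputable def Gq (q : Fin M.nQ) : C5 :=
  if q = M.q0 then 1 else if h : M.Cn q then h.choose else 1

theorem Gq_q0 : M.Gq M.q0 = 1 := by
  simp [Gq]

theorem Gq_spec (q : Fin M.nQ) (h : M.Cn q) : M.CP q (M.Gq q) := by
  unfold Gq
  by_cases hq : q = M.q0
  · rw [if_pos hq, hq]
    exact CP.base
  · rw [if_neg hq, dif_pos h]
    exact h.choose_spec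

/-- the path to a vertex -/
noncomputable def Gv : M.V → C5
  | Sum.inl (q, i) => (gn 3 ^ (i : ℕ))⁻¹ * M.Gq q
  | Sum.inr (Sum.inl q) => gn 0 * M.Gq q
  | Sum.inr (Sum.inr p) => gn 3 * gn 1 ^ (p.2 : ℕ) * gn 0 * M.Gq p.1

/-- the state of a vertex -/
def stt : M.V → Fin M.nQ
  | Sum.inl (q, _) => q
  | Sum.inr (Sum.inl q) => q
  | Sum.inr (Sum.inr p) => p.1

/-- the admissible vertices -/
def okv : M.V → Prop
  | Sum.inl (q, _) => M.Cn q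
  | Sum.inr (Sum.inl q) => q ≠ M.qh ∧ M.Cn q
  | Sum.inr (Sum.inr p) => p.1 ≠ M.qh ∧ M.Cn p.1

/-- the admissible pairs -/
def okp (p : M.Pi) : Prop := p.1 ≠ M.qh ∧ M.Cn p.1

open Classical in
/-- the images of the letters under `psi` -/
noncomputable def psl : M.Lt → C5
  | Sum.inl v => if M.okv v then (M.Gv v)⁻¹ * (gn 1 ^ M.sl v * (gn 2)⁻¹) * M.Gv v else 1
  | Sum.inr (Sum.inl p) => if M.okp p then (M.Gq (M.tg p))⁻¹ * M.Mc p * M.Gq p.1 else 1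
  | Sum.inr (Sum.inr _) =>
      if M.Cn M.qh then (M.Gq M.qh)⁻¹ * (gn 1)⁻¹ * gn 4 * gn 1 * M.Gq M.qh else 1

/-- the homomorphism `psi` -/
noncomputable def psi : M.W →* C5 := FreeGroup.lift M.psl

theorem psi_lam (v : M.V) (hv : M.okv v) :
    M.psi (M.lam v) = (M.Gv v)⁻¹ * (gn 1 ^ M.sl v * (gn 2)⁻¹) * M.Gv v := by
  simp [psi, lam, psl, hv]

theorem psi_lam' (v : M.V) (hv : ¬ M.okv v) : M.psi (M.lam v) = 1 := by
  simp [psi, lam, psl, hv]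

theorem psi_bet (p : M.Pi) (hp : M.okp p) :
    M.psi (M.bet p) = (M.Gq (M.tg p))⁻¹ * M.Mc p * M.Gq p.1 := by
  simp [psi, bet, psl, hp]

theorem psi_bet' (p : M.Pi) (hp : ¬ M.okp p) : M.psi (M.bet p) = 1 := by
  simp [psi, bet, psl, hp]

theorem psi_yl (h : M.Cn M.qh) :
    M.psi M.yl = (M.Gq M.qh)⁻¹ * (gn 1)⁻¹ * gn 4 * gn 1 * M.Gq M.qh := by
  simp [psi, yl, psl, h]

theorem psi_yl' (h : ¬ M.Cn M.qh) : M.psi M.yl = 1 := by
  simp [psi, yl, psl, h]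

/-- the base point -/
def w0 : M.V × ℤ := (M.Ch M.q0 0, 0)

end Pool.Agent.H.MP_9a81ba_al.P.PM
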