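import Pool.Agent.H.MP_9a81ba_al.P.MembKap

/-!
The range of `psi` is finitely presented.
-/

namespace Pool.Agent.H.MP_9a81ba_al.P.PM

variable (M : PM)

/-- Proof: the kernel of `psi.rangeRestrict` is the normal closure of the finite set of all
`(of l)⁻¹ * kap (of l)`: these elements lie in the kernel by `psi_kap`; conversely modulo the
normal closure `N`, `kap w ≡ w` for all `w` (`FreeGroup.ext_hom` for `mk' N` and
`(mk' N).comp kap`), so `psi w = 1` gives `kap w = 1` (`kap_eq_one`), hence `w ∈ N`. Use
`Group.IsFinitelyPresented.of_surjective` as in the end of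
`Pool/Agent/H/MP_9a81ba_al/FP.lean`, `fp_semidirect` (after transporting `W` to a free group on
`Fin n`, if this is needed). -/
theorem range_fp : Group.IsFinitelyPresented M.psi.range := by
  refine Group.IsFinitelyPresented.of_surjective M.psi.rangeRestrict
    M.psi.rangeRestrict_surjective ?_
  refine ⟨Set.range fun l : M.Lt => (FreeGroup.of l)⁻¹ * M.kap (FreeGroup.of l),
    Set.finite_range _, ?_⟩
  rw [MonoidHom.ker_rangeRestrict]
  apply le_antisymm
  · apply Subgroup.normalClosure_le_normal
    rintro _ ⟨l, rfl⟩
    change M.psi ((FreeGroup.of l)⁻¹ * M.kap (FreeGroup.of l)) = 1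
    rw [map_mul, map_inv, psi_kap, inv_mul_cancel]
  · intro w hw
    have h1 : (QuotientGroup.mk' (Subgroup.normalClosure
        (Set.range fun l : M.Lt => (FreeGroup.of l)⁻¹ * M.kap (FreeGroup.of l)))).comp M.kap =
        QuotientGroup.mk' (Subgroup.normalClosure
          (Set.range fun l : M.Lt => (FreeGroup.of l)⁻¹ * M.kap (FreeGroup.of l))) := by
      apply FreeGroup.ext_hom
      intro l
      simp only [MonoidHom.comp_apply, QuotientGroup.mk'_apply]
      rw [eq_comm, QuotientGroup.eq]
      exact Subgroup.subset_normalClosure ⟨l, rfl⟩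
    have h2 : M.kap w = 1 := M.kap_eq_one w hw
    have h3 := DFunLike.congr_fun h1 w
    rw [MonoidHom.comp_apply, h2, map_one] at h3
    exact (QuotientGroup.eq_one_iff w).1 h3.symm

end Pool.Agent.H.MP_9a81ba_al.P.PM
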