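import Pool.Agent.H.MP_9a81ba_al.P.MembPath

/-!
The endomorphism `kap`.
-/

namespace Pool.Agent.H.MP_9a81ba_al.P.PM

variable (M : PM)

/-- Proof: by cases on the vertex: `Gv v = (gn 3 ^ i)⁻¹ * Gq q` etc.; `Rt.mul` of `Rt_c_inv`,
`Rt_toD`, `Rt_toE` with `exists_kq`. -/
theorem Rt_Gv (v : M.V) (hv : M.okv v) :
    ∃ k : M.W, M.Rt (M.Gv v) M.w0 (v, 0) k ∧ M.psi k = 1 := by
  rcases v with ⟨q, i⟩ | q | p
  · obtain ⟨k, h1, h2⟩ := M.exists_kq q hv
    exact ⟨1 * k, (M.Rt_c_inv q i).mul h1, by rw [one_mul, h2]⟩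
  · obtain ⟨k, h1, h2⟩ := M.exists_kq q hv.2
    exact ⟨1 * k, (M.Rt_toD q hv.1).mul h1, by rw [one_mul, h2]⟩
  · obtain ⟨k, h1, h2⟩ := M.exists_kq p.1 hv.2
    exact ⟨1 * k, (M.Rt_toE p hv.1).mul h1, by rw [one_mul, h2]⟩

/-- the loop of a vertex -/
theorem membKap_loop (v : M.V) :
    M.Rt (gn 1 ^ M.sl v * (gn 2)⁻¹) (v, 0) (v, 0) (M.lam v) := by
  have h1 := M.Rt_T v (-M.sl v)
  rw [neg_add_cancel] at h1
  have h2 := M.Rt_S_zpow v (-M.sl v) (M.sl v)
  rw [neg_add_cancel] at h2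
  have h3 := h2.mul h1.inv
  rwa [one_mul, inv_inv] at h3

/-- For every letter `l` there is `k` with `Rt (psi l) w0 w0 k` and `psi k = psi l`.

Proof: by cases. `lam v` with `okv v`: take `k0` of `Rt_Gv`; at `(v, 0)` the element
`gn 1 ^ sl v * (gn 2)⁻¹` has `Rt .. (v, 0) (v, 0) (lam v)` (`Rt_T` at `(v, -sl v)` inverted, and
`Rt_S_zpow`), so `k = k0⁻¹ * lam v * k0`, and `psi k = psi (lam v)` because `psi k0 = 1`.
`bet p` with `okp p`: `k = k2⁻¹ * bet p * k1` with `k1` of `exists_kq` for `p.1`, `k2` for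
`tg p` (`Cn_tg`), by `Rt_Mc`. `yl` with `Cn qh`: `k = k0⁻¹ * yl * k0`: at `(Ch qh 0, 1)` the
point lies in `CC` (`HZ_qh_one`) and `mf mu (Ch qh 0, 1) = mu qh 1 * lam (Ch qh 0) ^ 1 = 1` by
`mu_spec.1`. For the remaining letters `psi l = 1` and `k = 1`. -/
theorem kap_letter (l : M.Lt) :
    ∃ k : M.W, M.Rt (M.psi (FreeGroup.of l)) M.w0 M.w0 k ∧ M.psi k = M.psi (FreeGroup.of l) := by
  rcases l with v | p | y
  · by_cases hv : M.okv v
    · obtain ⟨k, h1, h2⟩ := M.Rt_Gv v hv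
      have e : M.psi (FreeGroup.of (Sum.inl v)) =
          (M.Gv v)⁻¹ * (gn 1 ^ M.sl v * (gn 2)⁻¹) * M.Gv v := M.psi_lam v hv
      refine ⟨k⁻¹ * M.lam v * k, ?_, ?_⟩
      · rw [e]
        exact (h1.inv.mul (M.membKap_loop v)).mul h1
      · rw [map_mul, map_mul, map_inv, h2, inv_one, one_mul, mul_one]
        rfl
    · have e : M.psi (FreeGroup.of (Sum.inl v)) = 1 := M.psi_lam' v hv
      rw [e]
      exact ⟨1, Rt.one _, map_one _⟩
  · by_cases hp : M.okp p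
    · obtain ⟨k1, a1, a2⟩ := M.exists_kq p.1 hp.2
      obtain ⟨k2, c1, c2⟩ := M.exists_kq (M.tg p) (M.Cn_tg p hp.1 hp.2)
      have e : M.psi (FreeGroup.of (Sum.inr (Sum.inl p))) =
          (M.Gq (M.tg p))⁻¹ * M.Mc p * M.Gq p.1 := M.psi_bet p hp
      refine ⟨k2⁻¹ * M.bet p * k1, ?_, ?_⟩
      · rw [e]
        exact (c1.inv.mul (M.Rt_Mc p hp.1)).mul a1
      · rw [map_mul, map_mul, map_inv, a2, c2, inv_one, one_mul, mul_one]
        rfl
    · have e : M.psi (FreeGroup.of (Sum.inr (Sum.inl p))) = 1 := M.psi_bet' p hp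
      rw [e]
      exact ⟨1, Rt.one _, map_one _⟩
  · by_cases hq : M.Cn M.qh
    · obtain ⟨k, h1, h2⟩ := M.exists_kq M.qh hq
      have e : M.psi (FreeGroup.of (Sum.inr (Sum.inr y))) =
          (M.Gq M.qh)⁻¹ * (gn 1)⁻¹ * gn 4 * gn 1 * M.Gq M.qh := M.psi_yl hq
      have e1 : M.mf M.mu (M.Ch M.qh 0, 1) = 1 := by
        show M.mu M.qh 1 * M.lam (M.Ch M.qh 0) ^ (1 : ℤ) = 1
        rw [M.mu_spec.1, zpow_one, inv_mul_cancel]
      have h3 := M.Rt_x (M.Ch M.qh 0, 1) M.HZ_qh_one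
      rw [e1, inv_one, one_mul, mul_one] at h3
      have h4 : M.Rt (gn 1) (M.Ch M.qh 0, 0) (M.Ch M.qh 0, 1) 1 := by
        have h5 := M.Rt_S (M.Ch M.qh 0) 0
        rwa [zero_add] at h5
      have h6 := (((h1.inv.mul h4.inv).mul h3).mul h4).mul h1
      refine ⟨_, by rw [e]; exact h6, ?_⟩
      rw [inv_one, mul_one, mul_one, map_mul, map_mul, map_inv, h2, inv_one, one_mul, mul_one]
      rfl
    · have e : M.psi (FreeGroup.of (Sum.inr (Sum.inr y))) = 1 := M.psi_yl' hq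
      rw [e]
      exact ⟨1, Rt.one _, map_one _⟩

/-- the endomorphism `kap` of `W` -/
noncomputable def kap : M.W →* M.W := FreeGroup.lift fun l => (M.kap_letter l).choose

theorem psi_kap (w : M.W) : M.psi (M.kap w) = M.psi w := by
  have h : M.psi.comp M.kap = M.psi := by
    apply FreeGroup.ext_hom
    intro l
    simp only [MonoidHom.comp_apply, kap, FreeGroup.lift_apply_of]
    exact (M.kap_letter l).choose_spec.2
  exact DFunLike.congr_fun h w

/-- Proof: `FreeGroup.induction_on` with `Rt.one`, `Rt.mul`, `Rt.inv` and `kap_letter`. -/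
theorem Rt_psi (w : M.W) : M.Rt (M.psi w) M.w0 M.w0 (M.kap w) := by
  have hof : ∀ l : M.Lt, M.Rt (M.psi (FreeGroup.of l)) M.w0 M.w0 (M.kap (FreeGroup.of l)) := by
    intro l
    have h : M.kap (FreeGroup.of l) = (M.kap_letter l).choose := by
      simp only [kap, FreeGroup.lift_apply_of]
    rw [h]
    exact (M.kap_letter l).choose_spec.1
  induction w using FreeGroup.induction_on with
  | C1 =>
    rw [map_one, map_one]
    exact Rt.one _
  | of l => exact hof l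
  | inv_of l _ =>
    rw [map_inv, map_inv]
    exact (hof l).inv
  | mul x y hx hy =>
    rw [map_mul, map_mul]
    exact hx.mul hy

/-- Proof: by `Rt_psi`, `(w0, false, kap w * 1) = (w0, false, 1)`. -/
theorem kap_eq_one (w : M.W) (h : M.psi w = 1) : M.kap w = 1 := by
  have h1 := M.Rt_psi w false 1
  rw [h, map_one] at h1
  have h2 := congrArg (fun s => s.2.2) h1
  simpa using h2.symm

end Pool.Agent.H.MP_9a81ba_al.P.PM
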