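import Pool.Agent.H.MP_9a81ba_al.P.MembDef

/-!
The macro elements move the points as they should; the telescoping lemma.
-/

namespace Pool.Agent.H.MP_9a81ba_al.P.PM

variable (M : PM)

/-- On the chain, at height `0`, the powers of `c` have trivial cocycle. Proof: induction on `n`
(`Rt_c`, `fc_ch`, `kc_ch` with `z = 0`, `Rt.mul`; `⟨i + n + 1, _⟩ - 1 = ⟨i + n, _⟩` in
`Fin (K + 1)`). -/
theorem Rt_c_pow (q : Fin M.nQ) (i n : ℕ) (h : i + n < M.K + 1) :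
    M.Rt (gn 3 ^ n) (M.Ch q ⟨i + n, h⟩, 0) (M.Ch q ⟨i, by omega⟩, 0) 1 := by
  induction n with
  | zero =>
    rw [pow_zero]
    exact Rt.one (M := M) _
  | succ n ih =>
    have h1 : i + n < M.K + 1 := by omega
    have h2 := ih h1
    have h3 := M.Rt_c (M.Ch q ⟨i + (n + 1), h⟩, 0)
    have e1 : (⟨i + (n + 1), h⟩ : Fin (M.K + 1)) - 1 = ⟨i + n, h1⟩ := by
      apply Fin.ext
      rw [Fin.val_sub_one_of_ne_zero]
      · simp only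
        omega
      · intro h0
        have := congrArg Fin.val h0
        simp at this
    have e2 : M.kc (M.Ch q ⟨i + (n + 1), h⟩, 0) = 1 := by
      rw [kc_ch]
      simp
    rw [fc_ch, e1, e2] at h3
    have h4 := h2.mul h3
    rw [one_mul, ← pow_succ] at h4
    exact h4

/-- `(Ch q 0, 0)` is moved to `(Ch q i, 0)` by `c ^ (-i)`. Proof: `Rt_c_pow` with `0` and `i`, and
`Rt.inv`. -/
theorem Rt_c_inv (q : Fin M.nQ) (i : Fin (M.K + 1)) :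
    M.Rt (gn 3 ^ (i : ℕ))⁻¹ (M.Ch q 0, 0) (M.Ch q i, 0) 1 := by
  have h1 : 0 + (i : ℕ) < M.K + 1 := by
    have := i.isLt
    omega
  have h2 := (M.Rt_c_pow q 0 i h1).inv
  have e1 : (⟨0 + (i : ℕ), h1⟩ : Fin (M.K + 1)) = i := by
    apply Fin.ext
    simp
  have e2 : (⟨0, by omega⟩ : Fin (M.K + 1)) = 0 := rfl
  rw [e1, e2, inv_one] at h2
  exact h2

/-- the vertex `D` is reached. Proof: `Rt_b`, `fb_ch0`, `kb_ch0`. -/
theorem Rt_toD (q : Fin M.nQ) (hq : q ≠ M.qh) :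
    M.Rt (gn 0) (M.Ch q 0, 0) (M.D q, 0) 1 := by
  have h := M.Rt_b (M.Ch q 0, 0)
  rw [M.fb_ch0 q 0 hq, kb_ch0] at h
  exact h

/-- the vertex `E` is reached. Proof: `Rt_toD`, then `Rt_S_pow` to `(D q, j)`, then `Rt_c` at
`(D q, A * 0 + j)` (`fc_D`, `kc_D` with `m = 0`). -/
theorem Rt_toE (p : M.Pi) (hp : p.1 ≠ M.qh) :
    M.Rt (gn 3 * gn 1 ^ (p.2 : ℕ) * gn 0) (M.Ch p.1 0, 0) (M.E p, 0) 1 := by
  have h1 := M.Rt_toD p.1 hp
  have h2 := M.Rt_S_pow (M.D p.1) (p.2 : ℕ) 0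
  have h3 := M.Rt_c (M.D p.1, M.A * 0 + ((p.2 : ℕ) : ℤ))
  rw [M.fc_D p.1 p.2 0 hp, M.kc_D p.1 p.2 0 hp] at h3
  simp only [mul_zero, neg_zero, zpow_zero, mul_one] at h3
  have h4 := (h3.mul h2).mul h1
  simp only [mul_one] at h4
  exact h4

/-- **The macro step.** Proof: `Rt_toE`, then `Rt_b` at `(E p, 0)` (`fb_E`, `kb_E`) to
`(Ch (tg p) (idx p).succ, cc p)`, then `Rt_S_zpow` to height `0`, then `Rt_c_pow` with
`0` and `n = idx p + 1`. -/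
theorem Rt_Mc (p : M.Pi) (hp : p.1 ≠ M.qh) :
    M.Rt (M.Mc p) (M.Ch p.1 0, 0) (M.Ch (M.tg p) 0, 0) (M.bet p) := by
  have h1 := M.Rt_toE p hp
  have h2 := M.Rt_b (M.E p, 0)
  rw [M.fb_E p 0 hp, M.kb_E p 0 hp] at h2
  have h3 := M.Rt_S_zpow (M.Ch (M.tg p) (M.idx p).succ) (0 + M.cc p) (-M.cc p)
  have e3 : 0 + M.cc p + -M.cc p = 0 := by ring
  rw [e3] at h3
  have h4' : 0 + ((M.idx p : ℕ) + 1) < M.K + 1 := by
    have := (M.idx p).isLt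
    omega
  have h4 := M.Rt_c_pow (M.tg p) 0 ((M.idx p : ℕ) + 1) h4'
  have e1 : (⟨0 + ((M.idx p : ℕ) + 1), h4'⟩ : Fin (M.K + 1)) = (M.idx p).succ := by
    apply Fin.ext
    simp
  have e2 : (⟨0, by omega⟩ : Fin (M.K + 1)) = 0 := rfl
  rw [e1, e2] at h4
  have h5 := ((h4.mul h3).mul h2).mul h1
  simp only [mul_one, one_mul] at h5
  have e5 : M.Mc p = gn 3 ^ ((M.idx p : ℕ) + 1) * gn 1 ^ (-M.cc p) * gn 0 *
      (gn 3 * gn 1 ^ (p.2 : ℕ) * gn 0) := by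
    unfold Mc
    simp only [mul_assoc]
  rw [e5]
  exact h5

/-- **Telescoping.** Proof: induction on `CP q g`. `base`: `k = 1` and `Gq q0 = 1`. `fwd`: the
cocycle is `bet p * k` (`Rt_Mc`, `Rt.mul`) and `psi (bet p * k) =
(Gq (tg p))⁻¹ * Mc p * Gq p.1 * ((Gq p.1)⁻¹ * g)` (`psi_bet`; `okp p` because `p.1` is
connected). `bwd`: `(bet p)⁻¹ * k` (`Rt.inv`), similarly; `p.1` is connected by `Cn_of_tg`. -/
theorem CP_Rt (q : Fin M.nQ) (g : C5) (h : M.CP q g) :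
    ∃ k : M.W, M.Rt g M.w0 (M.Ch q 0, 0) k ∧ M.psi k = (M.Gq q)⁻¹ * g := by
  induction h with
  | base =>
    refine ⟨1, Rt.one (M := M) _, ?_⟩
    rw [map_one, M.Gq_q0, inv_one, one_mul]
  | fwd p g h hp ih =>
    obtain ⟨k, h1, h2⟩ := ih
    refine ⟨M.bet p * k, (M.Rt_Mc p hp).mul h1, ?_⟩
    rw [map_mul, M.psi_bet p ⟨hp, ⟨g, h⟩⟩, h2]
    simp only [mul_assoc, mul_inv_cancel_left]
  | bwd p g h hp ih =>
    obtain ⟨k, h1, h2⟩ := ih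
    refine ⟨(M.bet p)⁻¹ * k, (M.Rt_Mc p hp).inv.mul h1, ?_⟩
    rw [map_mul, map_inv, M.psi_bet p ⟨hp, M.Cn_of_tg p hp ⟨g, h⟩⟩, h2]
    simp only [mul_assoc, mul_inv_cancel_left, _root_.mul_inv_rev, inv_inv]

/-- Proof: `CP_Rt` for `g = Gq q`. -/
theorem exists_kq (q : Fin M.nQ) (h : M.Cn q) :
    ∃ k : M.W, M.Rt (M.Gq q) M.w0 (M.Ch q 0, 0) k ∧ M.psi k = 1 := by
  obtain ⟨k, h1, h2⟩ := M.CP_Rt q _ (M.Gq_spec q h)
  exact ⟨k, h1, by rw [h2, inv_mul_cancel]⟩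

end Pool.Agent.H.MP_9a81ba_al.P.PM
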