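import Pool.Agent.H.MP_9a81ba_al.P.SetsDef
import Pool.Agent.H.MP_9a81ba_al.P.Pent

/-!
The homomorphism from the pentagon group to the automorphism group of the free group of rank two,
and the auxiliary action on the set of elements.
-/

namespace Pool.Agent.H.MP_9a81ba_al.P

theorem pingDef_cases (τ g : Bool) : g = τ ∨ g = !τ := by
  cases τ <;> cases g <;> simp

theorem pingDef_q (α β : ℤ) : twh true α β (FreeGroup.of true) =
    FreeGroup.of false ^ α * FreeGroup.of true * FreeGroup.of false ^ β := twh_self true α β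

theorem pingDef_p (α β : ℤ) : twh true α β (FreeGroup.of false) = FreeGroup.of false :=
  twh_not true α β

/-- Proof: `FreeGroup.ext_hom`; on `of τ` both sides are
`σ ^ (α' + α) * τ * σ ^ (β + β')`, on `of (!τ)` both sides are `of (!τ)`. -/
theorem twh_comp (τ : Bool) (α β α' β' : ℤ) (y : F2) :
    twh τ α β (twh τ α' β' y) = twh τ (α + α') (β + β') y := by
  have h : (twh τ α β).comp (twh τ α' β') = twh τ (α + α') (β + β') := by
    refine FreeGroup.ext_hom _ _ fun g => ?_
    rw [MonoidHom.comp_apply]
    rcases pingDef_cases τ g with rfl | rfl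
    · rw [twh_self, twh_self, map_mul, map_mul, map_zpow, map_zpow, twh_not, twh_self]
      rw [add_comm α α', zpow_add, zpow_add]
      simp only [mul_assoc]
    · rw [twh_not, twh_not, twh_not]
  exact DFunLike.congr_fun h y

theorem twh_zero (τ : Bool) (y : F2) : twh τ 0 0 y = y := by
  have h : twh τ 0 0 = MonoidHom.id _ := by
    refine FreeGroup.ext_hom _ _ fun g => ?_
    rw [MonoidHom.id_apply]
    rcases pingDef_cases τ g with rfl | rfl
    · rw [twh_self, zpow_zero, one_mul, mul_one]
    · rw [twh_not]
  exact DFunLike.congr_fun h y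

/-- the twist as an automorphism -/
def twA (τ : Bool) (α β : ℤ) : MulAut F2 where
  toFun := twh τ α β
  invFun := twh τ (-α) (-β)
  left_inv y := by rw [twh_comp, neg_add_cancel, neg_add_cancel, twh_zero]
  right_inv y := by rw [twh_comp, add_neg_cancel, add_neg_cancel, twh_zero]
  map_mul' := map_mul _

theorem twA_apply (τ : Bool) (α β : ℤ) (y : F2) : twA τ α β y = twh τ α β y := rfl

theorem pingDef_mul (τ : Bool) (α β α' β' : ℤ) :
    twA τ α β * twA τ α' β' = twA τ (α + α') (β + β') :=
  MulEquiv.ext fun y => twh_comp τ α β α' β' y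

theorem pingDef_one (τ : Bool) : twA τ 0 0 = 1 :=
  MulEquiv.ext fun y => twh_zero τ y

theorem pingDef_inv (τ : Bool) (α β : ℤ) : (twA τ α β)⁻¹ = twA τ (-α) (-β) := by
  refine inv_eq_of_mul_eq_one_right ?_
  rw [pingDef_mul, add_neg_cancel, add_neg_cancel, pingDef_one]

theorem twA_zpow (τ : Bool) (α β n : ℤ) : twA τ α β ^ n = twA τ (n * α) (n * β) := by
  induction n using Int.induction_on with
  | zero =>
    rw [zpow_zero, zero_mul, zero_mul, pingDef_one]
  | succ n ih =>
    rw [zpow_add_one, ih, pingDef_mul]
    congr 1 <;> ring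
  | pred n ih =>
    rw [zpow_sub_one, ih, pingDef_inv, pingDef_mul]
    congr 1 <;> ring

theorem twA_comm (τ : Bool) (α β α' β' : ℤ) : Commute (twA τ α β) (twA τ α' β') := by
  show _ * _ = _ * _
  rw [pingDef_mul, pingDef_mul, add_comm α α', add_comm β β']

/-- `S` fixes `cb false`, where `S = twh true 6 0` -/
theorem S_cb : twh true 6 0 (cb false) = cb false := by
  rw [cb, lt, if_neg (by decide)]
  simp only [map_mul, map_inv, pingDef_q, pingDef_p, zpow_zero, mul_one]
  group

/-- `T` fixes `cb true`, where `T = twh true 0 6` -/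
theorem T_cb : twh true 0 6 (cb true) = cb true := by
  rw [cb, lt, if_pos rfl, map_mul, map_mul, map_mul, map_inv, map_inv, pingDef_q, pingDef_p]
  simp only [zpow_zero, one_mul]
  group

/-- `x` fixes `cb ε` -/
theorem x_cb (ε : Bool) : twh false 0 6 (cb ε) = cb ε := by
  have h1 : twh false 0 6 (FreeGroup.of true) = FreeGroup.of true := twh_not false 0 6
  have h2 : twh false 0 6 (FreeGroup.of false) = FreeGroup.of false * FreeGroup.of true ^ (6 : ℤ) := by
    have h3 := twh_self false 0 6
    rw [zpow_zero, one_mul] at h3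
    exact h3
  cases ε with
  | false =>
    rw [cb, lt, if_neg (by decide)]
    simp only [map_mul, map_inv, h1, h2]
    group
  | true =>
    rw [cb, lt, if_pos rfl, map_mul, map_mul, map_mul, map_inv, map_inv, h1, h2]
    group

theorem pingDef_conj (f : MulAut F2) (c : F2) (h : f c = c) : Commute f (MulAut.conj c) := by
  refine MulEquiv.ext fun y => ?_
  show f (c * y * c⁻¹) = c * f y * c⁻¹
  rw [map_mul, map_mul, map_inv, h]

theorem pingDef_left (f : MulAut F2) (c : F2) (h : f c = c) :
    Commute (f.toEquiv : Equiv.Perm F2) (Equiv.mulLeft c) := by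
  refine Equiv.ext fun y => ?_
  show f (c * y) = c * f y
  rw [map_mul, h]

/-- the images of the generators in `Aut F2` -/
def rg : Fin 5 → MulAut F2 :=
  ![MulAut.conj (cb false), twA true 6 0, twA true 0 6, MulAut.conj (cb true), twA false 0 6]

/-- Proof: `fin_cases i`. If `f c = c` then `f * conj c = conj c * f`; `twA_comm`. -/
theorem rg_comm (i : Fin 5) : Commute (rg i) (rg (i + 1)) := by
  fin_cases i
  · exact (pingDef_conj (twA true 6 0) (cb false) S_cb).symm
  · exact twA_comm true 6 0 0 6
  · exact pingDef_conj (twA true 0 6) (cb true) T_cb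
  · exact (pingDef_conj (twA false 0 6) (cb true) (x_cb true)).symm
  · exact pingDef_conj (twA false 0 6) (cb false) (x_cb false)

/-- the homomorphism to the automorphism group -/
def rho : C5 →* MulAut F2 := c5lift rg rg_comm

/-- the permutation `T` of the set -/
def pT2 : Equiv.Perm F2 :=
  Equiv.mulLeft (FreeGroup.of false ^ (-6 : ℤ)) * (twA true 6 0).toEquiv

/-- the images of the generators in the permutation group -/
def sgm : Fin 5 → Equiv.Perm F2 :=
  ![Equiv.mulLeft (cb false), (twA true 6 0).toEquiv, pT2, Equiv.mulLeft (cb true),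
    (twA false 0 6).toEquiv]

/-- Proof: `fin_cases i` and `Equiv.ext`: `S (c₁ y) = c₁ S y`; `S (p⁻⁶ S y) = p⁻⁶ S (S y)`;
`p⁻⁶ S (c₂ y) = c₂ p⁻⁶ S y`, because `S c₂ = p⁶ c₂ p⁻⁶` (`c₂ = cb true`); `x (c y) = c x y` for
`c = cb ε`. -/
theorem sgm_comm (i : Fin 5) : Commute (sgm i) (sgm (i + 1)) := by
  fin_cases i
  · exact (pingDef_left (twA true 6 0) (cb false) S_cb).symm
  · refine Equiv.ext fun y => ?_
    show twh true 6 0 (FreeGroup.of false ^ (-6 : ℤ) * twh true 6 0 y) =
      FreeGroup.of false ^ (-6 : ℤ) * twh true 6 0 (twh true 6 0 y)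
    rw [map_mul, map_zpow, pingDef_p]
  · refine Equiv.ext fun y => ?_
    show FreeGroup.of false ^ (-6 : ℤ) * twh true 6 0 (cb true * y) =
      cb true * (FreeGroup.of false ^ (-6 : ℤ) * twh true 6 0 y)
    have h1 : twh true 6 0 (cb true) = FreeGroup.of false ^ (6 : ℤ) * cb true *
        FreeGroup.of false ^ (-6 : ℤ) := by
      rw [cb, lt, if_pos rfl, map_mul, map_mul, map_mul, map_inv, map_inv, pingDef_q, pingDef_p]
      simp only [zpow_zero, mul_one]
      group
    rw [map_mul, h1]
    group
  · exact (pingDef_left (twA false 0 6) (cb true) (x_cb true)).symm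
  · exact pingDef_left (twA false 0 6) (cb false) (x_cb false)

/-- the action on the set -/
def sig : C5 →* Equiv.Perm F2 := c5lift sgm sgm_comm

/-- Proof: `c5_induction` with the statement `∀ y, sig g y = rho g y * sig g 1`. For the
generators: `cb y = (cb y cb⁻¹) cb`; `S`, `x` fix `1`; `p⁻⁶ S y = (twh true 0 6 y) p⁻⁶` (both sides
are `p⁻⁶` times a homomorphism conjugated, check on `p`, `q`). Products:
`sig (g h) y = sig g (rho h y * sig h 1) = rho g (rho h y * sig h 1) * sig g 1`, and
`sig (g h) 1 = rho g (sig h 1) * sig g 1`. Inverses: apply the statement for `g` to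
`rho g⁻¹ y * sig g⁻¹ 1`. -/
theorem sig_eq (g : C5) (y : F2) : sig g y = rho g y * sig g 1 := by
  revert y
  induction g using c5_induction with
  | h1 =>
    intro y
    rw [map_one, map_one]
    exact (mul_one y).symm
  | hg i =>
    intro y
    unfold sig rho
    rw [c5lift_gn, c5lift_gn]
    fin_cases i
    · show cb false * y = cb false * y * (cb false)⁻¹ * (cb false * 1)
      group
    · show twh true 6 0 y = twh true 6 0 y * twh true 6 0 1
      rw [map_one, mul_one]
    · show FreeGroup.of false ^ (-6 : ℤ) * twh true 6 0 y =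
        twh true 0 6 y * (FreeGroup.of false ^ (-6 : ℤ) * twh true 6 0 1)
      have h : (MulAut.conj (FreeGroup.of false ^ (-6 : ℤ) : F2)).toMonoidHom.comp (twh true 6 0) =
          twh true 0 6 := by
        refine FreeGroup.ext_hom _ _ fun g => ?_
        rw [MonoidHom.comp_apply]
        cases g with
        | false =>
          rw [pingDef_p, pingDef_p]
          show FreeGroup.of false ^ (-6 : ℤ) * FreeGroup.of false * (FreeGroup.of false ^ (-6 : ℤ))⁻¹ =
            FreeGroup.of false
          group
        | true =>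
          rw [pingDef_q, pingDef_q]
          show FreeGroup.of false ^ (-6 : ℤ) * (FreeGroup.of false ^ (6 : ℤ) * FreeGroup.of true *
            FreeGroup.of false ^ (0 : ℤ)) * (FreeGroup.of false ^ (-6 : ℤ))⁻¹ =
            FreeGroup.of false ^ (0 : ℤ) * FreeGroup.of true * FreeGroup.of false ^ (6 : ℤ)
          group
      have h2 : FreeGroup.of false ^ (-6 : ℤ) * twh true 6 0 y * (FreeGroup.of false ^ (-6 : ℤ))⁻¹ =
          twh true 0 6 y := DFunLike.congr_fun h y
      rw [← h2, map_one]
      group
    · show cb true * y = cb true * y * (cb true)⁻¹ * (cb true * 1)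
      group
    · show twh false 0 6 y = twh false 0 6 y * twh false 0 6 1
      rw [map_one, mul_one]
  | hm a b ha hb =>
    intro y
    have e1 : ∀ z, sig (a * b) z = sig a (sig b z) := by
      intro z
      rw [map_mul]
      rfl
    have e2 : rho (a * b) y = rho a (rho b y) := by
      rw [map_mul]
      rfl
    rw [e1, e1, e2, hb y, ha (rho b y * sig b 1), ha (sig b 1), map_mul]
    simp only [mul_assoc]
  | hi a ha =>
    intro y
    have e1 : ∀ z, sig a (sig a⁻¹ z) = z := by
      intro z
      rw [map_inv]
      exact Equiv.apply_symm_apply (sig a) z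
    have e2 : rho a (rho a⁻¹ y) = y := by
      rw [map_inv]
      exact MulEquiv.apply_symm_apply (rho a) y
    apply (sig a).injective
    rw [e1, ha (rho a⁻¹ y * sig a⁻¹ 1), map_mul, e2, mul_assoc, ← ha, e1, mul_one]

end Pool.Agent.H.MP_9a81ba_al.P
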