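import Pool.Agent.H.MP_9a81ba_al.P.PingDef

/-!
The powers of the generators on the set.
-/

namespace Pool.Agent.H.MP_9a81ba_al.P

theorem pingPow_gn (i : Fin 5) (n : ℤ) : sig (gn i ^ n) = sgm i ^ n := by
  rw [map_zpow, sig, c5lift_gn]

theorem pingPow_left (c : F2) (n : ℤ) (y : F2) : ((Equiv.mulLeft c : Equiv.Perm F2) ^ n) y =
    c ^ n * y := by
  rw [Equiv.zpow_mulLeft]
  rfl

theorem pingPow_tw (τ : Bool) (α β n : ℤ) (y : F2) :
    (((twA τ α β).toEquiv : Equiv.Perm F2) ^ n) y = twh τ (n * α) (n * β) y := by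
  have h : ((twA τ α β).toEquiv : Equiv.Perm F2) = MulAut.toPerm F2 (twA τ α β) := rfl
  rw [h, ← map_zpow, twA_zpow]
  rfl

theorem pingPow_p (α β : ℤ) (n : ℤ) : twh true α β (FreeGroup.of false ^ n) =
    FreeGroup.of false ^ n := by
  rw [map_zpow]
  have h : twh true α β (FreeGroup.of false) = FreeGroup.of false := twh_not true α β
  rw [h]

theorem sig_b (n : ℤ) (y : F2) : sig (gn 0 ^ n) y = cb false ^ n * y := by
  rw [pingPow_gn]
  exact pingPow_left _ _ _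

theorem sig_c (n : ℤ) (y : F2) : sig (gn 3 ^ n) y = cb true ^ n * y := by
  rw [pingPow_gn]
  exact pingPow_left _ _ _

/-- Proof: `twA_zpow`. -/
theorem sig_S (n : ℤ) (y : F2) : sig (gn 1 ^ n) y = dt true n y := by
  rw [pingPow_gn]
  have h : (sgm 1 ^ n) y = twh true (n * 6) (n * 0) y := pingPow_tw _ _ _ _ _
  rw [h, dt, if_pos rfl, zpow_zero, one_mul, mul_zero, mul_comm n 6]

/-- Proof: `pT2 = mulLeft (p⁻⁶) * S` and the two factors commute (`S p = p`), so
`pT2 ^ n = mulLeft (p⁻⁶) ^ n * S ^ n`. -/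
theorem sig_T (n : ℤ) (y : F2) : sig (gn 2 ^ n) y = dt false n y := by
  rw [pingPow_gn]
  have hc : Commute (Equiv.mulLeft (FreeGroup.of false ^ (-6 : ℤ)) : Equiv.Perm F2)
      ((twA true 6 0).toEquiv : Equiv.Perm F2) := by
    apply Equiv.ext
    intro z
    show FreeGroup.of false ^ (-6 : ℤ) * twh true 6 0 z =
      twh true 6 0 (FreeGroup.of false ^ (-6 : ℤ) * z)
    rw [map_mul, pingPow_p]
  have h : (sgm 2 ^ n) y = FreeGroup.of false ^ (-(6 * n)) * twh true (n * 6) (n * 0) y := by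
    show ((Equiv.mulLeft (FreeGroup.of false ^ (-6 : ℤ)) * (twA true 6 0).toEquiv :
      Equiv.Perm F2) ^ n) y = _
    rw [hc.mul_zpow, Equiv.Perm.mul_apply, pingPow_left, pingPow_tw, ← zpow_mul]
    congr 2
    ring
  rw [h, dt, if_neg (by simp), mul_zero, mul_comm n 6]

theorem sig_x (n : ℤ) (y : F2) : sig (gn 4 ^ n) y = twh false 0 (6 * n) y := by
  rw [pingPow_gn]
  have h : (sgm 4 ^ n) y = twh false (n * 0) (n * 6) y := pingPow_tw _ _ _ _ _
  rw [h, mul_zero, mul_comm n 6]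

/-- Proof: `sig_S`, `sig_T`, `twh_comp`, `twh true _ 0 p = p`. -/
theorem sig_ST (n m : ℤ) (y : F2) : sig (gn 1 ^ n * gn 2 ^ m) y =
    FreeGroup.of false ^ (-(6 * m)) * twh true (6 * (n + m)) 0 y := by
  rw [map_mul, Equiv.Perm.mul_apply, sig_T, sig_S, dt, dt, if_pos rfl, if_neg (by simp),
    zpow_zero, one_mul, map_mul, pingPow_p, twh_comp, add_zero, mul_add]

end Pool.Agent.H.MP_9a81ba_al.P
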