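import Mathlib

/-!
Scanning of reduced words in the free group on two letters. The generator `false` is `p`, the
generator `true` is `q`; a letter `(g, s)` is `g` if `s = true` and `g⁻¹` if `s = false`.
-/

namespace Pool.Agent.H.MP_9a81ba_al.P

/-- the free group on `p = of false` and `q = of true` -/
abbrev F2 : Type := FreeGroup Bool

/-- the sign of a Boolean -/
def sg : Bool → ℤ
  | true => 1
  | false => -1

theorem sg_not (s : Bool) : sg (!s) = - sg s := by cases s <;> rfl

theorem abs_sg (s : Bool) : |sg s| = 1 := by cases s <;> rfl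

/-- `scan τ l n L`: read the word `L`; count the exponents of the letter `!τ`; at a letter `τ`
whose sign is `l` stop and return the count, at a letter `τ` with the other sign go on with `l`
replaced by its sign and the count `0` -/
def scan (τ : Bool) : Bool → ℤ → List (Bool × Bool) → Option ℤ
  | _, _, [] => none
  | l, n, (g, s) :: L =>
      if g = τ then (if s = l then some n else scan τ s 0 L) else scan τ l (n + sg s) L

/-- Proof: induction on `L` (all `l`, `n`): the two scans are parallel until the first letter
`τ`; there the first returns `n + d` (`t' = t + d`), or both continue with the count `0`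
(`t' = t`). -/
theorem scan_add (τ : Bool) (L : List (Bool × Bool)) : ∀ (l : Bool) (n d t : ℤ),
    scan τ l n L = some t → ∃ t', scan τ l (n + d) L = some t' ∧ (t' = t ∨ t' = t + d) := by
  induction L with
  | nil =>
    intro l n d t h
    simp [scan] at h
  | cons a L ih =>
    obtain ⟨g, s⟩ := a
    intro l n d t h
    by_cases hg : g = τ
    · by_cases hs : s = l
      · rw [scan, if_pos hg, if_pos hs] at h
        have h1 : n = t := Option.some.inj h
        refine ⟨t + d, ?_, Or.inr rfl⟩
        rw [scan, if_pos hg, if_pos hs, h1]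
      · rw [scan, if_pos hg, if_neg hs] at h
        refine ⟨t, ?_, Or.inl rfl⟩
        rw [scan, if_pos hg, if_neg hs]
        exact h
    · rw [scan, if_neg hg] at h
      obtain ⟨t', h1, h2⟩ := ih l (n + sg s) d t h
      refine ⟨t', ?_, h2⟩
      rw [scan, if_neg hg, add_right_comm]
      exact h1

theorem scan_AB (L : List (Bool × Bool)) : ∀ (τ l s : Bool) (n t : ℤ),
    (FreeGroup.IsReduced ((!τ, s) :: L) → |n| ≤ 1 → scan τ l n L = some t → 3 ≤ |t| →
      ∃ t', scan (!τ) s 0 L = some t' ∧ |t'| ≤ 1) ∧
    (FreeGroup.IsReduced ((τ, s) :: L) → scan τ s 0 L = some t → 3 ≤ |t| →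
      ∀ (l' : Bool) (n' : ℤ), |n'| ≤ 1 → ∃ t', scan (!τ) l' n' L = some t' ∧ |t'| ≤ 1) := by
  induction L with
  | nil =>
    intro τ l s n t
    exact ⟨fun _ _ h => by simp [scan] at h, fun _ h => by simp [scan] at h⟩
  | cons a L ih =>
    obtain ⟨g, s'⟩ := a
    intro τ l s n t
    constructor
    · intro hr hn h ht
      have hr' : FreeGroup.IsReduced ((g, s') :: L) := (List.isChain_cons_cons.1 hr).2
      have hr1 := (List.isChain_cons_cons.1 hr).1
      by_cases hg : g = τ
      · subst hg
        have hgn : g ≠ !g := by cases g <;> simp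
        by_cases hs : s' = l
        · rw [scan, if_pos rfl, if_pos hs] at h
          have h1 : n = t := Option.some.inj h
          rw [h1] at hn
          omega
        · rw [scan, if_pos rfl, if_neg hs] at h
          obtain ⟨t', h1, h2⟩ := (ih g l s' n t).2 hr' h ht s (0 + sg s') (by
            rw [zero_add, abs_sg])
          refine ⟨t', ?_, h2⟩
          rw [scan, if_neg hgn]
          exact h1
      · have hg' : g = !τ := by cases g <;> cases τ <;> simp_all
        have hs : s = s' := hr1 hg'.symm
        refine ⟨0, ?_, by simp⟩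
        rw [scan, if_pos hg', if_pos hs.symm]
    · intro hr h ht l' n' hn'
      have hr' : FreeGroup.IsReduced ((g, s') :: L) := (List.isChain_cons_cons.1 hr).2
      have hr1 := (List.isChain_cons_cons.1 hr).1
      by_cases hg : g = τ
      · have hs : s = s' := hr1 hg.symm
        rw [scan, if_pos hg, if_pos hs.symm] at h
        have h1 : (0 : ℤ) = t := Option.some.inj h
        rw [← h1] at ht
        simp at ht
      · have hg' : g = !τ := by cases g <;> cases τ <;> simp_all
        rw [scan, if_neg hg] at h
        by_cases hs : s' = l'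
        · refine ⟨n', ?_, hn'⟩
          rw [scan, if_pos hg', if_pos hs]
        · rw [hg'] at hr'
          obtain ⟨t', h1, h2⟩ := (ih τ s s' (0 + sg s') t).1 hr' (by
            rw [zero_add, abs_sg]) h ht
          refine ⟨t', ?_, h2⟩
          rw [scan, if_pos hg', if_neg hs]
          exact h1

/-- the scan of a group element -/
def SC (τ l : Bool) (y : F2) : Option ℤ := scan τ l 0 y.toWord

/-- the scan stops with a value of absolute value at least `3` -/
def Big (τ l : Bool) (y : F2) : Prop := ∃ t, SC τ l y = some t ∧ 3 ≤ |t|

/-- the scan stops with a value of absolute value at most `n` -/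
def Sm (τ l : Bool) (n : ℤ) (y : F2) : Prop := ∃ t, SC τ l y = some t ∧ |t| ≤ n

theorem Sm.mono {τ l : Bool} {n m : ℤ} {y : F2} (h : Sm τ l n y) (hnm : n ≤ m) : Sm τ l m y := by
  obtain ⟨t, h1, h2⟩ := h
  exact ⟨t, h1, h2.trans hnm⟩

/-- **Behrstock inequality.** If one scan is large, then all scans with the other letter are small.

Proof. Two statements by simultaneous induction on `L` (`IsReduced`):
(A) if the previous letter was `(!τ, s)`, that is `IsReduced ((!τ, s) :: L)`, `|n| ≤ 1`,
`scan τ l n L = some t`, `3 ≤ |t|`, then `∃ t', scan (!τ) s 0 L = some t' ∧ |t'| ≤ 1`;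
(B) if the previous letter was `(τ, s)`, `IsReduced ((τ, s) :: L)`, `scan τ s 0 L = some t`,
`3 ≤ |t|`, then for all `l'` and `n'` with `|n'| ≤ 1`,
`∃ t', scan (!τ) l' n' L = some t' ∧ |t'| ≤ 1`.
(A): `L = []` is impossible; if `L` starts with a letter `!τ` it has the sign `s` (reduced), and
the scan of `!τ` stops with `0`. If `L = (τ, s') :: L'`: `s' = l` is impossible (it would give
`t = n`), so `scan τ s' 0 L' = some t` and (B) applies with `n' = 0 + sg s'`.
(B): `L = (τ, s') :: L'` gives `s' = s` by reducedness and then `t = 0`, impossible. If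
`L = (!τ, s') :: L'`: `scan τ s (0 + sg s') L' = some t`; if `s' = l'` the other scan stops with
`n'`; otherwise it is `scan (!τ) s' 0 L'` and (A) applies.
The theorem: `L = y.toWord` is reduced; if it starts with `(!τ, s)`: if `s = l'` the scan stops
with `0`, otherwise (A) with `n = 0 + sg s`. If it starts with `(τ, s)`: `s = l` would give
`t = 0`; otherwise (B) with `n' = 0 + sg s`. -/
theorem behr (τ l : Bool) (y : F2) (h : Big τ l y) (l' : Bool) : Sm (!τ) l' 1 y := by
  obtain ⟨t, h1, ht⟩ := h
  unfold SC at h1
  have hr : FreeGroup.IsReduced y.toWord := FreeGroup.isReduced_toWord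
  unfold Sm SC
  rcases hL : y.toWord with _ | ⟨⟨g, s⟩, L⟩
  · rw [hL] at h1
    simp [scan] at h1
  · rw [hL] at h1 hr
    by_cases hg : g = τ
    · subst hg
      have hgn : g ≠ !g := by cases g <;> simp
      by_cases hs : s = l
      · rw [scan, if_pos rfl, if_pos hs] at h1
        have h2 : (0 : ℤ) = t := Option.some.inj h1
        rw [← h2] at ht
        simp at ht
      · rw [scan, if_pos rfl, if_neg hs] at h1
        rw [scan, if_neg hgn]
        exact (scan_AB L g l s 0 t).2 hr h1 ht l' (0 + sg s) (by rw [zero_add, abs_sg])
    · have hg' : g = !τ := by cases g <;> cases τ <;> simp_all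
      rw [scan, if_neg hg] at h1
      rw [hg'] at hr
      by_cases hs : s = l'
      · refine ⟨0, ?_, by simp⟩
        rw [scan, if_pos hg', if_pos hs]
      · rw [scan, if_pos hg', if_neg hs]
        exact (scan_AB L τ l s (0 + sg s) t).1 hr (by rw [zero_add, abs_sg]) h1 ht

end Pool.Agent.H.MP_9a81ba_al.P
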