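import Pool.Agent.H.MP_9a81ba_al.P.SetsDef

/-!
Elementary implications between the sets (all by looking at the first letters).
-/

namespace Pool.Agent.H.MP_9a81ba_al.P

/-- Proof: if the word starts with `q^ε p` the scan `scan true ε 0` stops with `0`; if it
starts with `p q^ε` it stops with `1`. -/
theorem DD_of_PQ (ε : Bool) (y : F2) (h : PQ ε y) : DD ε y := by
  obtain ⟨t, h1, h2⟩ := h
  unfold SC at h1
  constructor
  · rintro ⟨L, hL⟩
    rw [← hL] at h1
    simp [scan] at h1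
    rw [← h1] at h2
    norm_num at h2
  · rintro ⟨L, hL⟩
    rw [← hL] at h1
    simp [scan, sg] at h1
    rw [← h1] at h2
    norm_num at h2

theorem DD_of_PP (ε : Bool) (y : F2) (h : PP ε y) : DD (!ε) y := by
  rcases h with ⟨L, hL⟩ | ⟨L, hL⟩
  · constructor
    · rintro ⟨L', hL'⟩
      rw [← hL] at hL'
      simp at hL'
    · rintro ⟨L', hL'⟩
      rw [← hL] at hL'
      simp at hL'
  · constructor
    · rintro ⟨L', hL'⟩
      rw [← hL] at hL'
      simp at hL'
    · rintro ⟨L', hL'⟩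
      rw [← hL] at hL'
      simp at hL'

theorem DD_of_Pa2 (ε : Bool) (y : F2) (h : Pa2 y) : DD ε y := by
  obtain ⟨s, L, hL⟩ := h
  constructor
  · rintro ⟨L', hL'⟩
    rw [← hL] at hL'
    simp at hL'
  · rintro ⟨L', hL'⟩
    rw [← hL] at hL'
    simp at hL'

/-- Proof: the scan `scan true ε 0` stops with `1` or `0`. -/
theorem Sm_of_PP (ε : Bool) (y : F2) (h : PP ε y) : Sm true ε 1 y := by
  rcases h with ⟨L, hL⟩ | ⟨L, hL⟩
  · refine ⟨1, ?_, by norm_num⟩
    unfold SC
    rw [← hL]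
    simp [scan, sg]
  · refine ⟨0, ?_, by norm_num⟩
    unfold SC
    rw [← hL]
    simp [scan]

/-- Proof: the scan `scan true ε 0` of a word starting with `p p q q` stops with `2` if `ε` is
`true`, and with `0` if `ε` is `false`. -/
theorem Sm_of_Base (ε : Bool) (y : F2) (h : Base y) : Sm true ε 2 y := by
  obtain ⟨L, hL⟩ := h
  cases ε
  · refine ⟨0, ?_, by norm_num⟩
    unfold SC
    rw [← hL]
    simp [scan]
  · refine ⟨2, ?_, by norm_num⟩
    unfold SC
    rw [← hL]
    simp [scan, sg]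

/-- Proof: the scan `scan false false 0` stops with `0`. -/
theorem Sm_of_Pa2 (y : F2) (h : Pa2 y) : Sm false false 0 y := by
  obtain ⟨s, L, hL⟩ := h
  refine ⟨0, ?_, by norm_num⟩
  unfold SC
  rw [← hL]
  cases s <;> simp [scan]

theorem Pa2_of_Base (y : F2) (h : Base y) : Pa2 y := by
  obtain ⟨L, hL⟩ := h
  exact ⟨true, (true, true) :: (true, true) :: L, by rw [← hL]; rfl⟩

theorem Pa2_of_Pa3 (y : F2) (h : Pa3 y) : Pa2 y := by
  obtain ⟨s, L, hL⟩ := h
  exact ⟨s, (false, s) :: L, by rw [← hL]; rfl⟩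

theorem not_PQ_Base (ε : Bool) (y : F2) (h : PQ ε y) (hb : Base y) : False := by
  obtain ⟨t, h1, h2⟩ := h
  obtain ⟨t', h3, h4⟩ := Sm_of_Base ε y hb
  rw [h1, Option.some.injEq] at h3
  rw [← h3] at h4
  linarith

theorem not_PP_Base (ε : Bool) (y : F2) (h : PP ε y) (hb : Base y) : False := by
  obtain ⟨L', hL'⟩ := hb
  rcases h with ⟨L, hL⟩ | ⟨L, hL⟩
  · rw [← hL] at hL'
    simp at hL'
  · rw [← hL] at hL'
    simp at hL'

theorem not_Px_Base (y : F2) (h : Px y) (hb : Base y) : False := by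
  obtain ⟨t, h1, h2⟩ := h
  obtain ⟨t', h3, h4⟩ := Sm_of_Pa2 y (Pa2_of_Base y hb)
  rw [h1, Option.some.injEq] at h3
  rw [← h3] at h4
  linarith

theorem not_Pa3_Base (y : F2) (h : Pa3 y) (hb : Base y) : False := by
  obtain ⟨L', hL'⟩ := hb
  obtain ⟨s, L, hL⟩ := h
  rw [← hL] at hL'
  simp at hL'

end Pool.Agent.H.MP_9a81ba_al.P
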