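import Pool.Agent.H.MP_9a81ba_al.P.EncDef

/-!
The sets of the ping-pong argument and the maps.
-/

namespace Pool.Agent.H.MP_9a81ba_al.P

/-- the reduced word of `y` starts with `L` -/
def St (L : List (Bool × Bool)) (y : F2) : Prop := L <+: y.toWord

/-- `|scan p (-)| ≥ 3` -/
def Px (y : F2) : Prop := Big false false y

/-- `|scan q ε| ≥ 3` -/
def PQ (ε : Bool) (y : F2) : Prop := Big true ε y

/-- the word starts with `p^s p^s` -/
def Pa2 (y : F2) : Prop := ∃ s : Bool, St [(false, s), (false, s)] y

/-- the word starts with `p^s p^s p^s` -/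
def Pa3 (y : F2) : Prop := ∃ s : Bool, St [(false, s), (false, s), (false, s)] y

/-- the word starts with `p q^ε p⁻¹` or with `q^ε p` -/
def PP (ε : Bool) (y : F2) : Prop :=
  St [(false, true), (true, ε), (false, false)] y ∨ St [(true, ε), (false, true)] y

/-- the word starts neither with `q^ε p` nor with `p q^ε` -/
def DD (ε : Bool) (y : F2) : Prop :=
  ¬ St [(true, ε), (false, true)] y ∧ ¬ St [(false, true), (true, ε)] y

/-- the word starts with `p p q q` -/
def Base (y : F2) : Prop := St [(false, true), (false, true), (true, true), (true, true)] y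

/-- the commutator `p q^ε p⁻¹ q^{-ε}` -/
def cb (ε : Bool) : F2 :=
  FreeGroup.of false * lt true ε * (FreeGroup.of false)⁻¹ * (lt true ε)⁻¹

/-- the action of `S^n` (`ε = true`) and of `T^n` (`ε = false`) on the set -/
def dt (ε : Bool) (n : ℤ) (y : F2) : F2 :=
  FreeGroup.of false ^ (if ε then 0 else -(6 * n)) * twh true (6 * n) 0 y

end Pool.Agent.H.MP_9a81ba_al.P
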