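import Pool.Agent.H.MP_9a81ba_al.P.SurfT

/-!
The moves preserve the product of commutators.
-/

namespace Pool.Agent.H.MP_9a81ba_al.P

variable {G : Type*} [Group G] {r : ℕ}

theorem surfM_10 : (1 : Fin (r + 2)) ≠ 0 := by
  intro h
  have := congrArg Fin.val h
  simp at this

theorem surfM_01 : (0 : Fin (r + 2)) ≠ 1 := fun h => surfM_10 h.symm

theorem surfM_ss0 (i : Fin r) : i.succ.succ ≠ (0 : Fin (r + 2)) := Fin.succ_ne_zero _

theorem surfM_ss1 (i : Fin r) : i.succ.succ ≠ (1 : Fin (r + 2)) := by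
  intro h
  have := congrArg Fin.val h
  simp at this

/-- comparison of the products -/
theorem surfM_rl {x y : Fin (r + 2) × Bool → G}
    (h : cm (y (0, false)) (y (0, true)) * cm (y (1, false)) (y (1, true)) =
      cm (x (0, false)) (x (0, true)) * cm (x (1, false)) (x (1, true)))
    (h' : ∀ (i : Fin r) (b : Bool), y (i.succ.succ, b) = x (i.succ.succ, b)) : rl y = rl x := by
  unfold rl
  rw [List.ofFn_succ, List.ofFn_succ, List.ofFn_succ, List.ofFn_succ, List.prod_cons, List.prod_cons,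
    List.prod_cons, List.prod_cons, ← mul_assoc, ← mul_assoc, Fin.succ_zero_eq_one, h]
  simp only [h']

theorem surfM_m1b (x : Fin (r + 2) × Bool → G) : m1 x (0, true) = x (0, true) * x (0, false) :=
  if_pos rfl

theorem surfM_m1c (x : Fin (r + 2) × Bool → G) (z : Fin (r + 2) × Bool) (h : z ≠ (0, true)) :
    m1 x z = x z := if_neg h

theorem surfM_n1b (x : Fin (r + 2) × Bool → G) : n1 x (0, true) = x (0, true) * (x (0, false))⁻¹ :=
  if_pos rfl

theorem surfM_n1c (x : Fin (r + 2) × Bool → G) (z : Fin (r + 2) × Bool) (h : z ≠ (0, true)) :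
    n1 x z = x z := if_neg h

theorem surfM_m2b (x : Fin (r + 2) × Bool → G) : m2 x (0, false) = x (0, false) * (x (0, true))⁻¹ :=
  if_pos rfl

theorem surfM_m2c (x : Fin (r + 2) × Bool → G) (z : Fin (r + 2) × Bool) (h : z ≠ (0, false)) :
    m2 x z = x z := if_neg h

theorem surfM_n2b (x : Fin (r + 2) × Bool → G) : n2 x (0, false) = x (0, false) * x (0, true) :=
  if_pos rfl

theorem surfM_n2c (x : Fin (r + 2) × Bool → G) (z : Fin (r + 2) × Bool) (h : z ≠ (0, false)) :
    n2 x z = x z := if_neg h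

/-- Proof: `List.ofFn_succ` twice; the entries with index at least `2` do not change
(`(i.succ.succ, _) ≠ (0, _), (1, _)`). For the first two commutators:
`cm a (b * a) = cm a b`. -/
theorem rl_m1 (x : Fin (r + 2) × Bool → G) : rl (m1 x) = rl x := by
  refine surfM_rl ?_ fun i b => ?_
  · rw [surfM_m1c x (0, false) (by simp), surfM_m1b, surfM_m1c x (1, false) (by simp),
      surfM_m1c x (1, true) (by simp)]
    unfold cm
    group
  · rw [surfM_m1c _ _ (by simp)]

/-- Proof: `cm (a * b⁻¹) b = cm a b`. -/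
theorem rl_m2 (x : Fin (r + 2) × Bool → G) : rl (m2 x) = rl x := by
  refine surfM_rl ?_ fun i b => ?_
  · rw [surfM_m2c x (0, true) (by simp), surfM_m2b, surfM_m2c x (1, false) (by simp),
      surfM_m2c x (1, true) (by simp)]
    unfold cm
    group
  · rw [surfM_m2c _ _ (by simp)]

theorem surfM_m3a (x : Fin (r + 2) × Bool → G) : m3 x (0, false) = x (0, false) := by
  simp [m3]

theorem surfM_m3b (x : Fin (r + 2) × Bool → G) : m3 x (0, true) = (vv x)⁻¹ * x (0, true) := by
  simp [m3]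

theorem surfM_m3d (x : Fin (r + 2) × Bool → G) :
    m3 x (1, false) = (vv x)⁻¹ * x (1, false) * vv x := by
  simp [m3]

theorem surfM_m3t (x : Fin (r + 2) × Bool → G) : m3 x (1, true) = x (1, true) * vv x := by
  simp [m3]

theorem surfM_n3a (x : Fin (r + 2) × Bool → G) : n3 x (0, false) = x (0, false) := by
  simp [n3]

theorem surfM_n3b (x : Fin (r + 2) × Bool → G) : n3 x (0, true) = vv x * x (0, true) := by
  simp [n3]

theorem surfM_n3d (x : Fin (r + 2) × Bool → G) :
    n3 x (1, false) = vv x * x (1, false) * (vv x)⁻¹ := by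
  simp [n3]

theorem surfM_n3t (x : Fin (r + 2) × Bool → G) : n3 x (1, true) = x (1, true) * (vv x)⁻¹ := by
  simp [n3]

/-- Proof: with `v = b a⁻¹ b⁻¹ d`: `cm a (v⁻¹ b) * cm (v⁻¹ d v) (t v) =
a v⁻¹ (b a⁻¹ b⁻¹ d) v t d⁻¹ t⁻¹ = a v t d⁻¹ t⁻¹ = cm a b * cm d t` (`group`). -/
theorem rl_m3 (x : Fin (r + 2) × Bool → G) : rl (m3 x) = rl x := by
  refine surfM_rl ?_ fun i b => ?_
  · rw [surfM_m3a, surfM_m3b, surfM_m3d, surfM_m3t]
    unfold cm vv
    group
  · simp [m3, surfM_ss1]

theorem m1_n1 (x : Fin (r + 2) × Bool → G) : m1 (n1 x) = x := by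
  funext z
  by_cases h : z = (0, true)
  · rw [h, surfM_m1b, surfM_n1b, surfM_n1c x (0, false) (by simp)]
    group
  · rw [surfM_m1c _ z h, surfM_n1c _ z h]

theorem n1_m1 (x : Fin (r + 2) × Bool → G) : n1 (m1 x) = x := by
  funext z
  by_cases h : z = (0, true)
  · rw [h, surfM_n1b, surfM_m1b, surfM_m1c x (0, false) (by simp)]
    group
  · rw [surfM_n1c _ z h, surfM_m1c _ z h]

theorem m2_n2 (x : Fin (r + 2) × Bool → G) : m2 (n2 x) = x := by
  funext z
  by_cases h : z = (0, false)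
  · rw [h, surfM_m2b, surfM_n2b, surfM_n2c x (0, true) (by simp)]
    group
  · rw [surfM_m2c _ z h, surfM_n2c _ z h]

theorem n2_m2 (x : Fin (r + 2) × Bool → G) : n2 (m2 x) = x := by
  funext z
  by_cases h : z = (0, false)
  · rw [h, surfM_n2b, surfM_m2b, surfM_m2c x (0, true) (by simp)]
    group
  · rw [surfM_n2c _ z h, surfM_m2c _ z h]

/-- `v` does not change under the third move and its inverse -/
theorem vv_m3 (x : Fin (r + 2) × Bool → G) : vv (m3 x) = vv x := by
  have h : vv x = x (0, true) * (x (0, false))⁻¹ * (x (0, true))⁻¹ * x (1, false) := rfl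
  have h1 : vv (m3 x) = m3 x (0, true) * (m3 x (0, false))⁻¹ * (m3 x (0, true))⁻¹ * m3 x (1, false) :=
    rfl
  rw [h1, surfM_m3a, surfM_m3b, surfM_m3d]
  have h2 : (vv x)⁻¹ * x (0, true) * (x (0, false))⁻¹ * ((vv x)⁻¹ * x (0, true))⁻¹ *
      ((vv x)⁻¹ * x (1, false) * vv x) =
      (vv x)⁻¹ * (x (0, true) * (x (0, false))⁻¹ * (x (0, true))⁻¹ * x (1, false)) * vv x := by
    group
  rw [h2, ← h]
  group

theorem vv_n3 (x : Fin (r + 2) × Bool → G) : vv (n3 x) = vv x := by
  have h : vv x = x (0, true) * (x (0, false))⁻¹ * (x (0, true))⁻¹ * x (1, false) := rfl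
  have h1 : vv (n3 x) = n3 x (0, true) * (n3 x (0, false))⁻¹ * (n3 x (0, true))⁻¹ * n3 x (1, false) :=
    rfl
  rw [h1, surfM_n3a, surfM_n3b, surfM_n3d]
  have h2 : vv x * x (0, true) * (x (0, false))⁻¹ * (vv x * x (0, true))⁻¹ *
      (vv x * x (1, false) * (vv x)⁻¹) =
      vv x * (x (0, true) * (x (0, false))⁻¹ * (x (0, true))⁻¹ * x (1, false)) * (vv x)⁻¹ := by
    group
  rw [h2, ← h]
  group

theorem m3_n3 (x : Fin (r + 2) × Bool → G) : m3 (n3 x) = x := by
  funext z
  by_cases h0 : z = (0, true)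
  · rw [h0, surfM_m3b, vv_n3, surfM_n3b]
    group
  by_cases h1 : z = (1, false)
  · rw [h1, surfM_m3d, vv_n3, surfM_n3d]
    group
  by_cases h2 : z = (1, true)
  · rw [h2, surfM_m3t, vv_n3, surfM_n3t]
    group
  · unfold m3
    rw [if_neg h0, if_neg h1, if_neg h2]
    unfold n3
    rw [if_neg h0, if_neg h1, if_neg h2]

theorem n3_m3 (x : Fin (r + 2) × Bool → G) : n3 (m3 x) = x := by
  funext z
  by_cases h0 : z = (0, true)
  · rw [h0, surfM_n3b, vv_m3, surfM_m3b]
    group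
  by_cases h1 : z = (1, false)
  · rw [h1, surfM_n3d, vv_m3, surfM_m3d]
    group
  by_cases h2 : z = (1, true)
  · rw [h2, surfM_n3t, vv_m3, surfM_m3t]
    group
  · unfold n3
    rw [if_neg h0, if_neg h1, if_neg h2]
    unfold m3
    rw [if_neg h0, if_neg h1, if_neg h2]

theorem rl_n1 (x : Fin (r + 2) × Bool → G) : rl (n1 x) = rl x := by
  rw [← rl_m1, m1_n1]

theorem rl_n2 (x : Fin (r + 2) × Bool → G) : rl (n2 x) = rl x := by
  rw [← rl_m2, m2_n2]

theorem rl_n3 (x : Fin (r + 2) × Bool → G) : rl (n3 x) = rl x := by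
  rw [← rl_m3, m3_n3]

end Pool.Agent.H.MP_9a81ba_al.P
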