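import Pool.Agent.H.MP_9a81ba_al.Defs

/-!
Tuples of generators of the surface group and three moves.
-/

namespace Pool.Agent.H.MP_9a81ba_al.P

variable {G H : Type*} [Group G] [Group H]

/-- the product of the commutators of a tuple -/
def rl {n : ℕ} (x : Fin n × Bool → G) : G :=
  (List.ofFn fun i : Fin n => cm (x (i, false)) (x (i, true))).prod

/-- Proof: `map_list_prod`, `List.map_ofFn`, `map_cm`. -/
theorem map_rl {n : ℕ} (f : G →* H) (x : Fin n × Bool → G) : f (rl x) = rl (fun z => f (x z)) := by
  unfold rl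
  rw [map_list_prod, List.map_ofFn]
  congr 2
  funext i
  exact map_cm f _ _

theorem lift_surfRel {n : ℕ} (x : Fin n × Bool → G) : FreeGroup.lift x (surfRel n) = rl x := by
  have h := map_rl (FreeGroup.lift x) (fun z : Fin n × Bool => FreeGroup.of z)
  refine Eq.trans h ?_
  congr 1
  funext z
  exact FreeGroup.lift_apply_of

/-- the universal property of the surface group -/
def slift {n : ℕ} (x : Fin n × Bool → G) (hx : rl x = 1) : Surf n →* G :=
  PresentedGroup.toGroup (f := x) (by
    intro w hw
    rw [Set.mem_singleton_iff] at hw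
    rw [hw, lift_surfRel, hx])

/-- the generators of the surface group -/
def go {n : ℕ} (z : Fin n × Bool) : Surf n := PresentedGroup.of z

@[simp]
theorem slift_go {n : ℕ} (x : Fin n × Bool → G) (hx : rl x = 1) (z : Fin n × Bool) :
    slift x hx (go z) = x z := PresentedGroup.toGroup.of _

theorem surf_hom_ext {n : ℕ} {f g : Surf n →* G} (h : ∀ z, f (go z) = g (go z)) : f = g :=
  PresentedGroup.ext h

/-- Proof: `map_rl` for the quotient map and `lift_surfRel` for `FreeGroup.of`, and
`PresentedGroup.one_of_mem`. -/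
theorem rl_go (n : ℕ) : rl (go : Fin n × Bool → Surf n) = 1 := by
  have h := map_rl (PresentedGroup.mk ({surfRel n} : Set (FreeGroup (Fin n × Bool))))
    (fun z : Fin n × Bool => FreeGroup.of z)
  have h2 : PresentedGroup.mk ({surfRel n} : Set (FreeGroup (Fin n × Bool))) (surfRel n) = 1 :=
    PresentedGroup.one_of_mem (Set.mem_singleton _)
  exact h.symm.trans h2

variable {r : ℕ}

/-- the element `v = b a⁻¹ b⁻¹ d` -/
def vv (x : Fin (r + 2) × Bool → G) : G :=
  x (0, true) * (x (0, false))⁻¹ * (x (0, true))⁻¹ * x (1, false)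

/-- first move: `b ↦ b a` -/
def m1 (x : Fin (r + 2) × Bool → G) (z : Fin (r + 2) × Bool) : G :=
  if z = (0, true) then x (0, true) * x (0, false) else x z

/-- second move: `a ↦ a b⁻¹` -/
def m2 (x : Fin (r + 2) × Bool → G) (z : Fin (r + 2) × Bool) : G :=
  if z = (0, false) then x (0, false) * (x (0, true))⁻¹ else x z

/-- third move: `b ↦ v⁻¹ b`, `d ↦ v⁻¹ d v`, `t ↦ t v` -/
def m3 (x : Fin (r + 2) × Bool → G) (z : Fin (r + 2) × Bool) : G :=
  if z = (0, true) then (vv x)⁻¹ * x (0, true) else
  if z = (1, false) then (vv x)⁻¹ * x (1, false) * vv x else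
  if z = (1, true) then x (1, true) * vv x else x z

/-- inverse of the first move -/
def n1 (x : Fin (r + 2) × Bool → G) (z : Fin (r + 2) × Bool) : G :=
  if z = (0, true) then x (0, true) * (x (0, false))⁻¹ else x z

/-- inverse of the second move -/
def n2 (x : Fin (r + 2) × Bool → G) (z : Fin (r + 2) × Bool) : G :=
  if z = (0, false) then x (0, false) * x (0, true) else x z

/-- inverse of the third move -/
def n3 (x : Fin (r + 2) × Bool → G) (z : Fin (r + 2) × Bool) : G :=
  if z = (0, true) then vv x * x (0, true) else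
  if z = (1, false) then vv x * x (1, false) * (vv x)⁻¹ else
  if z = (1, true) then x (1, true) * (vv x)⁻¹ else x z

theorem vv_map (f : G →* H) (x : Fin (r + 2) × Bool → G) : vv (fun z => f (x z)) = f (vv x) := by
  simp [vv]

theorem m1_map (f : G →* H) (x : Fin (r + 2) × Bool → G) (z : Fin (r + 2) × Bool) :
    m1 (fun z => f (x z)) z = f (m1 x z) := by
  unfold m1; split_ifs <;> simp

theorem m2_map (f : G →* H) (x : Fin (r + 2) × Bool → G) (z : Fin (r + 2) × Bool) :
    m2 (fun z => f (x z)) z = f (m2 x z) := by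
  unfold m2; split_ifs <;> simp

theorem m3_map (f : G →* H) (x : Fin (r + 2) × Bool → G) (z : Fin (r + 2) × Bool) :
    m3 (fun z => f (x z)) z = f (m3 x z) := by
  unfold m3; rw [vv_map]; split_ifs <;> simp

theorem n1_map (f : G →* H) (x : Fin (r + 2) × Bool → G) (z : Fin (r + 2) × Bool) :
    n1 (fun z => f (x z)) z = f (n1 x z) := by
  unfold n1; split_ifs <;> simp

theorem n2_map (f : G →* H) (x : Fin (r + 2) × Bool → G) (z : Fin (r + 2) × Bool) :
    n2 (fun z => f (x z)) z = f (n2 x z) := by
  unfold n2; split_ifs <;> simp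

theorem n3_map (f : G →* H) (x : Fin (r + 2) × Bool → G) (z : Fin (r + 2) × Bool) :
    n3 (fun z => f (x z)) z = f (n3 x z) := by
  unfold n3; rw [vv_map]; split_ifs <;> simp

end Pool.Agent.H.MP_9a81ba_al.P
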