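import Pool.Agent.H.MP_9a81ba_al.P.EncTw
import Pool.Agent.H.MP_9a81ba_al.P.SetsDef

/-!
The action of `x`, `S`, `T` on the scans.
-/

namespace Pool.Agent.H.MP_9a81ba_al.P

theorem twSetA_abs (t k : ℤ) (s : Bool) (hk : k ≠ 0) (ht : |t| ≤ 3) :
    3 ≤ |t + 6 * k * sg s| := by
  have h1 : sg s = 1 ∨ sg s = -1 := by cases s <;> simp [sg]
  have h2 := abs_le.1 ht
  rcases h1 with h | h <;> rw [h] <;> rcases lt_or_gt_of_ne hk with h3 | h3
  · rw [le_abs]; right; omega
  · rw [le_abs]; left; omega
  · rw [le_abs]; left; omega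
  · rw [le_abs]; right; omega

/-- Proof: `tw_scan false false 0 (6 * m)`: `rt 0 (6 m) false = 0`; the new value is
`t ± 6 m` with `|t| ≤ 3`. -/
theorem x_Px (m : ℤ) (hm : m ≠ 0) (y : F2) (h : Sm false false 3 y) :
    Px (twh false 0 (6 * m) y) := by
  obtain ⟨t, h1, h2⟩ := h
  obtain ⟨s, hs⟩ := tw_scan false false 0 (6 * m) y t h1
  have e1 : rt 0 (6 * m) false = 0 := by simp [rt]
  rw [e1, zpow_zero, one_mul, zero_add] at hs
  exact ⟨_, hs, twSetA_abs t m s hm h2⟩

/-- Proof: `tw_scan true ε (6 * n) 0`: `rt (6 n) 0 true = 0`, `rt (6 n) 0 false = -(6 n)`, as in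
the definition of `dt`; the new value is `t ± 6 n` with `|t| ≤ 2`. -/
theorem dt_PQ (ε : Bool) (n : ℤ) (hn : n ≠ 0) (y : F2) (h : Sm true ε 2 y) :
    PQ ε (dt ε n y) := by
  obtain ⟨t, h1, h2⟩ := h
  obtain ⟨s, hs⟩ := tw_scan true ε (6 * n) 0 y t h1
  have e1 : rt (6 * n) 0 ε = if ε then 0 else -(6 * n) := by cases ε <;> simp [rt]
  rw [e1, add_zero] at hs
  exact ⟨_, hs, twSetA_abs t n s hn (by omega)⟩

theorem twSetA_powL (ε : Bool) : powL true (sg ε) = [(true, ε)] := by
  cases ε <;> rfl

theorem twSetA_pre1 {s : Bool} {R : List (Bool × Bool)} {L : List (Bool × ℤ)}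
    (h : (false, s) :: R <+: flatL false L) :
    ∃ a L', L = (s, a) :: L' ∧ R <+: powL true a ++ flatL false L' := by
  cases L with
  | nil => exact absurd (List.prefix_nil.1 h) (List.cons_ne_nil _ _)
  | cons x L' =>
    obtain ⟨s', a⟩ := x
    have h1 : (false, s) :: R <+: (false, s') :: (powL true a ++ flatL false L') := h
    rw [List.cons_prefix_cons] at h1
    have h2 : s = s' := congrArg Prod.snd h1.1
    exact ⟨a, L', by rw [h2], h1.2⟩

theorem twSetA_pre2 {s : Bool} {R : List (Bool × Bool)} {a : ℤ} {L : List (Bool × ℤ)}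
    (h : (false, s) :: R <+: powL true a ++ flatL false L) :
    a = 0 ∧ (false, s) :: R <+: flatL false L := by
  rcases hn : a.natAbs with _ | n
  · have ha : a = 0 := Int.natAbs_eq_zero.1 hn
    refine ⟨ha, ?_⟩
    rw [ha] at h
    exact h
  · exfalso
    unfold powL at h
    rw [hn, List.replicate_succ, List.cons_append, List.cons_prefix_cons] at h
    exact Bool.false_ne_true (congrArg Prod.fst h.1)

theorem twSetA_pre3 {ε s : Bool} {R : List (Bool × Bool)} {a : ℤ} {L : List (Bool × ℤ)}
    (h : (true, ε) :: (false, s) :: R <+: powL true a ++ flatL false L) :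
    a = sg ε ∧ (false, s) :: R <+: flatL false L := by
  rcases hn : a.natAbs with _ | n
  · exfalso
    have ha : a = 0 := Int.natAbs_eq_zero.1 hn
    rw [ha] at h
    have h1 : (true, ε) :: (false, s) :: R <+: flatL false L := h
    cases L with
    | nil => exact absurd (List.prefix_nil.1 h1) (List.cons_ne_nil _ _)
    | cons x L' =>
      obtain ⟨s', a'⟩ := x
      have h2 : (true, ε) :: (false, s) :: R <+:
        (false, s') :: (powL true a' ++ flatL false L') := h1
      rw [List.cons_prefix_cons] at h2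
      exact Bool.false_ne_true (congrArg Prod.fst h2.1).symm
  · rcases n with _ | n
    · unfold powL at h
      rw [hn, List.replicate_succ, List.cons_append, List.cons_prefix_cons, List.replicate_zero,
        List.nil_append] at h
      refine ⟨?_, h.2⟩
      have h1 : ε = decide (0 < a) := congrArg Prod.snd h.1
      have h2 : a = 1 ∨ a = -1 := by omega
      rcases h2 with h2 | h2
      · rw [h1, h2]; rfl
      · rw [h1, h2]; rfl
    · exfalso
      unfold powL at h
      rw [hn, List.replicate_succ, List.replicate_succ, List.cons_append, List.cons_append,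
        List.cons_prefix_cons, List.cons_prefix_cons] at h
      exact Bool.false_ne_true (congrArg Prod.fst h.2.1)

/-- Proof: let `e` be the encoding of `y` for `τ = false` (`exists_enc`, `toWord_val`). `y ∈ PP ε`
means that `e` is `(0, (true, a) :: (false, a') :: L)` with `a = sg ε`, or `(a0, (true, a) :: L)`
with `a0 = sg ε` (read off from `flat`). By `val_tw` with `α = 0`, `β = 6 m`, `γ = 0` the encoding
of the image is `(0, (true, a) :: (false, _) :: _)`, since `rt 0 β true + lf 0 β false = 0`,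
respectively `(a0, (true, _) :: _)`, since `lf 0 β true = 0`; so the word of the image starts in
the same way. -/
theorem x_PP (ε : Bool) (m : ℤ) (y : F2) (h : PP ε y) : PP ε (twh false 0 (6 * m) y) := by
  obtain ⟨⟨a0, M⟩, he, rfl⟩ := exists_enc false y
  have hv : twh false 0 (6 * m) (val false (a0, M)) = val false (twE 0 (6 * m) 0 (a0, M)) := by
    rw [← val_tw, zpow_zero, one_mul]
  have hw := toWord_val false _ (tw_red 0 (6 * m) 0 _ he)
  have hy := toWord_val false _ he
  unfold PP St at h ⊢
  rw [hv, hw]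
  rw [hy] at h
  change _ <+: powL true a0 ++ flatL false M ∨ _ <+: powL true a0 ++ flatL false M at h
  change _ <+: powL true (0 + a0 + hd 0 (6 * m) M) ++ flatL false (tw 0 (6 * m) M) ∨
    _ <+: powL true (0 + a0 + hd 0 (6 * m) M) ++ flatL false (tw 0 (6 * m) M)
  rcases h with h | h
  · left
    obtain ⟨h1, h2⟩ := twSetA_pre2 h
    obtain ⟨a, L, rfl, h3⟩ := twSetA_pre1 h2
    obtain ⟨h4, h5⟩ := twSetA_pre3 h3
    obtain ⟨a', L', rfl, -⟩ := twSetA_pre1 h5
    have e1 : (0 : ℤ) + a0 + hd 0 (6 * m) ((true, a) :: (false, a') :: L') = 0 := by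
      rw [h1]
      simp [hd, lf]
    have e2 : tw 0 (6 * m) ((true, a) :: (false, a') :: L') =
        (true, sg ε) :: (false, a' + rt 0 (6 * m) false + hd 0 (6 * m) L') ::
          tw 0 (6 * m) L' := by
      rw [h4]
      simp [tw, hd, lf, rt]
    rw [e1, e2]
    have e3 : powL true 0 = [] := rfl
    have e4 : ∀ (b : ℤ) (K : List (Bool × ℤ)), flatL false ((true, sg ε) :: (false, b) :: K) =
        (false, true) :: ([(true, ε)] ++ (false, false) :: (powL true b ++ flatL false K)) := by
      intro b K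
      rw [← twSetA_powL]
      rfl
    rw [e3, e4]
    exact ⟨_, rfl⟩
  · right
    obtain ⟨h1, h2⟩ := twSetA_pre3 h
    obtain ⟨a, L, rfl, -⟩ := twSetA_pre1 h2
    have e1 : (0 : ℤ) + a0 + hd 0 (6 * m) ((true, a) :: L) = sg ε := by
      rw [h1]
      simp [hd, lf]
    rw [e1, twSetA_powL]
    exact ⟨_, rfl⟩

end Pool.Agent.H.MP_9a81ba_al.P
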