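import Pool.Agent.H.MP_9a81ba_al.P.EncTw
import Pool.Agent.H.MP_9a81ba_al.P.SetsDef

/-!
The action of `S` and `T` on the first exponent.
-/

namespace Pool.Agent.H.MP_9a81ba_al.P

private theorem twSetB_powL_pos (g : Bool) (n : ℤ) (h : 0 < n) :
    powL g n = (g, true) :: powL g (n - 1) := by
  unfold powL
  have h1 : n.natAbs = (n - 1).natAbs + 1 := by omega
  rw [h1, List.replicate_succ]
  rcases (by omega : n = 1 ∨ 1 < n) with h2 | h2
  · subst h2; simp
  · simp [h, h2]

private theorem twSetB_powL_neg (g : Bool) (n : ℤ) (h : n < 0) :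
    powL g n = (g, false) :: powL g (n + 1) := by
  unfold powL
  have h1 : n.natAbs = (n + 1).natAbs + 1 := by omega
  rw [h1, List.replicate_succ]
  have h3 : ¬ (0 < n + 1) := by omega
  have h4 : ¬ (0 < n) := by omega
  simp [h3, h4]

/-- Proof: the word of an encoding for `τ = true` with first exponent `a`, `|a| ≥ 2`, starts with
`powL false a`. -/
theorem Pa2_of_enc (e : Enc) (h : RedE e) (ha : 2 ≤ |e.1|) : Pa2 (val true e) := by
  unfold Pa2 St
  rw [toWord_val true e h]
  unfold flat
  simp only [Bool.not_true]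
  rcases lt_or_ge e.1 0 with h0 | h0
  · rw [abs_of_neg h0] at ha
    refine ⟨false, ?_⟩
    rw [twSetB_powL_neg _ _ h0, twSetB_powL_neg _ _ (by omega : e.1 + 1 < 0)]
    simp
  · rw [abs_of_nonneg h0] at ha
    refine ⟨true, ?_⟩
    rw [twSetB_powL_pos _ _ (by omega : 0 < e.1), twSetB_powL_pos _ _ (by omega : 0 < e.1 - 1)]
    simp

theorem Pa3_of_enc (e : Enc) (h : RedE e) (ha : 3 ≤ |e.1|) : Pa3 (val true e) := by
  unfold Pa3 St
  rw [toWord_val true e h]
  unfold flat
  simp only [Bool.not_true]
  rcases lt_or_ge e.1 0 with h0 | h0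
  · rw [abs_of_neg h0] at ha
    refine ⟨false, ?_⟩
    rw [twSetB_powL_neg _ _ h0, twSetB_powL_neg _ _ (by omega : e.1 + 1 < 0),
      twSetB_powL_neg _ _ (by omega : e.1 + 1 + 1 < 0)]
    simp
  · rw [abs_of_nonneg h0] at ha
    refine ⟨true, ?_⟩
    rw [twSetB_powL_pos _ _ (by omega : 0 < e.1), twSetB_powL_pos _ _ (by omega : 0 < e.1 - 1),
      twSetB_powL_pos _ _ (by omega : 0 < e.1 - 1 - 1)]
    simp

private theorem twSetB_read : ∀ (n k : ℕ) (x y : Bool × Bool), x.1 = false → y.1 = false →
    ∀ (a b : Bool) (A B : List (Bool × Bool)),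
      List.replicate n x ++ (true, a) :: A = List.replicate k y ++ (true, b) :: B →
      n = k ∧ a = b ∧ (0 < k → x = y) := by
  intro n
  induction n with
  | zero =>
    intro k x y hx hy a b A B h
    cases k with
    | zero => simp at h; simp [h.1]
    | succ k =>
      rw [List.replicate_succ] at h
      simp at h
      have := h.1
      rw [← this] at hy
      simp at hy
  | succ n ih =>
    intro k x y hx hy a b A B h
    cases k with
    | zero =>
      rw [List.replicate_succ] at h
      simp at h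
      have := h.1
      rw [this] at hx
      simp at hx
    | succ k =>
      rw [List.replicate_succ, List.replicate_succ] at h
      simp only [List.cons_append, List.cons.injEq] at h
      obtain ⟨h1, h2, -⟩ := ih k x y hx hy a b A B h.2
      exact ⟨by omega, h2, fun _ => h.1⟩

private theorem twSetB_enc (e : Enc) (k : ℕ) (s ε : Bool) (R : List (Bool × Bool))
    (h : flat true e = List.replicate k (false, s) ++ (true, ε) :: R) :
    e.1.natAbs = k ∧ (0 < k → decide (0 < e.1) = s) ∧ ∃ b L, e.2 = (ε, b) :: L := by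
  obtain ⟨a, M⟩ := e
  cases M with
  | nil =>
    exfalso
    have h1 : (true, ε) ∈ flat true (a, []) := by rw [h]; simp
    simp [flat, flatL, powL, List.mem_replicate] at h1
  | cons p L =>
    obtain ⟨s', b⟩ := p
    have h1 : List.replicate a.natAbs (false, decide (0 < a)) ++
        (true, s') :: (powL false b ++ flatL true L) =
        List.replicate k (false, s) ++ (true, ε) :: R := h
    obtain ⟨h2, h3, h4⟩ := twSetB_read _ _ _ _ rfl rfl _ _ _ _ h1
    refine ⟨h2, fun hk => ?_, b, L, by rw [h3]⟩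
    have := h4 hk
    exact (Prod.mk.inj this).2

private theorem twSetB_fst (α γ : ℤ) (e : Enc) (ε : Bool) (h : ∃ b L, e.2 = (ε, b) :: L) :
    (twE α 0 γ e).1 = γ + e.1 + lf α 0 ε := by
  obtain ⟨b, L, h⟩ := h
  simp [twE, h, hd]

private theorem twSetB_PP (ε : Bool) (e : Enc) (he : RedE e) (h : PP ε (val true e)) :
    (e.1 = 0 ∨ e.1 = 1) ∧ ∃ b L, e.2 = (ε, b) :: L := by
  unfold PP St at h
  rw [toWord_val true e he] at h
  rcases h with ⟨R, h⟩ | ⟨R, h⟩
  · obtain ⟨h1, h2, h3⟩ := twSetB_enc e 1 true ε ((false, false) :: R) h.symm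
    refine ⟨?_, h3⟩
    have := h2 (by norm_num)
    have h4 : 0 < e.1 := by simpa using this
    right; omega
  · obtain ⟨h1, h2, h3⟩ := twSetB_enc e 0 true ε ((false, true) :: R) h.symm
    exact ⟨Or.inl (by omega), h3⟩

private theorem twSetB_Base (e : Enc) (he : RedE e) (h : Base (val true e)) :
    e.1 = 2 ∧ ∃ b L, e.2 = (true, b) :: L := by
  unfold Base St at h
  rw [toWord_val true e he] at h
  obtain ⟨R, h⟩ := h
  obtain ⟨h1, h2, h3⟩ := twSetB_enc e 2 true true ((true, true) :: R) h.symm
  refine ⟨?_, h3⟩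
  have := h2 (by norm_num)
  have h4 : 0 < e.1 := by simpa using this
  omega

private theorem twSetB_Px (e : Enc) (he : RedE e) (h : Px (val true e)) :
    (e.1 = 0 ∨ e.1 = 1) ∧ ∃ ε b L, e.2 = (ε, b) :: L := by
  obtain ⟨t, ht, ht3⟩ := h
  unfold SC at ht
  rw [toWord_val true e he] at ht
  obtain ⟨a, M⟩ := e
  unfold flat at ht
  simp only [Bool.not_true] at ht
  rcases (by omega : a < 0 ∨ (a = 0 ∨ a = 1) ∨ 2 ≤ a) with h0 | h0 | h0
  · exfalso
    rw [twSetB_powL_neg _ _ h0] at ht
    simp [scan] at ht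
    subst ht
    simp at ht3
  · refine ⟨h0, ?_⟩
    cases M with
    | nil =>
      exfalso
      rcases h0 with h0 | h0
      · subst h0
        simp [powL, flatL, scan] at ht
      · subst h0
        simp [powL, flatL, scan] at ht
    | cons p L => exact ⟨p.1, p.2, L, rfl⟩
  · exfalso
    rw [twSetB_powL_pos _ _ (by omega : 0 < a), twSetB_powL_pos _ _ (by omega : 0 < a - 1)] at ht
    simp [scan] at ht
    subst ht
    simp at ht3

/-- Proof: the encoding of `y` for `τ = true` is `(1, (ε, _) :: _)` or `(0, (ε, _) :: _)` (read off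
from `flat`). The first exponent of `dt ε n y` is (`val_tw`) `γ + e.1 + lf (6 n) 0 ε`, that is
`e.1 + 6 n` for `ε = true` and `e.1 - 6 n` for `ε = false`. -/
theorem dt_PP (ε : Bool) (n : ℤ) (hn : n ≠ 0) (y : F2) (h : PP ε y) : Pa2 (dt ε n y) := by
  obtain ⟨e, he, rfl⟩ := exists_enc true y
  obtain ⟨h1, h2⟩ := twSetB_PP ε e he h
  have h3 := val_tw true (6 * n) 0 (if ε then 0 else -(6 * n)) e
  unfold dt
  simp only [Bool.not_true] at h3
  rw [h3]
  apply Pa2_of_enc _ (tw_red _ _ _ e he)
  rw [twSetB_fst _ _ e ε h2, le_abs]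
  cases ε <;> simp only [lf, if_true, Bool.false_eq_true, if_false] <;> omega

/-- Proof: the encoding of `y` for `τ = true` is `(2, (true, _) :: _)`. The first exponent of
`dt ε n y` is `2 + 6 n` for `ε = true` and `2` for `ε = false`. -/
theorem dt_Base (ε : Bool) (n : ℤ) (hn : n ≠ 0) (y : F2) (h : Base y) : Pa2 (dt ε n y) := by
  obtain ⟨e, he, rfl⟩ := exists_enc true y
  obtain ⟨h1, h2⟩ := twSetB_Base e he h
  have h3 := val_tw true (6 * n) 0 (if ε then 0 else -(6 * n)) e
  unfold dt
  simp only [Bool.not_true] at h3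
  rw [h3]
  apply Pa2_of_enc _ (tw_red _ _ _ e he)
  rw [twSetB_fst _ _ e true h2, le_abs]
  cases ε <;> simp only [lf, if_true, Bool.false_eq_true, if_false] <;> omega

/-- Proof: let `e` be the encoding of `y` for `τ = true`. If `y ∈ Base`, then
`e = (2, (true, _) :: _)`. If `y ∈ Px` then `e.1 ∈ {0, 1}` and `e.2` is not empty: if `e.1 < 0` the
word starts with `p⁻¹` and `scan false false 0` stops with `0`; if `e.1 ≥ 2` the word starts with
`p p` and the scan stops with `0`; if `e.1 ∈ {0, 1}` and `e.2 = []` the scan does not stop. The new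
first exponent is `-(6 m) + e.1 + lf (6 (n + m)) 0 s`, that is `e.1 + 6 n` if `e.2` starts with
`s = true` and `e.1 - 6 m` if `s = false` (this case does not occur for `Base`); its absolute value
is at least `4` (Base: `|2 + 6 n| ≥ 4`). -/
theorem ST_Pa3 (n m : ℤ) (hn : n ≠ 0) (hm : m ≠ 0) (y : F2) (h : Px y ∨ Base y) :
    Pa3 (FreeGroup.of false ^ (-(6 * m)) * twh true (6 * (n + m)) 0 y) := by
  obtain ⟨e, he, rfl⟩ := exists_enc true y
  have h3 := val_tw true (6 * (n + m)) 0 (-(6 * m)) e
  simp only [Bool.not_true] at h3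
  rw [h3]
  apply Pa3_of_enc _ (tw_red _ _ _ e he)
  rcases h with h | h
  · obtain ⟨h1, ε, h2⟩ := twSetB_Px e he h
    rw [twSetB_fst _ _ e ε h2, le_abs]
    cases ε <;> simp only [lf] <;> omega
  · obtain ⟨h1, h2⟩ := twSetB_Base e he h
    rw [twSetB_fst _ _ e true h2, le_abs]
    simp only [lf]
    omega

private theorem twSetB_base_of (b : ℤ) (L : List (Bool × ℤ))
    (h : RedE (2, (true, 0) :: (true, b) :: L)) :
    Base (val true (2, (true, 0) :: (true, b) :: L)) := by
  unfold Base St
  rw [toWord_val true _ h]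
  simp [flat, flatL, powL, List.replicate]

/-- Proof: let `(a, L)` be the encoding of `f⁻¹` for `τ = true` (`exists_enc`) and `n = |a| + 1`.
Take `y = p p q q p^n f⁻¹ = val true (2, (true, 0) :: (true, n + a) :: L)`; this encoding is
reduced (`n + a ≠ 0`), so `y ∈ Base`; and `y * f = p p q q p^n =
val true (2, [(true, 0), (true, n)]) ∈ Base`. -/
theorem exists_base (f : F2) : ∃ y, Base y ∧ Base (y * f) := by
  obtain ⟨⟨a, L⟩, he, hf⟩ := exists_enc true f⁻¹
  have hpos : 0 < |a| + 1 + a := by
    have := neg_abs_le a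
    omega
  refine ⟨val true (2, (true, 0) :: (true, |a| + 1 + a) :: L), ?_, ?_⟩
  · apply twSetB_base_of
    unfold RedE at he ⊢
    simp only at he ⊢
    refine List.IsChain.cons_cons (Or.inr rfl) ?_
    cases L with
    | nil => exact List.isChain_singleton _
    | cons q L => exact List.IsChain.cons_cons (Or.inl (by simpa using hpos.ne')) he
  · have hfe : f = (val true (a, L))⁻¹ := by rw [hf, inv_inv]
    have key : val true (2, (true, 0) :: (true, |a| + 1 + a) :: L) * f =
        val true (2, [(true, 0), (true, |a| + 1)]) := by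
      rw [hfe]
      simp only [val, valL, Bool.not_true, zpow_zero, mul_one]
      rw [zpow_add]
      group
    rw [key]
    apply twSetB_base_of
    unfold RedE
    exact List.IsChain.cons_cons (Or.inr rfl) (List.isChain_singleton _)

end Pool.Agent.H.MP_9a81ba_al.P
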