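import Pool.Agent.H.MP_9a81ba_al.P.PingPow
import Pool.Agent.H.MP_9a81ba_al.P.CF
import Pool.Agent.H.MP_9a81ba_al.P.SetsA
import Pool.Agent.H.MP_9a81ba_al.P.BlkS
import Pool.Agent.H.MP_9a81ba_al.P.TwSetA
import Pool.Agent.H.MP_9a81ba_al.P.TwSetB

/-!
The transitions of the ping-pong argument.
-/

namespace Pool.Agent.H.MP_9a81ba_al.P

/-- the set of a clique -/
def Yt : Cl → F2 → Prop
  | .one 0 => PP false
  | .one 1 => PQ true
  | .one 2 => PQ false
  | .one 3 => PP true
  | .one 4 => Px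
  | .two 0 => fun y => PP false y ∧ Sm false false 1 y
  | .two 1 => Pa3
  | .two 2 => fun y => PP true y ∧ Sm false false 1 y
  | .two 3 => fun y => PP true y ∧ Px y
  | .two 4 => fun y => PP false y ∧ Px y

/-- the set from which the letter `i` can act -/
def In : Fin 5 → F2 → Prop
  | 0 => DD false
  | 1 => Sm true true 2
  | 2 => Sm true false 2
  | 3 => DD true
  | 4 => Sm false false 3

/-- the set from which the edge `i` can act -/
def In2 : Fin 5 → F2 → Prop
  | 0 => fun y => PP true y ∨ Base y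
  | 1 => fun y => Px y ∨ Base y
  | 2 => fun y => PP false y ∨ Base y
  | 3 => fun y => DD true y ∧ Sm false false 1 y
  | 4 => fun y => DD false y ∧ Sm false false 1 y

theorem trans_DDf {y : F2} (h : PP true y) : DD false y := DD_of_PP true y h

theorem trans_DDt {y : F2} (h : PP false y) : DD true y := DD_of_PP false y h

theorem trans_Pa3_DD (ε : Bool) {y : F2} (h : Pa3 y) : DD ε y := DD_of_Pa2 ε y (Pa2_of_Pa3 y h)

theorem trans_Sm_PP (ε : Bool) {y : F2} (h : PP ε y) : Sm true ε 2 y :=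
  (Sm_of_PP ε y h).mono (by norm_num)

theorem trans_Sm_Px (ε : Bool) {y : F2} (h : Px y) : Sm true ε 2 y :=
  (behr false false y h ε).mono (by norm_num)

theorem trans_Sm_PQ (ε : Bool) {y : F2} (h : PQ ε y) : Sm false false 1 y := behr true ε y h false

theorem trans_Sm_Pa2 {y : F2} (h : Pa2 y) : Sm false false 1 y := (Sm_of_Pa2 y h).mono (by norm_num)

theorem trans_Sm_Pa3 {y : F2} (h : Pa3 y) : Sm false false 1 y := trans_Sm_Pa2 (Pa2_of_Pa3 y h)

theorem trans_mono {y : F2} (h : Sm false false 1 y) : Sm false false 3 y := h.mono (by norm_num)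

/-- Proof: by cases on `i` and `t` (`fin_cases`, `decide` excludes the pairs without `Cp i t`).
`i = 0` (`b`): `t` contains `2` or `3`: `DD_of_PQ false`, `DD_of_PP true`, `DD_of_Pa2` (with
`Pa2_of_Pa3`). `i = 3` (`c`): `t` contains `0` or `1`: `DD_of_PQ true`, `DD_of_PP false`,
`DD_of_Pa2`. `i = 1` (`S`): `t` contains `3` or `4`: `Sm_of_PP true` or `behr` for `Px`.
`i = 2` (`T`): `t` contains `0` or `4`: `Sm_of_PP false` or `behr`. `i = 4` (`x`): `t` contains `1`
or `2`: `behr true _` for `PQ`, `Sm_of_Pa2` for `Pa3`, the second components for the edges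
`0` and `2`. -/
theorem In_of_Yt (i : Fin 5) (t : Cl) (h : Cp i t) (y : F2) (hy : Yt t y) : In i y := by
  match i, t, h, hy with
  | 0, .one 0, h, _ => exact absurd h (by decide)
  | 0, .one 1, h, _ => exact absurd h (by decide)
  | 0, .one 2, _, hy => exact DD_of_PQ false y hy
  | 0, .one 3, _, hy => exact trans_DDf hy
  | 0, .one 4, h, _ => exact absurd h (by decide)
  | 0, .two 0, h, _ => exact absurd h (by decide)
  | 0, .two 1, _, hy => exact trans_Pa3_DD false hy
  | 0, .two 2, _, hy => exact trans_DDf hy.1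
  | 0, .two 3, _, hy => exact trans_DDf hy.1
  | 0, .two 4, h, _ => exact absurd h (by decide)
  | 1, .one 0, h, _ => exact absurd h (by decide)
  | 1, .one 1, h, _ => exact absurd h (by decide)
  | 1, .one 2, h, _ => exact absurd h (by decide)
  | 1, .one 3, _, hy => exact trans_Sm_PP true hy
  | 1, .one 4, _, hy => exact trans_Sm_Px true hy
  | 1, .two 0, h, _ => exact absurd h (by decide)
  | 1, .two 1, h, _ => exact absurd h (by decide)
  | 1, .two 2, _, hy => exact trans_Sm_PP true hy.1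
  | 1, .two 3, _, hy => exact trans_Sm_PP true hy.1
  | 1, .two 4, _, hy => exact trans_Sm_Px true hy.2
  | 2, .one 0, _, hy => exact trans_Sm_PP false hy
  | 2, .one 1, h, _ => exact absurd h (by decide)
  | 2, .one 2, h, _ => exact absurd h (by decide)
  | 2, .one 3, h, _ => exact absurd h (by decide)
  | 2, .one 4, _, hy => exact trans_Sm_Px false hy
  | 2, .two 0, _, hy => exact trans_Sm_PP false hy.1
  | 2, .two 1, h, _ => exact absurd h (by decide)
  | 2, .two 2, h, _ => exact absurd h (by decide)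
  | 2, .two 3, _, hy => exact trans_Sm_Px false hy.2
  | 2, .two 4, _, hy => exact trans_Sm_PP false hy.1
  | 3, .one 0, _, hy => exact trans_DDt hy
  | 3, .one 1, _, hy => exact DD_of_PQ true y hy
  | 3, .one 2, h, _ => exact absurd h (by decide)
  | 3, .one 3, h, _ => exact absurd h (by decide)
  | 3, .one 4, h, _ => exact absurd h (by decide)
  | 3, .two 0, _, hy => exact trans_DDt hy.1
  | 3, .two 1, _, hy => exact trans_Pa3_DD true hy
  | 3, .two 2, h, _ => exact absurd h (by decide)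
  | 3, .two 3, h, _ => exact absurd h (by decide)
  | 3, .two 4, _, hy => exact trans_DDt hy.1
  | 4, .one 0, h, _ => exact absurd h (by decide)
  | 4, .one 1, _, hy => exact trans_mono (trans_Sm_PQ true hy)
  | 4, .one 2, _, hy => exact trans_mono (trans_Sm_PQ false hy)
  | 4, .one 3, h, _ => exact absurd h (by decide)
  | 4, .one 4, h, _ => exact absurd h (by decide)
  | 4, .two 0, _, hy => exact trans_mono hy.2
  | 4, .two 1, _, hy => exact trans_mono (trans_Sm_Pa3 hy)
  | 4, .two 2, _, hy => exact trans_mono hy.2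
  | 4, .two 3, h, _ => exact absurd h (by decide)
  | 4, .two 4, h, _ => exact absurd h (by decide)

/-- Proof: by cases on `i`: `DD_of_Pa2`, `Sm_of_Base`, `Sm_of_Pa2` with `Pa2_of_Base`. -/
theorem In_of_Base (i : Fin 5) (y : F2) (hy : Base y) : In i y := by
  match i with
  | 0 => exact DD_of_Pa2 false y (Pa2_of_Base y hy)
  | 1 => exact Sm_of_Base true y hy
  | 2 => exact Sm_of_Base false y hy
  | 3 => exact DD_of_Pa2 true y (Pa2_of_Base y hy)
  | 4 => exact trans_mono (trans_Sm_Pa2 (Pa2_of_Base y hy))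

/-- Proof: by cases. Edge `0` (`b, S`): both `Cp 0 t` and `Cp 1 t`: `t` is `{c}`, `{T, c}` or
`{c, x}`: `PP true`. Edge `1` (`S, T`): `t` is `{x}`, `{x, b}`, `{c, x}`: `Px`. Edge `2` (`T, c`):
`t` is `{b}`, `{b, S}`, `{x, b}`: `PP false`. Edge `3` (`c, x`): `t` is `{S}`, `{S, T}`,
`{b, S}`: `DD true` by `In_of_Yt 3` and `Sm false false 1` (`behr`, `Sm_of_Pa2`, the second
component). Edge `4` (`x, b`): `t` is `{T}`, `{S, T}`, `{T, c}`: likewise. -/
theorem In2_of_Yt (i : Fin 5) (t : Cl) (h : Cp i t) (h' : Cp (i + 1) t) (y : F2) (hy : Yt t y) :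
    In2 i y := by
  match i, t, h, h', hy with
  | 0, .one 0, h, _, _ => exact absurd h (by decide)
  | 0, .one 1, h, _, _ => exact absurd h (by decide)
  | 0, .one 2, _, h', _ => exact absurd h' (by decide)
  | 0, .one 3, _, _, hy => exact Or.inl hy
  | 0, .one 4, h, _, _ => exact absurd h (by decide)
  | 0, .two 0, h, _, _ => exact absurd h (by decide)
  | 0, .two 1, _, h', _ => exact absurd h' (by decide)
  | 0, .two 2, _, _, hy => exact Or.inl hy.1
  | 0, .two 3, _, _, hy => exact Or.inl hy.1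
  | 0, .two 4, h, _, _ => exact absurd h (by decide)
  | 1, .one 0, h, _, _ => exact absurd h (by decide)
  | 1, .one 1, h, _, _ => exact absurd h (by decide)
  | 1, .one 2, h, _, _ => exact absurd h (by decide)
  | 1, .one 3, _, h', _ => exact absurd h' (by decide)
  | 1, .one 4, _, _, hy => exact Or.inl hy
  | 1, .two 0, h, _, _ => exact absurd h (by decide)
  | 1, .two 1, h, _, _ => exact absurd h (by decide)
  | 1, .two 2, _, h', _ => exact absurd h' (by decide)
  | 1, .two 3, _, _, hy => exact Or.inl hy.2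
  | 1, .two 4, _, _, hy => exact Or.inl hy.2
  | 2, .one 0, _, _, hy => exact Or.inl hy
  | 2, .one 1, h, _, _ => exact absurd h (by decide)
  | 2, .one 2, h, _, _ => exact absurd h (by decide)
  | 2, .one 3, h, _, _ => exact absurd h (by decide)
  | 2, .one 4, _, h', _ => exact absurd h' (by decide)
  | 2, .two 0, _, _, hy => exact Or.inl hy.1
  | 2, .two 1, h, _, _ => exact absurd h (by decide)
  | 2, .two 2, h, _, _ => exact absurd h (by decide)
  | 2, .two 3, _, h', _ => exact absurd h' (by decide)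
  | 2, .two 4, _, _, hy => exact Or.inl hy.1
  | 3, .one 0, _, h', _ => exact absurd h' (by decide)
  | 3, .one 1, _, _, hy => exact ⟨DD_of_PQ true y hy, trans_Sm_PQ true hy⟩
  | 3, .one 2, h, _, _ => exact absurd h (by decide)
  | 3, .one 3, h, _, _ => exact absurd h (by decide)
  | 3, .one 4, h, _, _ => exact absurd h (by decide)
  | 3, .two 0, _, _, hy => exact ⟨trans_DDt hy.1, hy.2⟩
  | 3, .two 1, _, _, hy => exact ⟨trans_Pa3_DD true hy, trans_Sm_Pa3 hy⟩
  | 3, .two 2, h, _, _ => exact absurd h (by decide)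
  | 3, .two 3, h, _, _ => exact absurd h (by decide)
  | 3, .two 4, _, h', _ => exact absurd h' (by decide)
  | 4, .one 0, h, _, _ => exact absurd h (by decide)
  | 4, .one 1, _, h', _ => exact absurd h' (by decide)
  | 4, .one 2, _, _, hy => exact ⟨DD_of_PQ false y hy, trans_Sm_PQ false hy⟩
  | 4, .one 3, h, _, _ => exact absurd h (by decide)
  | 4, .one 4, h, _, _ => exact absurd h (by decide)
  | 4, .two 0, _, h', _ => exact absurd h' (by decide)
  | 4, .two 1, _, _, hy => exact ⟨trans_Pa3_DD false hy, trans_Sm_Pa3 hy⟩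
  | 4, .two 2, _, _, hy => exact ⟨trans_DDf hy.1, hy.2⟩
  | 4, .two 3, h, _, _ => exact absurd h (by decide)
  | 4, .two 4, h, _, _ => exact absurd h (by decide)

theorem In2_of_Base (i : Fin 5) (y : F2) (hy : Base y) : In2 i y := by
  match i with
  | 0 => exact Or.inr hy
  | 1 => exact Or.inr hy
  | 2 => exact Or.inr hy
  | 3 => exact ⟨DD_of_Pa2 true y (Pa2_of_Base y hy), trans_Sm_Pa2 (Pa2_of_Base y hy)⟩
  | 4 => exact ⟨DD_of_Pa2 false y (Pa2_of_Base y hy), trans_Sm_Pa2 (Pa2_of_Base y hy)⟩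

/-- Proof: by cases on `i`: `cb_PP`, `dt_PQ`, `x_Px` with `sig_b`, ... -/
theorem act_one (i : Fin 5) (n : ℤ) (hn : n ≠ 0) (y : F2) (hy : In i y) :
    Yt (.one i) (sig (gn i ^ n) y) := by
  match i, hy with
  | 0, hy =>
    rw [sig_b]
    exact cb_PP false n hn y hy
  | 1, hy =>
    rw [sig_S]
    exact dt_PQ true n hn y hy
  | 2, hy =>
    rw [sig_T]
    exact dt_PQ false n hn y hy
  | 3, hy =>
    rw [sig_c]
    exact cb_PP true n hn y hy
  | 4, hy =>
    rw [sig_x]
    exact x_Px n hn y hy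

theorem trans_sig (g h : C5) (y : F2) : sig (g * h) y = sig g (sig h y) := by
  rw [map_mul, Equiv.Perm.mul_apply]

theorem trans_swap (i : Fin 5) (n m : ℤ) : gn i ^ n * gn (i + 1) ^ m = gn (i + 1) ^ m * gn i ^ n :=
  (cF_comm i m n).symm

/-- the element `cb ε ^ n * z` for `z` in `Pa2` -/
theorem trans_cb (ε : Bool) (n : ℤ) (hn : n ≠ 0) {z : F2} (hz : Pa2 z) :
    PP ε (cb ε ^ n * z) ∧ Sm false false 1 (cb ε ^ n * z) :=
  ⟨cb_PP ε n hn z (DD_of_Pa2 ε z hz),
    (cb_Sm ε n 0 z (DD_of_Pa2 ε z hz) (Sm_of_Pa2 z hz)).mono (by norm_num)⟩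

/-- the element `x ^ m * cb ε ^ n * y` -/
theorem trans_x (ε : Bool) (n m : ℤ) (hn : n ≠ 0) (hm : m ≠ 0) {y : F2} (hd : DD ε y)
    (hs : Sm false false 1 y) : PP ε (twh false 0 (6 * m) (cb ε ^ n * y)) ∧
      Px (twh false 0 (6 * m) (cb ε ^ n * y)) :=
  ⟨x_PP ε m _ (cb_PP ε n hn y hd),
    x_Px m hm _ ((cb_Sm ε n 1 y hd hs).mono (by norm_num))⟩

theorem trans_dt (ε : Bool) (n : ℤ) (hn : n ≠ 0) {y : F2} (h : PP ε y ∨ Base y) : Pa2 (dt ε n y) :=
  h.elim (dt_PP ε n hn y) (dt_Base ε n hn y)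

/-- Proof: by cases on `i`.
Edge `0`: `gn 0 ^ n * gn 1 ^ m`: `z = dt true m y ∈ Pa2` (`dt_PP true`, `dt_Base`), then
`DD false z`, `Sm false false 0 z`, and `cb_PP`, `cb_Sm`.
Edge `1`: `sig_ST`, `ST_Pa3`.
Edge `2`: `gn 2 ^ n * gn 3 ^ m = gn 3 ^ m * gn 2 ^ n`: `z = dt false n y ∈ Pa2`, then `cb_PP`,
`cb_Sm`.
Edge `3`: `gn 3 ^ n * gn 4 ^ m = gn 4 ^ m * gn 3 ^ n`: `z = cb true ^ n * y` is in `PP true` and
in `Sm false false 2`, then `x_PP` and `x_Px`.
Edge `4`: `gn 4 ^ n * gn 0 ^ m`: `z = cb false ^ m * y`, likewise. -/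
theorem act_two (i : Fin 5) (n m : ℤ) (hn : n ≠ 0) (hm : m ≠ 0) (y : F2) (hy : In2 i y) :
    Yt (.two i) (sig (gn i ^ n * gn (i + 1) ^ m) y) := by
  match i, hy with
  | 0, hy =>
    have e : sig (gn 0 ^ n * gn (0 + 1) ^ m) y = cb false ^ n * dt true m y := by
      rw [trans_sig, sig_b, zero_add, sig_S]
    rw [e]
    exact trans_cb false n hn (trans_dt true m hm hy)
  | 1, hy =>
    have e : sig (gn 1 ^ n * gn (1 + 1) ^ m) y =
        FreeGroup.of false ^ (-(6 * m)) * twh true (6 * (n + m)) 0 y := sig_ST n m y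
    rw [e]
    exact ST_Pa3 n m hn hm y hy
  | 2, hy =>
    have e : sig (gn 2 ^ n * gn (2 + 1) ^ m) y = cb true ^ m * dt false n y := by
      rw [trans_swap, trans_sig, sig_T]
      exact sig_c m _
    rw [e]
    exact trans_cb true m hm (trans_dt false n hn hy)
  | 3, hy =>
    have e : sig (gn 3 ^ n * gn (3 + 1) ^ m) y = twh false 0 (6 * m) (cb true ^ n * y) := by
      rw [trans_swap, trans_sig, sig_c]
      exact sig_x m _
    rw [e]
    exact trans_x true n m hn hm hy.1 hy.2
  | 4, hy =>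
    have e : sig (gn 4 ^ n * gn (4 + 1) ^ m) y = twh false 0 (6 * n) (cb false ^ m * y) := by
      rw [trans_sig, sig_x]
      exact congrArg _ (sig_b m y)
    rw [e]
    exact trans_x false m n hm hn hy.1 hy.2

end Pool.Agent.H.MP_9a81ba_al.P
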