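import Pool.Agent.H.MP_9a81ba_al.P.SurfT
import Pool.Agent.H.MP_9a81ba_al.P.Scan

/-!
The unrestricted wreath product `(ℤ → F2) ⋊ ℤ` and a homomorphism from the surface group.
-/

namespace Pool.Agent.H.MP_9a81ba_al.P

/-- the shift of functions: `(shf n u) i = u (i + n)` -/
def shf : Multiplicative ℤ →* MulAut (ℤ → F2) where
  toFun n :=
    { toFun := fun u i => u (i + n.toAdd)
      invFun := fun u i => u (i - n.toAdd)
      left_inv := fun u => by funext i; simp
      right_inv := fun u => by funext i; simp
      map_mul' := fun u w => rfl }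
  map_one' := by
    apply MulEquiv.ext; intro u; funext i; simp
  map_mul' n m := by
    apply MulEquiv.ext; intro u; funext i
    simp only [toAdd_mul, MulEquiv.coe_mk, Equiv.coe_fn_mk, MulAut.mul_apply]
    congr 1; ring

theorem shf_apply (n : Multiplicative ℤ) (u : ℤ → F2) (i : ℤ) :
    shf n u i = u (i + n.toAdd) := rfl

/-- the wreath product -/
abbrev Wr : Type := (ℤ → F2) ⋊[shf] Multiplicative ℤ

/-- the commutator `[p, q]` -/
def cpq : F2 := cm (FreeGroup.of false) (FreeGroup.of true)

/-- the images of the generators: `a ↦ p` at `0`, `b ↦ q` at `0`, `d ↦ [p, q]⁻¹` at all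
`i ≤ 0`, `t ↦` shift, the other generators to `1` -/
def phx {r : ℕ} (z : Fin (r + 2) × Bool) : Wr :=
  if z = (0, false) then SemidirectProduct.inl (fun i => if i = 0 then FreeGroup.of false else 1)
  else if z = (0, true) then
    SemidirectProduct.inl (fun i => if i = 0 then FreeGroup.of true else 1)
  else if z = (1, false) then SemidirectProduct.inl (fun i => if i ≤ 0 then cpq⁻¹ else 1)
  else if z = (1, true) then SemidirectProduct.inr (Multiplicative.ofAdd 1)
  else 1

theorem wr_cm : cm (SemidirectProduct.inl (fun i => if i = 0 then FreeGroup.of false else 1) : Wr)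
      (SemidirectProduct.inl (fun i => if i = 0 then FreeGroup.of true else 1)) *
    cm (SemidirectProduct.inl (fun i => if i ≤ 0 then cpq⁻¹ else 1) : Wr)
      (SemidirectProduct.inr (Multiplicative.ofAdd 1)) = 1 := by
  have hA : cm (SemidirectProduct.inl (fun i => if i = 0 then FreeGroup.of false else 1) : Wr)
      (SemidirectProduct.inl (fun i => if i = 0 then FreeGroup.of true else 1)) =
      SemidirectProduct.inl (fun i => if i = 0 then cpq else 1) := by
    rw [← map_cm]
    congr 1
    funext i
    by_cases hi : i = 0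
    · simp [cm, cpq, hi]
    · simp [cm, hi]
  have hB : cm (SemidirectProduct.inl (fun i => if i ≤ 0 then cpq⁻¹ else 1) : Wr)
      (SemidirectProduct.inr (Multiplicative.ofAdd 1)) =
      SemidirectProduct.inl (fun i => if i = 0 then cpq⁻¹ else 1) := by
    have e1 : cm (SemidirectProduct.inl (fun i => if i ≤ 0 then cpq⁻¹ else 1) : Wr)
      (SemidirectProduct.inr (Multiplicative.ofAdd 1)) =
        SemidirectProduct.inl (fun i => if i ≤ 0 then cpq⁻¹ else 1) *
        (SemidirectProduct.inr (Multiplicative.ofAdd 1) *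
          SemidirectProduct.inl (fun i => if i ≤ 0 then cpq⁻¹ else 1)⁻¹ *
          (SemidirectProduct.inr (Multiplicative.ofAdd 1))⁻¹) := by
      unfold cm
      rw [map_inv]
      group
    rw [e1, ← map_inv SemidirectProduct.inr, ← SemidirectProduct.inl_aut, ← map_mul]
    congr 1
    funext i
    rw [Pi.mul_apply, shf_apply, Pi.inv_apply, toAdd_ofAdd]
    by_cases hi : i = 0
    · simp [hi]
    · by_cases hi2 : i ≤ 0
      · have hi3 : i + 1 ≤ 0 := by omega
        rw [if_pos hi2, if_pos hi3, if_neg hi, mul_inv_cancel]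
      · have hi3 : ¬ (i + 1 ≤ 0) := by omega
        rw [if_neg hi2, if_neg hi3, if_neg hi, mul_inv_cancel]
  rw [hA, hB, ← map_mul]
  have : ((fun i => if i = 0 then cpq else 1) * (fun i => if i = 0 then cpq⁻¹ else 1) :
      ℤ → F2) = 1 := by
    funext i
    by_cases hi : i = 0 <;> simp [hi]
  rw [this, map_one]

/-- Proof: `List.ofFn_succ` twice; the commutators with index `≥ 2` are `1`. `cm a b` is
`inl` of `[p, q]` at `0`. `cm d t = d * (t d⁻¹ t⁻¹)`, where `(t u t⁻¹) i = u (i + 1)`, is `inl` of
`i ↦ d i * (d (i + 1))⁻¹`, which is `[p, q]⁻¹` at `0` and `1` elsewhere. -/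
theorem rl_phx (r : ℕ) : rl (phx : Fin (r + 2) × Bool → Wr) = 1 := by
  have h00 : (phx (r := r) (0, false)) =
      SemidirectProduct.inl (fun i => if i = 0 then FreeGroup.of false else 1) := by
    simp [phx]
  have h01 : (phx (r := r) (0, true)) =
      SemidirectProduct.inl (fun i => if i = 0 then FreeGroup.of true else 1) := by
    simp [phx]
  have h10 : (phx (r := r) (1, false)) =
      SemidirectProduct.inl (fun i => if i ≤ 0 then cpq⁻¹ else 1) := by
    simp [phx]
  have h11 : (phx (r := r) (1, true)) =
      SemidirectProduct.inr (Multiplicative.ofAdd 1) := by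
    simp [phx]
  have h2 : ∀ (i : Fin r) (b : Bool), (phx (r := r) (i.succ.succ, b)) = 1 := by
    intro i b
    have e0 : (i.succ.succ : Fin (r + 2)) ≠ 0 := Fin.succ_ne_zero _
    have e1 : (i.succ.succ : Fin (r + 2)) ≠ 1 := by
      intro h
      have := congrArg Fin.val h
      simp at this
    simp [phx, e0, e1]
  unfold rl
  rw [List.ofFn_succ, List.prod_cons, List.ofFn_succ, List.prod_cons]
  have hrest : (List.ofFn fun i : Fin r => cm (phx (r := r) (i.succ.succ, false))
      (phx (r := r) (i.succ.succ, true))).prod = 1 := by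
    apply List.prod_eq_one
    intro x hx
    rw [List.mem_ofFn] at hx
    obtain ⟨i, rfl⟩ := hx
    rw [h2, h2]
    simp [cm]
  rw [hrest, mul_one]
  have e1 : (Fin.succ 0 : Fin (r + 2)) = 1 := rfl
  rw [e1, h00, h01, h10, h11]
  exact wr_cm

/-- the homomorphism to the wreath product -/
def Ph (r : ℕ) : Surf (r + 2) →* Wr := slift phx (rl_phx r)

theorem Ph_go {r : ℕ} (z : Fin (r + 2) × Bool) : Ph r (go z) = phx z := slift_go _ _ z

/-- Every element of the image is trivial far to the right. Proof: the set of all `w : Wr` for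
which `∃ n, ∀ i ≥ n, w.left i = 1` is a subgroup (products: `w.left i * w'.left (i + k)`;
inverses: `(w.left (i - k))⁻¹`), it contains the `phx z`; use
`PresentedGroup.closure_range_of` or `PresentedGroup.induction_on` and
`Subgroup.closure_induction`. -/
theorem Ph_right (r : ℕ) (w : Surf (r + 2)) : ∃ n : ℤ, ∀ i, n ≤ i → (Ph r w).left i = 1 := by
  let S : Subgroup Wr :=
    { carrier := {w : Wr | ∃ n : ℤ, ∀ i, n ≤ i → w.left i = 1}
      one_mem' := ⟨0, fun i _ => rfl⟩
      mul_mem' := by
        rintro w w' ⟨n, hn⟩ ⟨m, hm⟩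
        refine ⟨max n (m - w.right.toAdd), fun i hi => ?_⟩
        rw [SemidirectProduct.mul_left, Pi.mul_apply, shf_apply, hn i (le_trans (le_max_left _ _) hi),
          hm, one_mul]
        have := le_trans (le_max_right _ _) hi
        omega
      inv_mem' := by
        rintro w ⟨n, hn⟩
        refine ⟨n + w.right.toAdd, fun i hi => ?_⟩
        rw [SemidirectProduct.inv_left, shf_apply, Pi.inv_apply, hn, inv_one]
        rw [toAdd_inv]
        omega }
  have hz : ∀ z : Fin (r + 2) × Bool, phx z ∈ S := by
    intro z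
    unfold phx
    split_ifs
    · refine ⟨1, fun i hi => ?_⟩
      rw [SemidirectProduct.left_inl, if_neg (by omega)]
    · refine ⟨1, fun i hi => ?_⟩
      rw [SemidirectProduct.left_inl, if_neg (by omega)]
    · refine ⟨1, fun i hi => ?_⟩
      rw [SemidirectProduct.left_inl, if_neg (by omega)]
    · exact ⟨0, fun i _ => rfl⟩
    · exact ⟨0, fun i _ => rfl⟩
  have hle : (⊤ : Subgroup (Surf (r + 2))) ≤ S.comap (Ph r) := by
    rw [← PresentedGroup.closure_range_of, Subgroup.closure_le]
    rintro x ⟨z, rfl⟩
    change Ph r (go z) ∈ S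
    rw [Ph_go]
    exact hz z
  exact hle (Subgroup.mem_top w)

end Pool.Agent.H.MP_9a81ba_al.P
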